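import Pool.Agent.H22.WQ.Base

/-!
# WQ Harm: `S = 0` implies that `p` is a Wieferich prime (elementary)

`S = ∑_{t=1}^{(p-1)/2} t⁻¹` in `ZMod p`.  For `1 ≤ k ≤ p-1`:
`C(p,k) = (p/k) C(p-1,k-1)` and `C(p-1,k-1) ≡ (-1)^(k-1) (mod p)`, so
`C(p,k)/p ≡ (-1)^(k-1) / k (mod p)`.  Sum over `k`:
`(2^p - 2)/p ≡ ∑_{k=1}^{p-1} (-1)^(k-1)/k = ∑_{k=1}^{p-1} 1/k - 2 ∑_{k even} 1/k
 = 0 - ∑_{j=1}^{(p-1)/2} 1/j = -S (mod p)`
(`∑_{k=1}^{p-1} 1/k = 0` in `ZMod p` by `k ↦ -k`).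
So `S = 0` gives `p² ∣ 2^p - 2 = 2 (2^(p-1) - 1)` and `p` odd gives `p² ∣ 2^(p-1) - 1`.
-/

open NumberField
open scoped Pointwise

namespace Pool.Agent.H22.WQ

variable (p : ℕ) [Fact p.Prime]

theorem Harm_choose (k : ℕ) (hk : k < p) : (((p - 1).choose k : ℕ) : ZMod p) = (-1) ^ k := by
  have hp : p.Prime := Fact.out
  induction k with
  | zero => simp
  | succ k ih =>
    have h1 : p.choose (k + 1) = (p - 1).choose k + (p - 1).choose (k + 1) := by
      have := Nat.choose_succ_succ (p - 1) k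
      rwa [Nat.succ_eq_add_one, Nat.sub_add_cancel hp.one_le] at this
    have h2 : ((p.choose (k + 1) : ℕ) : ZMod p) = 0 :=
      (ZMod.natCast_eq_zero_iff _ _).mpr (hp.dvd_choose_self (Nat.succ_ne_zero k) hk)
    rw [h1, Nat.cast_add, ih (by omega)] at h2
    rw [pow_succ]
    linear_combination h2

/-- `c_k = C(p,k)/p` -/
theorem Harm_coef (k : ℕ) (hk0 : 1 ≤ k) (hk : k < p) :
    ((p.choose k / p : ℕ) : ZMod p) = (-1) ^ (k - 1) * ((k : ℕ) : ZMod p)⁻¹ := by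
  have hp : p.Prime := Fact.out
  obtain ⟨c, hc⟩ := hp.dvd_choose_self (by omega : k ≠ 0) hk
  have h1 : p.choose k / p = c := by rw [hc]; exact Nat.mul_div_cancel_left c hp.pos
  rw [h1]
  have h2 : k * p.choose k = p * (p - 1).choose (k - 1) := by
    have := Nat.add_one_mul_choose_eq (p - 1) (k - 1)
    rw [Nat.sub_add_cancel hp.one_le, Nat.sub_add_cancel hk0] at this
    rw [this]; ring
  have h3 : k * c = (p - 1).choose (k - 1) := by
    have h4 : p * (k * c) = p * (p - 1).choose (k - 1) := by rw [← h2, hc]; ring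
    exact Nat.eq_of_mul_eq_mul_left hp.pos h4
  have hk' : ((k : ℕ) : ZMod p) ≠ 0 := by
    rw [Ne, ZMod.natCast_eq_zero_iff]
    exact Nat.not_dvd_of_pos_of_lt hk0 hk
  have h5 : ((k : ℕ) : ZMod p) * (c : ZMod p) = (-1) ^ (k - 1) := by
    rw [← Nat.cast_mul, h3, Harm_choose p (k - 1) (by omega)]
  rw [← h5]
  field_simp

theorem Harm_sum_inv (hp3 : 3 ≤ p) :
    ∑ k ∈ Finset.Icc 1 (p - 1), ((k : ℕ) : ZMod p)⁻¹ = 0 := by
  have hp : p.Prime := Fact.out
  have h1 : ∑ k ∈ Finset.Icc 1 (p - 1), ((k : ℕ) : ZMod p)⁻¹ =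
      ∑ k ∈ Finset.Icc 1 (p - 1), -((k : ℕ) : ZMod p)⁻¹ := by
    refine Finset.sum_nbij' (fun k => p - k) (fun k => p - k) ?_ ?_ ?_ ?_ ?_
    · intro k hk; simp only [Finset.mem_Icc] at hk ⊢; omega
    · intro k hk; simp only [Finset.mem_Icc] at hk ⊢; omega
    · intro k hk; simp only [Finset.mem_Icc] at hk; show p - (p - k) = k; omega
    · intro k hk; simp only [Finset.mem_Icc] at hk; show p - (p - k) = k; omega
    · intro k hk
      simp only [Finset.mem_Icc] at hk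
      rw [Nat.cast_sub (by omega), ZMod.natCast_self, zero_sub, inv_neg, neg_neg]
  rw [Finset.sum_neg_distrib] at h1
  have h2 : (2 : ZMod p) * ∑ k ∈ Finset.Icc 1 (p - 1), ((k : ℕ) : ZMod p)⁻¹ = 0 := by
    linear_combination h1
  have h3 : (2 : ZMod p) ≠ 0 := by
    have : ((2 : ℕ) : ZMod p) ≠ 0 := by
      rw [Ne, ZMod.natCast_eq_zero_iff]
      exact Nat.not_dvd_of_pos_of_lt (by norm_num) (by omega)
    exact_mod_cast this
  exact (mul_eq_zero.mp h2).resolve_left h3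

theorem Harm_SS (hp3 : 3 ≤ p) :
    SS p = ∑ j ∈ Finset.Icc 1 ((p - 1) / 2), ((j : ℕ) : ZMod p)⁻¹ := by
  have hp : p.Prime := Fact.out
  unfold SS
  refine Finset.sum_bij (fun t _ => (t : ZMod p).val) ?_ ?_ ?_ ?_
  · intro t ht
    have h1 : t.val.val ≤ (p - 1) / 2 := (Finset.mem_filter.mp ht).2
    have h2 : t.val.val ≠ 0 := by
      rw [Ne, ZMod.val_eq_zero]; exact t.ne_zero
    exact Finset.mem_Icc.mpr ⟨Nat.one_le_iff_ne_zero.mpr h2, h1⟩
  · intro a _ b _ hab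
    exact Units.ext (ZMod.val_injective p hab)
  · intro j hj
    obtain ⟨hj1, hj2⟩ := Finset.mem_Icc.mp hj
    have hlt : j < p := by omega
    have hne : ((j : ℕ) : ZMod p) ≠ 0 := by
      rw [Ne, ZMod.natCast_eq_zero_iff]
      exact Nat.not_dvd_of_pos_of_lt hj1 hlt
    refine ⟨Units.mk0 _ hne, ?_, ?_⟩
    · refine Finset.mem_filter.mpr ⟨Finset.mem_univ _, ?_⟩
      rw [Units.val_mk0, ZMod.val_natCast_of_lt hlt]
      exact hj2
    · rw [Units.val_mk0, ZMod.val_natCast_of_lt hlt]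
  · intro t _
    rw [ZMod.natCast_zmod_val, Units.val_inv_eq_inv_val]

theorem Harm_Q (hp3 : 3 ≤ p) :
    ((∑ k ∈ Finset.Icc 1 (p - 1), p.choose k / p : ℕ) : ZMod p) = - SS p := by
  have hp : p.Prime := Fact.out
  have hodd : Odd p := hp.odd_of_ne_two (by omega)
  have e1 : ((∑ k ∈ Finset.Icc 1 (p - 1), p.choose k / p : ℕ) : ZMod p) =
      ∑ k ∈ Finset.Icc 1 (p - 1), (-1) ^ (k - 1) * ((k : ℕ) : ZMod p)⁻¹ := by
    rw [Nat.cast_sum]
    refine Finset.sum_congr rfl fun k hk => ?_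
    have := Finset.mem_Icc.mp hk
    exact Harm_coef p k this.1 (by omega)
  have e2 : ∀ k ∈ Finset.Icc 1 (p - 1), ((-1 : ZMod p)) ^ (k - 1) * ((k : ℕ) : ZMod p)⁻¹ =
      ((k : ℕ) : ZMod p)⁻¹ - (if Even k then 2 * ((k : ℕ) : ZMod p)⁻¹ else 0) := by
    intro k hk
    have hk1 := (Finset.mem_Icc.mp hk).1
    by_cases h : Even k
    · have h' : Odd (k - 1) := by
        rcases h with ⟨r, hr⟩
        exact ⟨r - 1, by omega⟩
      rw [if_pos h, h'.neg_one_pow]; ring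
    · have h' : Even (k - 1) := by
        rcases Nat.not_even_iff_odd.mp h with ⟨r, hr⟩
        exact ⟨r, by omega⟩
      rw [if_neg h, h'.neg_one_pow]; ring
  rw [e1, Finset.sum_congr rfl e2, Finset.sum_sub_distrib, Harm_sum_inv p hp3, zero_sub,
    Harm_SS p hp3, ← Finset.sum_filter]
  congr 1
  have h2ne : (2 : ZMod p) ≠ 0 := by
    have : ((2 : ℕ) : ZMod p) ≠ 0 := by
      rw [Ne, ZMod.natCast_eq_zero_iff]
      exact Nat.not_dvd_of_pos_of_lt (by norm_num) (by omega)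
    exact_mod_cast this
  refine Finset.sum_nbij' (fun k => k / 2) (fun j => 2 * j) ?_ ?_ ?_ ?_ ?_
  · intro k hk
    obtain ⟨h1, h2⟩ := Finset.mem_filter.mp hk
    have h3 := Finset.mem_Icc.mp h1
    obtain ⟨r, hr⟩ := h2
    simp only [Finset.mem_Icc]; omega
  · intro j hj
    have h3 := Finset.mem_Icc.mp hj
    refine Finset.mem_filter.mpr ⟨?_, even_two_mul j⟩
    simp only [Finset.mem_Icc]
    obtain ⟨r, hr⟩ := hodd
    omega
  · intro k hk
    obtain ⟨h1, h2⟩ := Finset.mem_filter.mp hk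
    obtain ⟨r, hr⟩ := h2
    show 2 * (k / 2) = k
    omega
  · intro j _
    show 2 * j / 2 = j
    omega
  · intro k hk
    obtain ⟨h1, h2⟩ := Finset.mem_filter.mp hk
    obtain ⟨r, hr⟩ := h2
    have hk2 : k = 2 * (k / 2) := by omega
    have : ((k : ℕ) : ZMod p) = 2 * ((k / 2 : ℕ) : ZMod p) := by
      conv_lhs => rw [hk2]
      push_cast
      ring
    rw [this, mul_inv]
    field_simp

theorem wieferich_of_SS (hp : 3 ≤ p) (h : SS p = 0) : p ^ 2 ∣ 2 ^ (p - 1) - 1 := by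
  have hpp : p.Prime := Fact.out
  have hodd : Odd p := hpp.odd_of_ne_two (by omega)
  have h1 := Harm_Q p hp
  rw [h, neg_zero, ZMod.natCast_eq_zero_iff] at h1
  obtain ⟨m, hm⟩ := h1
  have h2 : 2 ^ p = 2 + p * ∑ k ∈ Finset.Icc 1 (p - 1), p.choose k / p := by
    rw [← Nat.sum_range_choose p, Finset.sum_range_succ, Finset.sum_range_eq_add_Ico _ hpp.pos,
      Nat.choose_zero_right, Nat.choose_self, Finset.mul_sum]
    have h3 : ∑ k ∈ Finset.Ico 1 p, p.choose k = ∑ k ∈ Finset.Icc 1 (p - 1), p * (p.choose k / p) := by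
      refine Finset.sum_congr ?_ ?_
      · ext k; simp only [Finset.mem_Ico, Finset.mem_Icc]
        have := hpp.one_le
        omega
      · intro k hk
        have hk' := Finset.mem_Icc.mp hk
        exact (Nat.mul_div_cancel' (hpp.dvd_choose_self (by omega) (by omega))).symm
    rw [h3]; ring
  have h4 : 2 * (2 ^ (p - 1) - 1) = p ^ 2 * m := by
    have h5 : 2 * 2 ^ (p - 1) = 2 ^ p := by
      rw [← pow_succ', Nat.sub_add_cancel hpp.one_le]
    rw [hm] at h2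
    have h6 : 2 * (2 ^ (p - 1) - 1) = 2 * 2 ^ (p - 1) - 2 := by
      rw [Nat.mul_sub]
    rw [h6, h5, h2]
    have : p * (p * m) = p ^ 2 * m := by ring
    omega
  have hcop : Nat.Coprime (p ^ 2) 2 := by
    refine Nat.Coprime.pow_left 2 ?_
    exact hodd.coprime_two_right
  exact hcop.dvd_of_dvd_mul_left (Dvd.intro m h4.symm)

end Pool.Agent.H22.WQ
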