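import Mathlib

/-!
# WQ KBase: definitions on the side of the quadratic field
-/

open NumberField IsDedekindDomain

namespace Pool.Agent.H22.WQ

/-- `σ` is an involution of `K` with fixed field `ℚ` -/
structure IsCj (K : Type*) [Field K] [NumberField K] (σ : K ≃ₐ[ℚ] K) : Prop where
  inv : ∀ x, σ (σ x) = x
  fix : ∀ x, σ x = x → ∃ r : ℚ, x = (r : K)

/-- the prime `v` divides the first of three elements and not the others (up to a common factor) -/
def Dv {K : Type*} [Field K] [NumberField K] (v : HeightOneSpectrum (𝓞 K)) (a b c : K) : Prop :=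
  v.valuation K a < v.valuation K b ∧ v.valuation K b = v.valuation K c

/-- the prime `v` divides none of three elements (up to a common factor) -/
def Nd {K : Type*} [Field K] [NumberField K] (v : HeightOneSpectrum (𝓞 K)) (a b c : K) : Prop :=
  v.valuation K a = v.valuation K b ∧ v.valuation K b = v.valuation K c

/-- the largest of the three values -/
noncomputable def mx {K : Type*} [Field K] [NumberField K] (v : HeightOneSpectrum (𝓞 K))
    (a b c : K) : WithZero (Multiplicative ℤ) :=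
  max (v.valuation K a) (max (v.valuation K b) (v.valuation K c))

/-- the coefficients of `N(a x + b y + c z) / g`, `g` the content -/
structure Coef (K : Type*) [Field K] [NumberField K] (σ : K ≃ₐ[ℚ] K) (a b c : K) (g : ℚ)
    (A B C X Y Z : ℤ) : Prop where
  gpos : 0 < g
  hA : a * σ a = (g : K) * A
  hB : b * σ b = (g : K) * B
  hC : c * σ c = (g : K) * C
  hX : b * σ c + c * σ b = (g : K) * X
  hY : c * σ a + a * σ c = (g : K) * Y
  hZ : a * σ b + b * σ a = (g : K) * Z
  pab : ∀ l : ℕ, l.Prime → ¬ ((l : ℤ) ∣ A ∧ (l : ℤ) ∣ Z ∧ (l : ℤ) ∣ B)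
  pbc : ∀ l : ℕ, l.Prime → ¬ ((l : ℤ) ∣ B ∧ (l : ℤ) ∣ X ∧ (l : ℤ) ∣ C)
  pca : ∀ l : ℕ, l.Prime → ¬ ((l : ℤ) ∣ C ∧ (l : ℤ) ∣ Y ∧ (l : ℤ) ∣ A)
  hv : ∀ v : HeightOneSpectrum (𝓞 K),
    v.valuation K (g : K) = mx v a b c * mx v (σ a) (σ b) (σ c)

/-- the Lucas sequence `V_n(3,6)` -/
def VL : ℕ → ℤ
  | 0 => 2
  | 1 => 3
  | (n + 2) => 3 * VL (n + 1) - 6 * VL n

end Pool.Agent.H22.WQ
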