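import Mathlib

/-!
# Project WQ: Wieferich's criterion over quadratic fields.  Definitions.

`E` is a `p`-th cyclotomic field over `ℚ`, `𝓞 E` its ring of integers, `zt p E` a fixed primitive
`p`-th root of unity in `𝓞 E`, `sg p E t` the automorphism `zt ↦ zt ^ t`,
`th p E x = ∏_{t ≤ (p-1)/2} σ_t⁻¹ x`, `SS p = ∑_{t ≤ (p-1)/2} t⁻¹` in `ZMod p`.
-/

open NumberField
open scoped Pointwise

namespace Pool.Agent.H22.WQ

variable (p : ℕ) [Fact p.Prime] (E : Type*) [Field E] [NumberField E]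
  [IsCyclotomicExtension {p} ℚ E]

/-- a primitive `p`-th root of unity -/
noncomputable def zt : 𝓞 E := (IsCyclotomicExtension.zeta_spec p ℚ E).toInteger

/-- the automorphism `zt ↦ zt ^ t` -/
noncomputable def sg (t : (ZMod p)ˣ) : Gal(E/ℚ) :=
  (IsCyclotomicExtension.Rat.galEquivZMod p E).symm t

/-- the units `t` of `ZMod p` with representative `1 ≤ t ≤ (p-1)/2` -/
def HT : Finset (ZMod p)ˣ := Finset.univ.filter (fun t => t.val.val ≤ (p - 1) / 2)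

/-- `θ(x) = ∏_{t ≤ (p-1)/2} σ_t⁻¹ x` -/
noncomputable def th (x : 𝓞 E) : 𝓞 E := ∏ t ∈ HT p, (sg p E t⁻¹) • x

/-- `θ(I) = ∏_{t ≤ (p-1)/2} σ_t⁻¹ I` -/
noncomputable def thI (I : Ideal (𝓞 E)) : Ideal (𝓞 E) := ∏ t ∈ HT p, (sg p E t⁻¹) • I

/-- `S = ∑_{t ≤ (p-1)/2} t⁻¹` -/
def SS : ZMod p := ∑ t ∈ HT p, ((t⁻¹ : (ZMod p)ˣ) : ZMod p)

/-- complex conjugation -/
noncomputable def cj (x : 𝓞 E) : 𝓞 E := (sg p E (-1)) • x

/-- `I ≠ 0` and all primes above `I` lie over rational primes `l` with `l² ≡ 1 (mod p)` -/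
def GoodI (I : Ideal (𝓞 E)) : Prop :=
  I ≠ ⊥ ∧ ∀ L : Ideal (𝓞 E), L.IsPrime → I ≤ L →
    ∃ l : ℕ, l.Prime ∧ (l : 𝓞 E) ∈ L ∧ ((l : ZMod p)) ^ 2 = 1

/-- `(x) = I ^ p` with `I` as above -/
def Good (x : 𝓞 E) : Prop :=
  x ≠ 0 ∧ ∃ I : Ideal (𝓞 E), GoodI p E I ∧ Ideal.span {x} = I ^ p

/-- `x ≠ 0`, the valuation of `x` is divisible by `p` at all primes not above `p`, and the primes
not above `p` which divide `x` lie over rational primes `l` with `l² ≡ 1 (mod p)` -/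
def GoodOff (x : 𝓞 E) : Prop :=
  x ≠ 0 ∧ ∀ v : IsDedekindDomain.HeightOneSpectrum (𝓞 E), (p : 𝓞 E) ∉ v.asIdeal →
    (∃ u : WithZero (Multiplicative ℤ), v.valuation E (x : E) = u ^ p) ∧
    (x ∈ v.asIdeal → ∃ l : ℕ, l.Prime ∧ (l : 𝓞 E) ∈ v.asIdeal ∧ ((l : ZMod p)) ^ 2 = 1)

/-- the palindromic degree of `a + b x + c x²` over `F_2` -/
def kk (a b c : ZMod 2) : ℕ :=
  if a = 0 then (if b = 0 then 4 else (if c = 0 then 2 else 3))
  else (if b = 0 then (if c = 0 then 0 else 2) else (if c = 0 then 1 else 2))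

/-- the relation `k/2 - M/2 = β` for `P = a0 + a1 x + a2 x²` modulo `p` -/
def Rl (k : ℕ) (a0 a1 a2 : ZMod p) : Prop :=
  (a0 + a1 + a2 ≠ 0 → (k : ZMod p) * (a0 + a1 + a2) = 2 * (a1 + 2 * a2)) ∧
  (a0 + a1 + a2 = 0 → a1 + 2 * a2 ≠ 0 → ((k : ZMod p) - 1) * (a1 + 2 * a2) = 2 * a2) ∧
  (a0 + a1 + a2 = 0 → a1 + 2 * a2 = 0 → (k : ZMod p) = 2)

theorem zt_prim : IsPrimitiveRoot (zt p E) p :=
  (IsCyclotomicExtension.zeta_spec p ℚ E).toInteger_isPrimitiveRoot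

theorem zt_pow : zt p E ^ p = 1 := (zt_prim p E).pow_eq_one

theorem sg_smul_zt (t : (ZMod p)ˣ) : sg p E t • zt p E = zt p E ^ t.val.val := by
  have h := IsCyclotomicExtension.Rat.galEquivZMod_smul_of_pow_eq p E (sg p E t)
    (x := zt p E) (zt_pow p E)
  rw [h, sg, MulEquiv.apply_symm_apply]

theorem sg_mul (s t : (ZMod p)ˣ) : sg p E (s * t) = sg p E s * sg p E t := by
  unfold sg; exact map_mul _ _ _

theorem sg_one : sg p E 1 = 1 := by unfold sg; exact map_one _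

theorem sg_inv (t : (ZMod p)ˣ) : sg p E t⁻¹ = (sg p E t)⁻¹ := by
  unfold sg; exact map_inv _ _

theorem sg_smul_int (t : (ZMod p)ˣ) (n : ℤ) : sg p E t • (n : 𝓞 E) = n :=
  map_intCast (MulSemiringAction.toRingHom Gal(E/ℚ) (𝓞 E) (sg p E t)) n

theorem sg_surj (g : Gal(E/ℚ)) : ∃ t, sg p E t = g :=
  ⟨IsCyclotomicExtension.Rat.galEquivZMod p E g, MulEquiv.symm_apply_apply _ _⟩

end Pool.Agent.H22.WQ
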