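import Mathlib

/-!
# WQ V2: Gauss's lemma for products of two linear polynomials

Let `m = max (w a) (w b)`, `m' = max (w a') (w b')`.  All three values are `≤ m m'`.  If
`w(a a') < m m'` and `w(b b') < m m'` (in particular `m, m' ≠ 0`): if `w a = m` then `w a' < m'`, so
`w b' = m'`, so `w b < m`; then `w(a b') = m m'` and `w(b a') < m m'`, so `w(a b' + b a') = m m'`.  If
`w a < m` then `w b = m`, so `w b' < m'`, `w a' = m'`, and `w(b a') = m m' > w(a b')`.
* `val_int_prim`: `w n ≤ 1` for integers `n`; `1 = x0 a0 + x1 a1 + x2 a2` with integers `x_i`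
  (Bezout, `gcd(a0,a1,a2) = 1` by `hprim`), so `1 ≤ max`.
-/

open NumberField
open scoped Pointwise

namespace Pool.Agent.H22.WQ

theorem V2_lt {x y x' y' : WithZero (Multiplicative ℤ)} (h : x < y) (h' : y' < x') :
    x * y' < y * x' := by
  have hy : 0 < y := lt_of_le_of_lt zero_le h
  calc x * y' ≤ y * y' := mul_le_mul' h.le le_rfl
    _ < y * x' := mul_lt_mul_of_pos_left h' hy

theorem val_content {L : Type*} [Field L] (w : Valuation L (WithZero (Multiplicative ℤ)))
    (a b a' b' : L) :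
    max (w (a * a')) (max (w (a * b' + b * a')) (w (b * b'))) =
      max (w a) (w b) * max (w a') (w b') := by
  have h0 : ∀ x : WithZero (Multiplicative ℤ), 0 ≤ x := fun x => zero_le
  have hup : max (w (a * a')) (max (w (a * b' + b * a')) (w (b * b'))) ≤
      max (w a) (w b) * max (w a') (w b') := by
    have h1 : w (a * a') ≤ max (w a) (w b) * max (w a') (w b') := by
      rw [map_mul]
      exact mul_le_mul' (le_max_left _ _) (le_max_left _ _)
    have h2 : w (a * b') ≤ max (w a) (w b) * max (w a') (w b') := by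
      rw [map_mul]
      exact mul_le_mul' (le_max_left _ _) (le_max_right _ _)
    have h3 : w (b * a') ≤ max (w a) (w b) * max (w a') (w b') := by
      rw [map_mul]
      exact mul_le_mul' (le_max_right _ _) (le_max_left _ _)
    have h4 : w (b * b') ≤ max (w a) (w b) * max (w a') (w b') := by
      rw [map_mul]
      exact mul_le_mul' (le_max_right _ _) (le_max_right _ _)
    exact max_le h1 (max_le ((w.map_add _ _).trans (max_le h2 h3)) h4)
  apply le_antisymm hup
  rcases lt_trichotomy (w a) (w b) with hab | hab | hab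
  · rcases lt_trichotomy (w a') (w b') with hab' | hab' | hab'
    · rw [max_eq_right hab.le, max_eq_right hab'.le, ← map_mul]
      exact (le_max_right _ _).trans (le_max_right _ _)
    · rw [max_eq_right hab.le, max_eq_right hab'.le, ← map_mul]
      exact (le_max_right _ _).trans (le_max_right _ _)
    · rw [max_eq_right hab.le, max_eq_left hab'.le]
      have h1 : w (a * b') < w (b * a') := by
        rw [map_mul, map_mul]
        exact V2_lt hab hab'
      have h2 : w (a * b' + b * a') = w (b * a') := w.map_add_eq_of_lt_right h1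
      rw [← map_mul, ← h2]
      exact (le_max_left _ _).trans (le_max_right _ _)
  · rcases le_total (w a') (w b') with hab' | hab'
    · rw [max_eq_right hab.le, max_eq_right hab', ← map_mul]
      exact (le_max_right _ _).trans (le_max_right _ _)
    · rw [max_eq_left hab.ge, max_eq_left hab', ← map_mul]
      exact le_max_left _ _
  · rcases lt_trichotomy (w a') (w b') with hab' | hab' | hab'
    · rw [max_eq_left hab.le, max_eq_right hab'.le]
      have h1 : w (b * a') < w (a * b') := by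
        rw [map_mul, map_mul]
        exact V2_lt hab hab'
      have h2 : w (a * b' + b * a') = w (a * b') := w.map_add_eq_of_lt_left h1
      rw [← map_mul, ← h2]
      exact (le_max_left _ _).trans (le_max_right _ _)
    · rw [max_eq_left hab.le, max_eq_left hab'.ge, ← map_mul]
      exact le_max_left _ _
    · rw [max_eq_left hab.le, max_eq_left hab'.le, ← map_mul]
      exact le_max_left _ _

theorem V2_nat {L : Type*} [Field L] (w : Valuation L (WithZero (Multiplicative ℤ))) (n : ℕ) :
    w (n : L) ≤ 1 := by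
  induction n with
  | zero =>
    rw [Nat.cast_zero, map_zero]
    exact zero_le
  | succ n ih =>
    rw [Nat.cast_succ]
    exact (w.map_add _ _).trans (max_le ih (map_one w).le)

theorem V2_int {L : Type*} [Field L] (w : Valuation L (WithZero (Multiplicative ℤ))) (n : ℤ) :
    w (n : L) ≤ 1 := by
  rcases Int.eq_nat_or_neg n with ⟨m, rfl | rfl⟩
  · rw [Int.cast_natCast]
    exact V2_nat w m
  · rw [Int.cast_neg, Valuation.map_neg, Int.cast_natCast]
    exact V2_nat w m

theorem val_int_prim {L : Type*} [Field L] (w : Valuation L (WithZero (Multiplicative ℤ)))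
    (a0 a1 a2 : ℤ)
    (hprim : ∀ l : ℕ, l.Prime → ¬ ((l : ℤ) ∣ a0 ∧ (l : ℤ) ∣ a1 ∧ (l : ℤ) ∣ a2)) :
    max (w (a0 : L)) (max (w (a1 : L)) (w (a2 : L))) = 1 := by
  have h0 := V2_int w a0
  have h1 := V2_int w a1
  have h2 := V2_int w a2
  apply le_antisymm (max_le h0 (max_le h1 h2))
  have hg : Int.gcd (Int.gcd a0 a1) a2 = 1 := by
    by_contra hne
    obtain ⟨l, hl, hdvd⟩ := Nat.exists_prime_and_dvd hne
    have e1 : (l : ℤ) ∣ (Int.gcd (Int.gcd a0 a1) a2 : ℤ) := Int.natCast_dvd_natCast.2 hdvd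
    have e2 : (l : ℤ) ∣ (Int.gcd a0 a1 : ℤ) := e1.trans (Int.gcd_dvd_left _ _)
    exact hprim l hl ⟨e2.trans (Int.gcd_dvd_left _ _), e2.trans (Int.gcd_dvd_right _ _),
      e1.trans (Int.gcd_dvd_right _ _)⟩
  obtain ⟨x, y, hxy⟩ : ∃ x y : ℤ, (Int.gcd a0 a1 : ℤ) * x + a2 * y = 1 := by
    refine ⟨Int.gcdA (Int.gcd a0 a1) a2, Int.gcdB (Int.gcd a0 a1) a2, ?_⟩
    rw [← Int.gcd_eq_gcd_ab, hg]
    rfl
  obtain ⟨u, v, huv⟩ : ∃ u v : ℤ, (Int.gcd a0 a1 : ℤ) = a0 * u + a1 * v :=
    ⟨Int.gcdA a0 a1, Int.gcdB a0 a1, Int.gcd_eq_gcd_ab a0 a1⟩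
  have hone : (1 : L) = (a0 : L) * ((u * x : ℤ) : L) + ((a1 : L) * ((v * x : ℤ) : L) +
      (a2 : L) * ((y : ℤ) : L)) := by
    rw [huv] at hxy
    have h3 : ((1 : ℤ) : L) = (((a0 * u + a1 * v) * x + a2 * y : ℤ) : L) := by rw [hxy]
    push_cast at h3 ⊢
    rw [h3]
    ring
  have hle : ∀ (n k : ℤ), w ((n : L) * ((k : ℤ) : L)) ≤ w (n : L) := by
    intro n k
    rw [map_mul]
    calc w (n : L) * w ((k : ℤ) : L) ≤ w (n : L) * 1 := mul_le_mul' le_rfl (V2_int w k)
      _ = w (n : L) := mul_one _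
  calc (1 : WithZero (Multiplicative ℤ)) = w 1 := (map_one w).symm
    _ = w ((a0 : L) * ((u * x : ℤ) : L) + ((a1 : L) * ((v * x : ℤ) : L) +
      (a2 : L) * ((y : ℤ) : L))) := by rw [← hone]
    _ ≤ max (w ((a0 : L) * ((u * x : ℤ) : L))) (w ((a1 : L) * ((v * x : ℤ) : L) +
      (a2 : L) * ((y : ℤ) : L))) := w.map_add _ _
    _ ≤ max (w (a0 : L)) (max (w (a1 : L)) (w (a2 : L))) :=
        max_le_max (hle a0 _) ((w.map_add _ _).trans (max_le_max (hle a1 _) (hle a2 _)))

end Pool.Agent.H22.WQ
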