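import Pool.Agent.H22.WQ.V1
import Pool.Agent.H22.WQ.V2

/-!
# WQ V3: the valuation of `P(ζ)` is a `p`-th power

`(a + z b)(a' + z b') = a a' + z (a b' + b a') + z² b b' = g (a0 + a1 z + a2 z²)`.
`w(g) = w(g) * max(w a0, w a1, w a2) = max(w(a a'), w(a b' + b a'), w(b b')) = m m'`
(`val_int_prim`, `val_content`), where `m = max (w a) (w b)`, `m' = max (w a') (w b')`.
`val_factor` for `(a,b,c)` and `(a',b',c')`: `w(a + z b) = m u^p`, `w(a' + z b') = m' u'^p`.  So
`w(P(z)) = (u u')^p`.  If it is `< 1` then `u < 1` or `u' < 1` (both are `≤ 1` because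
`w(a + z b) ≤ m`), so `w(a + z b) < m` or `w(a' + z b') < m'`; then `w a = w b` resp.
`w a' = w b'` by `val_factor`.
-/

open NumberField
open scoped Pointwise

namespace Pool.Agent.H22.WQ

private theorem V3_unit {L : Type*} [Field L] (w : Valuation L (WithZero (Multiplicative ℤ)))
    (p : ℕ) [Fact p.Prime] {z : L} (hz : IsPrimitiveRoot z p) : w z = 1 := by
  have hp0 : p ≠ 0 := (Fact.out : p.Prime).ne_zero
  have h1 : w z ^ p = 1 := by rw [← map_pow, hz.pow_eq_one, map_one]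
  exact (pow_eq_one_iff.1 h1).resolve_right hp0

private theorem V3_le {L : Type*} [Field L] (w : Valuation L (WithZero (Multiplicative ℤ)))
    (p : ℕ) [Fact p.Prime] {z : L} (hz : IsPrimitiveRoot z p) (a b : L) :
    w (a + z * b) ≤ max (w a) (w b) := by
  have h := w.map_add a (z * b)
  rwa [map_mul, V3_unit w p hz, one_mul] at h

theorem val_quad {L : Type*} [Field L] (w : Valuation L (WithZero (Multiplicative ℤ))) (p : ℕ)
    [Fact p.Prime] (hp : 3 ≤ p) {z : L} (hz : IsPrimitiveRoot z p) (hwp : w (p : L) = 1)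
    {a b c a' b' c' g : L} (ha : a ≠ 0) (hb : b ≠ 0) (hc : c ≠ 0) (h : a ^ p + b ^ p + c ^ p = 0)
    (ha' : a' ≠ 0) (hb' : b' ≠ 0) (hc' : c' ≠ 0) (h' : a' ^ p + b' ^ p + c' ^ p = 0)
    (hg : g ≠ 0) (a0 a1 a2 : ℤ) (h0 : a * a' = g * a0) (h1 : a * b' + b * a' = g * a1)
    (h2 : b * b' = g * a2)
    (hprim : ∀ l : ℕ, l.Prime → ¬ ((l : ℤ) ∣ a0 ∧ (l : ℤ) ∣ a1 ∧ (l : ℤ) ∣ a2)) :
    (∃ u : WithZero (Multiplicative ℤ), w ((a0 : L) + a1 * z + a2 * z ^ 2) = u ^ p) ∧
      (w ((a0 : L) + a1 * z + a2 * z ^ 2) < 1 →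
        (w (a + z * b) < w b ∧ w a = w b) ∨ (w (a' + z * b') < w b' ∧ w a' = w b')) := by
  have hprod : (a + z * b) * (a' + z * b') = g * ((a0 : L) + a1 * z + a2 * z ^ 2) := by
    linear_combination h0 + z * h1 + z ^ 2 * h2
  have hwg : w g = max (w a) (w b) * max (w a') (w b') := by
    have e1 := val_content w a b a' b'
    rw [h0, h1, h2, map_mul, map_mul, map_mul] at e1
    have e2 := val_int_prim w a0 a1 a2 hprim
    have e3 : max (w g * w (a0 : L)) (max (w g * w (a1 : L)) (w g * w (a2 : L))) =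
        w g * max (w (a0 : L)) (max (w (a1 : L)) (w (a2 : L))) := by
      rw [mul_max, mul_max]
    rw [e3, e2, mul_one] at e1
    exact e1
  have hwg0 : w g ≠ 0 := (Valuation.ne_zero_iff w).2 hg
  obtain ⟨⟨u, hu⟩, hlt⟩ := val_factor w p hp hz hwp ha hb hc h
  obtain ⟨⟨u', hu'⟩, hlt'⟩ := val_factor w p hp hz hwp ha' hb' hc' h'
  have hw := congrArg w hprod
  rw [map_mul, map_mul] at hw
  refine ⟨⟨u * u', ?_⟩, fun hP => ?_⟩
  · rw [hu, hu'] at hw
    have e1 : w g * w ((a0 : L) + a1 * z + a2 * z ^ 2) = w g * (u * u') ^ p := by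
      rw [← hw, hwg, mul_pow]
      exact mul_mul_mul_comm _ _ _ _
    exact mul_left_cancel₀ hwg0 e1
  · have l1 := V3_le w p hz a b
    have l2 := V3_le w p hz a' b'
    rcases lt_or_eq_of_le l1 with c1 | c1
    · have e1 := hlt c1
      rw [e1, max_self] at c1
      exact Or.inl ⟨c1, e1⟩
    rcases lt_or_eq_of_le l2 with c2 | c2
    · have e1 := hlt' c2
      rw [e1, max_self] at c2
      exact Or.inr ⟨c2, e1⟩
    exfalso
    rw [c1, c2, ← hwg] at hw
    have : w ((a0 : L) + a1 * z + a2 * z ^ 2) = 1 := (mul_eq_left₀ hwg0).1 hw.symm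
    rw [this] at hP
    exact lt_irrefl _ hP

end Pool.Agent.H22.WQ
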