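import Pool.Agent.H22.WQ.V1

/-!
# WQ V4: the residue characteristic of the primes dividing `a + ζ b`

`t = -a/b`, `w t = 1`, `w(z - t) < 1` (divide `w(a + z b) < w b` by `w b`).  By hypothesis
`w(t^(l²) - t) < 1`.  `z^(l²) - t^(l²)` is divisible by `z - t` (with integral cofactor), so
`w(z^(l²) - z) < 1`, i.e. (`w z = 1`) `w(1 - z^(l²-1)) < 1` (`l ≥ 2`).  By `val_one_sub`
`p ∣ l² - 1`.
-/

open NumberField
open scoped Pointwise

namespace Pool.Agent.H22.WQ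

private theorem V4_pow {L : Type*} [Field L] (w : Valuation L (WithZero (Multiplicative ℤ)))
    {x y : L} (hx : w x ≤ 1) (hy : w y ≤ 1) (h : w (x - y) < 1) (n : ℕ) :
    w (x ^ n - y ^ n) < 1 := by
  rw [← geom_sum₂_mul, map_mul]
  refine lt_of_le_of_lt (mul_le_of_le_one_left' ?_) h
  refine w.map_sum_le fun i _ => ?_
  rw [map_mul, map_pow, map_pow]
  exact mul_le_one' (pow_le_one' hx _) (pow_le_one' hy _)

theorem sq_eq_one_of_val {L : Type*} [Field L] (w : Valuation L (WithZero (Multiplicative ℤ)))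
    (p : ℕ) [Fact p.Prime] (hp : 3 ≤ p) {z : L} (hz : IsPrimitiveRoot z p)
    (hwp : w (p : L) = 1) {a b : L} (hb : b ≠ 0) (hlt : w (a + z * b) < w b) (hab : w a = w b)
    (l : ℕ) (hl : 2 ≤ l) (ht : w ((a / b) ^ (l ^ 2) - a / b) < 1) (hlo : w (l : L) < 1) :
    ((l : ZMod p)) ^ 2 = 1 := by
  have hwb : w b ≠ 0 := (Valuation.ne_zero_iff w).2 hb
  have hwz : w z = 1 := by
    have h1 : w z ^ p = 1 := by rw [← map_pow, hz.pow_eq_one, map_one]
    exact (pow_eq_one_iff.1 h1).resolve_right (Nat.Prime.ne_zero Fact.out)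
  set r : L := a / b with hr
  have hwr : w r = 1 := by rw [hr, map_div₀, hab, div_self hwb]
  have h1 : w (r + z) < 1 := by
    have h2 : a + z * b = (r + z) * b := by
      rw [hr]
      field_simp
    rw [h2, map_mul] at hlt
    by_contra h3
    rw [not_lt] at h3
    exact absurd hlt (not_lt.2 (le_mul_of_one_le_left' h3))
  have h2 : w (z ^ 2 - r ^ 2) < 1 := by
    have e : z ^ 2 - r ^ 2 = (z - r) * (r + z) := by ring
    rw [e, map_mul]
    refine lt_of_le_of_lt (mul_le_of_le_one_left' ?_) h1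
    exact (w.map_sub _ _).trans (max_le hwz.le hwr.le)
  have h3 : w ((z ^ 2) ^ (l ^ 2) - (r ^ 2) ^ (l ^ 2)) < 1 := by
    apply V4_pow w _ _ h2
    · rw [map_pow, hwz, one_pow]
    · rw [map_pow, hwr, one_pow]
  have h4 : w ((r ^ 2) ^ (l ^ 2) - r ^ 2) < 1 := by
    have e : (r ^ 2) ^ (l ^ 2) - r ^ 2 = (r ^ (l ^ 2) + r) * (r ^ (l ^ 2) - r) := by ring
    rw [e, map_mul]
    refine lt_of_le_of_lt (mul_le_of_le_one_left' ?_) ht
    refine (w.map_add _ _).trans (max_le ?_ hwr.le)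
    rw [map_pow, hwr, one_pow]
  have h5 : w ((z ^ 2) ^ (l ^ 2) - z ^ 2) < 1 := by
    have e : (z ^ 2) ^ (l ^ 2) - z ^ 2 = ((z ^ 2) ^ (l ^ 2) - (r ^ 2) ^ (l ^ 2)) +
        (((r ^ 2) ^ (l ^ 2) - r ^ 2) - (z ^ 2 - r ^ 2)) := by ring
    rw [e]
    refine w.map_add_lt h3 (lt_of_le_of_lt (w.map_sub _ _) (max_lt h4 h2))
  have hl1 : 1 ≤ l ^ 2 := Nat.one_le_pow _ _ (by omega)
  have h6 : w (1 - z ^ (2 * (l ^ 2 - 1))) < 1 := by
    have e : (z ^ 2) ^ (l ^ 2) - z ^ 2 = -(z ^ 2 * (1 - z ^ (2 * (l ^ 2 - 1)))) := by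
      rw [pow_mul z 2 (l ^ 2 - 1)]
      have : l ^ 2 = (l ^ 2 - 1) + 1 := by omega
      conv_lhs => rw [this]
      rw [pow_succ]
      ring
    rw [e, Valuation.map_neg, map_mul, map_pow, hwz, one_pow, one_mul] at h5
    exact h5
  have h7 : p ∣ 2 * (l ^ 2 - 1) := by
    by_contra hn
    rw [val_one_sub w p hz hwp _ hn] at h6
    exact lt_irrefl _ h6
  have h8 : p ∣ l ^ 2 - 1 := by
    rcases (Nat.Prime.dvd_mul Fact.out).1 h7 with h9 | h9
    · have := Nat.le_of_dvd (by norm_num) h9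
      omega
    · exact h9
  have h9 : ((l ^ 2 - 1 : ℕ) : ZMod p) = 0 := (ZMod.natCast_eq_zero_iff _ _).2 h8
  rw [Nat.cast_sub hl1, Nat.cast_pow, Nat.cast_one, sub_eq_zero] at h9
  exact h9

end Pool.Agent.H22.WQ
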