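import Mathlib

/-!
# WQ V5a: a common extension of a quadratic field and a cyclotomic field

`K` quadratic (universe `u`), `E` a `p`-th cyclotomic field over `ℚ`.  Take
`L = CyclotomicField p K`, a number field.  `Algebra E L`: `E` is generated by `ζ`, whose minimal
polynomial over `ℚ` is the cyclotomic polynomial (`(zeta_spec p ℚ E).powerBasis ℚ`), and `L` contains
a primitive `p`-th root of unity `z`; `PowerBasis.lift` gives `E →ₐ[ℚ] L`, `.toRingHom.toAlgebra`.
`[L : E] ≤ 2`: `K = ℚ(δ)` (primitive element, `[K:ℚ] = 2`); `L` is generated as a ring over `K` by `z`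
(`IsCyclotomicExtension.adjoin_roots`), so `L = E[δ]` and `δ` satisfies a monic quadratic equation
over `ℚ`, so `1, δ` span `L` over `E`.  (Alternative: take for `L` the quotient of `E ⊗ K` by a
maximal ideal, or the compositum of the images of `E` and `K` in `AlgebraicClosure`..., any `L` in
`Type u` is fine.)
-/

open NumberField
open scoped Pointwise

namespace Pool.Agent.H22.WQ

theorem exists_field.{u} (p : ℕ) [Fact p.Prime] (E : Type*) [Field E] [NumberField E]
    [IsCyclotomicExtension {p} ℚ E] {K : Type u} [Field K] [NumberField K]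
    (hK : Module.finrank ℚ K = 2) :
    ∃ (L : Type u) (_ : Field L) (_ : NumberField L) (_ : Algebra E L) (_ : Algebra K L),
      Module.finrank E L ≤ 2 := by
  classical
  have hp : p.Prime := Fact.out
  have : NeZero p := ⟨hp.ne_zero⟩
  have : NeZero (p : K) := ⟨by exact_mod_cast hp.ne_zero⟩
  let L := CyclotomicField p K
  have hL : NumberField L := IsCyclotomicExtension.numberField {p} K L
  have hz : IsPrimitiveRoot (IsCyclotomicExtension.zeta p K L) p :=
    IsCyclotomicExtension.zeta_spec p K L
  have hζ : IsPrimitiveRoot (IsCyclotomicExtension.zeta p ℚ E) p :=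
    IsCyclotomicExtension.zeta_spec p ℚ E
  have hgen : (hζ.powerBasis ℚ).gen = IsCyclotomicExtension.zeta p ℚ E :=
    hζ.powerBasis_gen ℚ
  have hroot : Polynomial.aeval (IsCyclotomicExtension.zeta p K L)
      (minpoly ℚ (hζ.powerBasis ℚ).gen) = 0 := by
    rw [hgen, ← Polynomial.cyclotomic_eq_minpoly_rat hζ hp.pos, Polynomial.aeval_def,
      Polynomial.eval₂_eq_eval_map, Polynomial.map_cyclotomic]
    exact hz.isRoot_cyclotomic hp.pos
  let φ : E →ₐ[ℚ] L := (hζ.powerBasis ℚ).lift _ hroot
  let _ : Algebra E L := φ.toRingHom.toAlgebra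
  have hE : Module.finrank ℚ E = p.totient :=
    IsCyclotomicExtension.finrank E (Polynomial.cyclotomic.irreducible_rat hp.pos)
  have hLK : Module.finrank K L ≤ p.totient := by
    have hd : (Polynomial.cyclotomic p K).natDegree = p.totient :=
      Polynomial.natDegree_cyclotomic p K
    rw [(hz.powerBasis K).finrank, ← (hz.powerBasis K).natDegree_minpoly, ← hd]
    refine Polynomial.natDegree_le_of_dvd (minpoly.dvd K _ ?_) (Polynomial.cyclotomic_ne_zero p K)
    rw [hz.powerBasis_gen K, Polynomial.aeval_def, Polynomial.eval₂_eq_eval_map,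
      Polynomial.map_cyclotomic]
    exact hz.isRoot_cyclotomic hp.pos
  have h1 : Module.finrank ℚ K * Module.finrank K L = Module.finrank ℚ L :=
    Module.finrank_mul_finrank ℚ K L
  have h2 : Module.finrank ℚ E * Module.finrank E L = Module.finrank ℚ L :=
    Module.finrank_mul_finrank ℚ E L
  refine ⟨L, inferInstance, hL, inferInstance, inferInstance, ?_⟩
  have hpos : 0 < p.totient := Nat.totient_pos.2 hp.pos
  rw [hK] at h1
  rw [hE] at h2
  have h3 : p.totient * Module.finrank E L ≤ p.totient * 2 := by
    rw [h2, ← h1, mul_comm p.totient 2]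
    exact Nat.mul_le_mul_left 2 hLK
  exact Nat.le_of_mul_le_mul_left h3 hpos

end Pool.Agent.H22.WQ
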