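import Mathlib

/-!
# WQ V5b: extension of a prime of a number field

Choose a prime `Q` of `𝓞 L` lying over `v.asIdeal` (`Ideal.exists_ideal_over_maximal_of_isIntegral`,
or a prime factor of `v.asIdeal.map`), `e` the ramification index; `1 ≤ e ≤ [L : F]`
(`Ideal.sum_ramification_inertia`: `∑ e f = [L:F]`).  For `x ∈ 𝓞 F`, `(x) = v^k 𝔞` with `𝔞`
prime to `v`; the exponent of `Q` in `(x) 𝓞 L` is `e k`.  So `w(x) = v(x)^e` for `x ∈ 𝓞 F` (via
`intValuation`, `Associates.count`, or look for a Mathlib lemma on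
`HeightOneSpectrum.valuation` and `ramificationIdx`, e.g. in
`Mathlib/RingTheory/DedekindDomain/AdicValuation` or `Mathlib/NumberTheory/RamificationInertia`),
then for `x = r/s ∈ F`.
-/

open NumberField
open scoped Pointwise

namespace Pool.Agent.H22.WQ

theorem exists_valuation_ext {F L : Type*} [Field F] [NumberField F] [Field L] [NumberField L]
    [Algebra F L] (v : IsDedekindDomain.HeightOneSpectrum (𝓞 F)) :
    ∃ (w : IsDedekindDomain.HeightOneSpectrum (𝓞 L)) (e : ℕ), 1 ≤ e ∧ e ≤ Module.finrank F L ∧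
      ∀ x : F, w.valuation L (algebraMap F L x) = v.valuation F x ^ e := by
  obtain ⟨⟨Q, hQ1, hQ2⟩⟩ := v.asIdeal.nonempty_primesOver (S := 𝓞 L)
  have hQ0 : Q ≠ ⊥ := Ideal.ne_bot_of_liesOver_of_ne_bot v.ne_bot Q
  obtain ⟨w, hw⟩ : ∃ w : IsDedekindDomain.HeightOneSpectrum (𝓞 L), w.asIdeal = Q :=
    ⟨⟨Q, hQ1, hQ0⟩, rfl⟩
  have : w.asIdeal.LiesOver v.asIdeal := by
    rw [hw]
    exact hQ2
  have : v.asIdeal.IsMaximal := v.isMaximal
  refine ⟨w, v.asIdeal.ramificationIdx' w.asIdeal, ?_, ?_, ?_⟩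
  · exact Nat.one_le_iff_ne_zero.2
      (Ideal.IsDedekindDomain.ramificationIdx'_ne_zero_of_liesOver w.asIdeal v.ne_bot)
  · have : NoZeroSMulDivisors (𝓞 F) (𝓞 L) := ⟨fun {c x} h => by
      rw [Algebra.smul_def, mul_eq_zero] at h
      exact h.imp (fun h => (FaithfulSMul.algebraMap_injective (𝓞 F) (𝓞 L))
        (by rw [h, map_zero])) id⟩
    exact Ideal.ramificationIdx_le_finrank (𝓞 L) F L w.asIdeal
  · intro x
    exact (IsDedekindDomain.HeightOneSpectrum.valuation_liesOver L v w x).symm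

end Pool.Agent.H22.WQ
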