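import Mathlib

/-!
# WQ V5c: residues of elements of a quadratic field

`q` = the contraction of `w.asIdeal` to `𝓞 K`, a prime containing `l`.  `𝓞 K ⧸ q` is a field with
`l^f` elements, `f ≤ [K:ℚ] = 2` (inertia degree; `Ideal.sum_ramification_inertia`, or
`card (𝓞 K ⧸ q) ∣ card (𝓞 K ⧸ (l)) = l²` so it is `l` or `l²`), so `y^(l²) - y ∈ q` for all
`y ∈ 𝓞 K`.  Let `x ∈ K`, `w(x) ≤ 1`.  Write `x = r/s` with `r, s ∈ 𝓞 K` and `s ∉ q`: possible because
the `q`-adic valuation of `x` is `≤ 1` (`w` restricted to `K` is a positive power of the `q`-adic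
valuation; or choose `s` as follows: the fractional ideal; lemma
`IsDedekindDomain.HeightOneSpectrum.exists_...`/ `valuation_le_one` and localization at the prime:
`IsLocalization.AtPrime`, valuation subring).  Then
`x^(l²) - x = (r^(l²) s - r s^(l²)) / s^(l²+1)` and `r^(l²) s - r s^(l²) = (r^(l²) - r) s -
r (s^(l²) - s) ∈ q ⊂ w`, `w(s) = 1`.
Another way: the valuation subring of `w` restricted to `K` has residue field a quotient field of
`𝓞 K`, the map `𝓞 K → residue field` is surjective.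
-/

open NumberField
open scoped Pointwise

namespace Pool.Agent.H22.WQ

private theorem V5c_frac {R : Type*} [CommRing R] [IsDedekindDomain R] (q : Ideal R)
    (hq : q.IsPrime) {a b : R} (ha : a ≠ 0) :
    (∃ r s : R, s ∉ q ∧ s * a = r * b) ∨ (∃ r s : R, r ∉ q ∧ s * a = r * b) := by
  set G : Ideal R := Ideal.span {a} ⊔ Ideal.span {b} with hG
  have hG0 : G ≠ 0 := by
    intro h
    have h1 : a ∈ G := by
      rw [hG]
      exact Ideal.mem_sup_left (Ideal.mem_span_singleton_self a)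
    rw [h] at h1
    exact ha ((Submodule.mem_bot _).1 h1)
  obtain ⟨I, hI⟩ : G ∣ Ideal.span {a} := Ideal.dvd_iff_le.2 (hG ▸ le_sup_left)
  obtain ⟨J, hJ⟩ : G ∣ Ideal.span {b} := Ideal.dvd_iff_le.2 (hG ▸ le_sup_right)
  have htop : I ⊔ J = ⊤ := by
    apply mul_left_cancel₀ hG0
    rw [Ideal.mul_sup, ← hI, ← hJ, Ideal.mul_top]
  by_cases hJq : J ≤ q
  · have hIq : ¬ I ≤ q := by
      intro hIq
      apply hq.ne_top
      rw [eq_top_iff, ← htop]
      exact sup_le hIq hJq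
    obtain ⟨r, hr, hrq⟩ := SetLike.not_le_iff_exists.1 hIq
    right
    have h1 : r * b ∈ Ideal.span {a} := by
      rw [hI, mul_comm G I]
      apply Ideal.mul_mem_mul hr
      rw [hG]
      exact Ideal.mem_sup_right (Ideal.mem_span_singleton_self b)
    rw [Ideal.mem_span_singleton'] at h1
    obtain ⟨s, hs⟩ := h1
    exact ⟨r, s, hrq, hs⟩
  · obtain ⟨s, hs, hsq⟩ := SetLike.not_le_iff_exists.1 hJq
    left
    have h1 : s * a ∈ Ideal.span {b} := by
      rw [hJ, mul_comm G J]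
      apply Ideal.mul_mem_mul hs
      rw [hG]
      exact Ideal.mem_sup_left (Ideal.mem_span_singleton_self a)
    rw [Ideal.mem_span_singleton'] at h1
    obtain ⟨r, hr⟩ := h1
    exact ⟨r, s, hsq, hr.symm⟩

private theorem V5c_res {K : Type*} [Field K] [NumberField K] (hK : Module.finrank ℚ K = 2)
    (q : Ideal (𝓞 K)) (hq : q.IsPrime) (l : ℕ) (hl : l.Prime) (hlq : (l : 𝓞 K) ∈ q) (y : 𝓞 K) :
    y ^ (l ^ 2) - y ∈ q := by
  have hq0 : q ≠ ⊥ := by
    rintro rfl
    rw [Submodule.mem_bot] at hlq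
    exact hl.ne_zero (Nat.cast_eq_zero.1 hlq)
  have hmax : q.IsMaximal := hq.isMaximal hq0
  have hdvd : Ideal.absNorm q ∣ l ^ 2 := by
    have h1 : Ideal.absNorm (Ideal.span {(l : 𝓞 K)}) = l ^ 2 := by
      rw [Ideal.absNorm_span_singleton, Algebra.norm_natCast, RingOfIntegers.rank, hK]
      simp
    rw [← h1]
    apply Ideal.absNorm_dvd_absNorm_of_le
    rw [Ideal.span_singleton_le_iff_mem]
    exact hlq
  have hfin : Finite (𝓞 K ⧸ q) := Ideal.finiteQuotientOfFreeOfNeBot q hq0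
  let : Field (𝓞 K ⧸ q) := Ideal.Quotient.field q
  let : Fintype (𝓞 K ⧸ q) := Fintype.ofFinite _
  have hcard : Fintype.card (𝓞 K ⧸ q) ∣ l ^ 2 := by
    rw [← Nat.card_eq_fintype_card]
    exact hdvd
  rw [← Ideal.Quotient.eq, map_pow]
  obtain ⟨k, hk, hkc⟩ := (Nat.dvd_prime_pow hl).1 hcard
  have hpc := FiniteField.pow_card (Ideal.Quotient.mk q y)
  rw [hkc] at hpc
  have hk0 : k ≠ 0 := by
    rintro rfl
    have := Fintype.one_lt_card (α := 𝓞 K ⧸ q)
    rw [hkc] at this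
    simp at this
  have hk12 : k = 1 ∨ k = 2 := by omega
  rcases hk12 with rfl | rfl
  · rw [pow_one] at hpc
    rw [sq, pow_mul, hpc, hpc]
  · exact hpc

theorem residue_pow {K L : Type*} [Field K] [NumberField K] [Field L] [NumberField L]
    [Algebra K L] (hK : Module.finrank ℚ K = 2) (w : IsDedekindDomain.HeightOneSpectrum (𝓞 L))
    (l : ℕ) (hl : l.Prime) (hlw : (l : 𝓞 L) ∈ w.asIdeal) (x : K)
    (hx : w.valuation L (algebraMap K L x) ≤ 1) :
    w.valuation L (algebraMap K L (x ^ (l ^ 2) - x)) < 1 := by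
  set q : Ideal (𝓞 K) := w.asIdeal.comap (algebraMap (𝓞 K) (𝓞 L)) with hqdef
  have hq : q.IsPrime := Ideal.comap_isPrime _ _
  have hlq : (l : 𝓞 K) ∈ q := by
    rw [hqdef, Ideal.mem_comap, map_natCast]
    exact hlw
  set W : Valuation K (WithZero (Multiplicative ℤ)) :=
    (w.valuation L).comap (algebraMap K L) with hW
  have hWi : ∀ y : 𝓞 K, W (algebraMap (𝓞 K) K y) =
      w.intValuation (algebraMap (𝓞 K) (𝓞 L) y) := by
    intro y
    rw [hW, Valuation.comap_apply, ← IsDedekindDomain.HeightOneSpectrum.valuation_of_algebraMap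
      (K := L)]
    rfl
  have hW1 : ∀ y : 𝓞 K, W (algebraMap (𝓞 K) K y) ≤ 1 := fun y => by
    rw [hWi]
    exact w.intValuation_le_one _
  have hWlt : ∀ y : 𝓞 K, y ∈ q → W (algebraMap (𝓞 K) K y) < 1 := fun y hy => by
    rw [hWi, w.intValuation_lt_one_iff_mem]
    exact hy
  have hWeq : ∀ y : 𝓞 K, y ∉ q → W (algebraMap (𝓞 K) K y) = 1 := fun y hy => by
    rw [hWi, IsDedekindDomain.HeightOneSpectrum.intValuation_eq_one_iff]
    exact hy
  have hxW : W x ≤ 1 := hx
  show W (x ^ (l ^ 2) - x) < 1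
  by_cases hx0 : x = 0
  · rw [hx0, zero_pow (pow_ne_zero 2 hl.ne_zero), sub_zero, map_zero]
    exact zero_lt_one
  obtain ⟨a, b, hb0, hab⟩ := IsFractionRing.div_surjective (A := 𝓞 K) x
  have hb : b ≠ 0 := nonZeroDivisors.ne_zero hb0
  have hbK : algebraMap (𝓞 K) K b ≠ 0 := by
    rw [Ne, FaithfulSMul.algebraMap_eq_zero_iff]
    exact hb
  have ha : a ≠ 0 := by
    rintro rfl
    rw [map_zero, zero_div] at hab
    exact hx0 hab.symm
  have key : ∃ r s : 𝓞 K, s ∉ q ∧ algebraMap (𝓞 K) K s * x = algebraMap (𝓞 K) K r := by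
    have h1 : ∀ r s : 𝓞 K, s * a = r * b →
        algebraMap (𝓞 K) K s * x = algebraMap (𝓞 K) K r := by
      intro r s h
      have h2 := congrArg (algebraMap (𝓞 K) K) h
      rw [map_mul, map_mul] at h2
      rw [← hab, ← mul_div_assoc, h2, mul_div_assoc, div_self hbK, mul_one]
    rcases V5c_frac q hq (b := b) ha with ⟨r, s, hs, h⟩ | ⟨r, s, hr, h⟩
    · exact ⟨r, s, hs, h1 r s h⟩
    · refine ⟨r, s, ?_, h1 r s h⟩
      intro hs
      have h2 := congrArg W (h1 r s h)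
      rw [map_mul, hWeq r hr] at h2
      have h3 : W (algebraMap (𝓞 K) K s) * W x < 1 :=
        lt_of_le_of_lt (mul_le_of_le_one_right' hxW) (hWlt s hs)
      rw [h2] at h3
      exact lt_irrefl _ h3
  obtain ⟨r, s, hs, hsx⟩ := key
  have hres := V5c_res hK q hq l hl hlq
  have e1 : (algebraMap (𝓞 K) K s) ^ (l ^ 2 + 1) * (x ^ (l ^ 2) - x) =
      algebraMap (𝓞 K) K ((r ^ (l ^ 2) - r) * s - r * (s ^ (l ^ 2) - s)) := by
    have e2 : (algebraMap (𝓞 K) K s) ^ (l ^ 2) * x ^ (l ^ 2) =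
        (algebraMap (𝓞 K) K r) ^ (l ^ 2) := by rw [← mul_pow, hsx]
    rw [map_sub, map_mul, map_mul, map_sub, map_sub, map_pow, map_pow, ← e2, ← hsx]
    ring
  have h4 : W ((algebraMap (𝓞 K) K s) ^ (l ^ 2 + 1) * (x ^ (l ^ 2) - x)) < 1 := by
    rw [e1]
    apply hWlt
    exact q.sub_mem (Ideal.mul_mem_right _ _ (hres r)) (Ideal.mul_mem_left _ _ (hres s))
  rw [map_mul, map_pow, hWeq s hs, one_pow, one_mul] at h4
  exact h4

end Pool.Agent.H22.WQ
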