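import Pool.Agent.H22.WQ.Base
import Pool.Agent.H22.WQ.V5a
import Pool.Agent.H22.WQ.V5b
import Pool.Agent.H22.WQ.V5c

/-!
# WQ V5: local data (assembly of V5a, V5b, V5c)

`L` from `V5a`, `i = algebraMap E L`, `j = algebraMap K L`; `w0` and `e` from `V5b` for `v` (so
`e ∈ {1, 2}`), `w = w0.valuation L`.  `l`: the prime ideal `v.asIdeal` contains a prime number `l`
(`Ideal.exists_prime_and_absNorm_eq_pow`, or the contraction to `ℤ` is a nonzero prime ideal;
`absNorm_mem`).  `w(l) = v(l)^e < 1`, so `l ∈ w0.asIdeal`.  `w(p) = v(p)^e = 1` since `p ∉ v.asIdeal`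
(`valuation_lt_one_iff_mem`/`valuation_eq_one`).  Last clause: `V5c` (`map_sub, map_pow`).
-/

open NumberField
open scoped Pointwise

namespace Pool.Agent.H22.WQ

variable (p : ℕ) [Fact p.Prime] (E : Type*) [Field E] [NumberField E]
  [IsCyclotomicExtension {p} ℚ E]

private theorem V5_prime {E : Type*} [Field E] [NumberField E]
    (v : IsDedekindDomain.HeightOneSpectrum (𝓞 E)) :
    ∃ l : ℕ, l.Prime ∧ (l : 𝓞 E) ∈ v.asIdeal := by
  have hfin : Finite (𝓞 E ⧸ v.asIdeal) := Ideal.finiteQuotientOfFreeOfNeBot v.asIdeal v.ne_bot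
  have hnt : Nontrivial (𝓞 E ⧸ v.asIdeal) := Ideal.Quotient.nontrivial_iff.2 v.isPrime.ne_top
  have hdom : IsDomain (𝓞 E ⧸ v.asIdeal) := (Ideal.Quotient.isDomain_iff_prime _).2 v.isPrime
  refine ⟨ringChar (𝓞 E ⧸ v.asIdeal), CharP.char_is_prime (𝓞 E ⧸ v.asIdeal) _, ?_⟩
  rw [← Ideal.Quotient.eq_zero_iff_mem, map_natCast]
  exact CharP.cast_eq_zero _ _

private theorem V5_cast {E : Type*} [Field E] [NumberField E] (n : ℕ) :
    (algebraMap (𝓞 E) E) (n : 𝓞 E) = (n : E) := map_natCast (algebraMap (𝓞 E) E) n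

theorem exists_local_data.{u} {K : Type u} [Field K] [NumberField K]
    (hK : Module.finrank ℚ K = 2) (v : IsDedekindDomain.HeightOneSpectrum (𝓞 E))
    (hv : (p : 𝓞 E) ∉ v.asIdeal) :
    ∃ (L : Type u) (_ : Field L) (i : E →+* L) (j : K →+* L)
      (w : Valuation L (WithZero (Multiplicative ℤ))) (e l : ℕ),
      (e = 1 ∨ e = 2) ∧ l.Prime ∧ (l : 𝓞 E) ∈ v.asIdeal ∧ w (p : L) = 1 ∧ w (l : L) < 1 ∧
      (∀ x : E, w (i x) = v.valuation E x ^ e) ∧
      (∀ x : K, w (j x) ≤ 1 → w (j x ^ (l ^ 2) - j x) < 1) := by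
  obtain ⟨L, hL, hLn, hEL, hKL, hrank⟩ := exists_field p E hK
  obtain ⟨w0, e, he1, he2, hval⟩ := exists_valuation_ext (L := L) v
  obtain ⟨l, hl, hlv⟩ := V5_prime v
  have hvl : v.valuation E (l : E) < 1 := by
    have h1 : v.valuation E (algebraMap (𝓞 E) E (l : 𝓞 E)) < 1 :=
      (v.valuation_lt_one_iff_mem (K := E) (l : 𝓞 E)).2 hlv
    rwa [V5_cast] at h1
  have hvp : v.valuation E (p : E) = 1 := by
    have h1 : v.valuation E (algebraMap (𝓞 E) E (p : 𝓞 E)) ≤ 1 :=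
      v.valuation_le_one (K := E) (p : 𝓞 E)
    have h2 : ¬ v.valuation E (algebraMap (𝓞 E) E (p : 𝓞 E)) < 1 :=
      mt (v.valuation_lt_one_iff_mem (K := E) (p : 𝓞 E)).1 hv
    rw [V5_cast] at h1 h2
    exact le_antisymm h1 (not_lt.1 h2)
  have hwl : w0.valuation L (l : L) < 1 := by
    have h1 := hval (l : E)
    rw [map_natCast] at h1
    rw [h1]
    exact pow_lt_one₀ zero_le hvl (by omega)
  have hwp : w0.valuation L (p : L) = 1 := by
    have h1 := hval (p : E)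
    rw [map_natCast] at h1
    rw [h1, hvp, one_pow]
  have hlw : (l : 𝓞 L) ∈ w0.asIdeal := by
    refine (w0.valuation_lt_one_iff_mem (K := L) (l : 𝓞 L)).1 ?_
    show w0.valuation L (algebraMap (𝓞 L) L (l : 𝓞 L)) < 1
    rw [V5_cast]
    exact hwl
  refine ⟨L, hL, algebraMap E L, algebraMap K L, w0.valuation L, e, l, by omega, hl, hlv, hwp,
    hwl, hval, ?_⟩
  intro x hx
  have h1 := residue_pow hK w0 l hl hlw x hx
  rwa [map_sub, map_pow] at h1

end Pool.Agent.H22.WQ
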