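import Pool.Agent.H22.WQ.Base
import Pool.Agent.H22.WQ.V3
import Pool.Agent.H22.WQ.V4
import Pool.Agent.H22.WQ.V5

/-!
# WQ V6: `GoodOff` for the norm form of a solution over a quadratic field

For `v` with `p ∉ v` take the local data `L, i, j, w, e, l`.  `z = i ζ` is a primitive `p`-th root of
unity of `L`.  Apply `val_quad` to the images under `j` of `a, b, c, σ a, σ b, σ c` and
`g = (g : L)` (`j` and `i` agree with the casts on rationals: `map_ratCast`, `map_intCast`;
`(σ a)^p + (σ b)^p + (σ c)^p = σ 0 = 0`).  With `x = a0 + a1 ζ + a2 ζ² ∈ 𝓞 E`: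
`w(i x) = v(x)^e = u^p`.
* `e = 1`: done.  `e = 2`: `v(x)^2 = u^p`, `p` odd; in `WithZero (Multiplicative ℤ)` (values
  `exp(n)` or `0`) `2 n = p m` gives `p ∣ n`.
* If `x ∈ v.asIdeal` then `v(x) < 1`, `w(i x) < 1`, so by `val_quad` and `V4` (for `(a,b)` or
  `(σ a, σ b)`; the hypothesis `ht` is the last clause of the local data, applied to `a / b ∈ K` with
  `w(j (a/b)) = 1`) `(l : ZMod p)^2 = 1`, and `l ∈ v`.
* `x ≠ 0`: pick any `v` with `p ∉ v`?  Easier: if `x = 0` then, in `CyclotomicField p K` (or in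
  `ℂ`: choose an embedding `K → ℂ`), `(a + z b)(σ a + z σ b) = 0`, so `a + z b = 0` (or the
  conjugate), `a^p = -b^p`, `c = 0`, contradiction.  (The map `E → ℂ` with `ζ ↦ z`.)
-/

open NumberField
open scoped Pointwise

namespace Pool.Agent.H22.WQ

variable (p : ℕ) [Fact p.Prime] (E : Type*) [Field E] [NumberField E]
  [IsCyclotomicExtension {p} ℚ E]

private lemma V6_ne (p : ℕ) (hp : Odd p) {L : Type*} [Field L] {z a b c : L} (hz : z ^ p = 1)
    (hc : c ≠ 0) (h : a ^ p + b ^ p + c ^ p = 0) : a + z * b ≠ 0 := by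
  intro h0
  have h1 : a = -(z * b) := eq_neg_of_add_eq_zero_left h0
  rw [h1, hp.neg_pow, mul_pow, hz, one_mul, neg_add_cancel, zero_add] at h
  exact hc (eq_zero_of_pow_eq_zero h)

private lemma V6_root (p : ℕ) (hp : Odd p) (v u : WithZero (Multiplicative ℤ))
    (h : v ^ 2 = u ^ p) : ∃ t : WithZero (Multiplicative ℤ), v = t ^ p := by
  have hp0 : p ≠ 0 := by
    rintro rfl
    exact absurd hp (by decide)
  obtain ⟨k, hk⟩ := hp
  by_cases hu : u = 0
  · rw [hu, zero_pow hp0] at h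
    refine ⟨0, ?_⟩
    rw [zero_pow hp0]
    exact eq_zero_of_pow_eq_zero h
  · refine ⟨v / u ^ k, ?_⟩
    have h1 : v ^ p = (u ^ k) ^ p * v := by
      have h2 : v ^ p = (v ^ 2) ^ k * v := by
        rw [hk, pow_succ, pow_mul]
      rw [h2, h, ← pow_mul, ← pow_mul, mul_comm p k]
    rw [div_pow, h1, mul_div_cancel_left₀]
    exact pow_ne_zero _ (pow_ne_zero _ hu)

theorem goodOff_of_fermat.{u} (hp : 5 ≤ p) {K : Type u} [Field K] [NumberField K]
    (hK : Module.finrank ℚ K = 2) (σ : K ≃ₐ[ℚ] K) {a b c : K} (ha : a ≠ 0) (hb : b ≠ 0)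
    (hc : c ≠ 0) (h : a ^ p + b ^ p + c ^ p = 0) (g : ℚ) (hg : g ≠ 0) (a0 a1 a2 : ℤ)
    (h0 : a * σ a = (g : K) * a0) (h1 : a * σ b + b * σ a = (g : K) * a1)
    (h2 : b * σ b = (g : K) * a2)
    (hprim : ∀ l : ℕ, l.Prime → ¬ ((l : ℤ) ∣ a0 ∧ (l : ℤ) ∣ a1 ∧ (l : ℤ) ∣ a2)) :
    GoodOff p E ((a0 : 𝓞 E) + a1 * zt p E + a2 * zt p E ^ 2) := by
  have hpp : p.Prime := Fact.out
  have hp3 : 3 ≤ p := le_trans (by norm_num) hp
  have hodd : Odd p := hpp.odd_of_ne_two (by omega)
  set x : 𝓞 E := (a0 : 𝓞 E) + a1 * zt p E + a2 * zt p E ^ 2 with hx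
  have hzE : IsPrimitiveRoot (algebraMap (𝓞 E) E (zt p E)) p :=
    (zt_prim p E).map_of_injective RingOfIntegers.coe_injective
  have hxE : (x : E) = (a0 : E) + a1 * algebraMap (𝓞 E) E (zt p E) +
      a2 * algebraMap (𝓞 E) E (zt p E) ^ 2 := by
    change algebraMap (𝓞 E) E x = _
    rw [hx, map_add, map_add, map_mul, map_mul, map_pow, map_intCast, map_intCast, map_intCast]
  have hσ : (σ a) ^ p + (σ b) ^ p + (σ c) ^ p = 0 := by
    rw [← map_pow, ← map_pow, ← map_pow, ← map_add, ← map_add, h, map_zero]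
  have hσa : σ a ≠ 0 := fun h' => ha ((map_eq_zero σ).1 h')
  have hσb : σ b ≠ 0 := fun h' => hb ((map_eq_zero σ).1 h')
  have hσc : σ c ≠ 0 := fun h' => hc ((map_eq_zero σ).1 h')
  have key : ∀ (L : Type u) [Field L] (i : E →+* L) (j : K →+* L),
      i (x : E) = (a0 : L) + a1 * i (algebraMap (𝓞 E) E (zt p E)) +
        a2 * i (algebraMap (𝓞 E) E (zt p E)) ^ 2 ∧
      IsPrimitiveRoot (i (algebraMap (𝓞 E) E (zt p E))) p ∧
      j a ^ p + j b ^ p + j c ^ p = 0 ∧ j (σ a) ^ p + j (σ b) ^ p + j (σ c) ^ p = 0 ∧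
      j a * j (σ a) = j g * a0 ∧ j a * j (σ b) + j b * j (σ a) = j g * a1 ∧
      j b * j (σ b) = j g * a2 := by
    intro L _ i j
    refine ⟨?_, hzE.map_of_injective i.injective, ?_, ?_, ?_, ?_, ?_⟩
    · rw [hxE, map_add, map_add, map_mul, map_mul, map_pow, map_intCast, map_intCast, map_intCast]
    · rw [← map_pow, ← map_pow, ← map_pow, ← map_add, ← map_add, h, map_zero]
    · have h5 := congrArg j hσ
      rwa [map_add, map_add, map_pow, map_pow, map_pow, map_zero] at h5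
    · rw [← map_mul, h0, map_mul, map_intCast]
    · rw [← map_mul, ← map_mul, ← map_add, h1, map_mul, map_intCast]
    · rw [← map_mul, h2, map_mul, map_intCast]
  have hgK : (g : K) ≠ 0 := by exact_mod_cast hg
  refine ⟨?_, ?_⟩
  · intro hx0
    obtain ⟨L, _, _, _, _, -⟩ := exists_field p E (K := K) hK
    obtain ⟨k1, k2, k3, k4, k5, k6, k7⟩ := key L (algebraMap E L) (algebraMap K L)
    rw [hx0] at k1
    rw [show ((0 : 𝓞 E) : E) = 0 from map_zero (algebraMap (𝓞 E) E), map_zero] at k1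
    set z := algebraMap E L (algebraMap (𝓞 E) E (zt p E)) with hz
    have hc' : algebraMap K L c ≠ 0 := (map_ne_zero _).2 hc
    have hσc' : algebraMap K L (σ c) ≠ 0 := (map_ne_zero _).2 hσc
    have e1 := V6_ne p hodd k2.pow_eq_one hc' k3
    have e2 := V6_ne p hodd k2.pow_eq_one hσc' k4
    have e3 : (algebraMap K L a + z * algebraMap K L b) *
        (algebraMap K L (σ a) + z * algebraMap K L (σ b)) = 0 := by
      have : (algebraMap K L a + z * algebraMap K L b) *
        (algebraMap K L (σ a) + z * algebraMap K L (σ b)) =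
        algebraMap K L a * algebraMap K L (σ a) +
          z * (algebraMap K L a * algebraMap K L (σ b) + algebraMap K L b * algebraMap K L (σ a)) +
          z ^ 2 * (algebraMap K L b * algebraMap K L (σ b)) := by ring
      rw [this, k5, k6, k7]
      have : algebraMap K L g * (a0 : L) + z * (algebraMap K L g * (a1 : L)) +
          z ^ 2 * (algebraMap K L g * (a2 : L)) =
          algebraMap K L g * ((a0 : L) + a1 * z + a2 * z ^ 2) := by ring
      rw [this, ← k1, mul_zero]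
    exact (mul_ne_zero e1 e2) e3
  · intro v hv
    obtain ⟨L, _, i, j, w, e, l, he, hl, hlv, hwp, hwl, hwi, hwj⟩ :=
      exists_local_data p E (K := K) hK v hv
    obtain ⟨k1, k2, k3, k4, k5, k6, k7⟩ := key L i j
    obtain ⟨⟨u, hu⟩, hcase⟩ := val_quad w p hp3 k2 hwp ((map_ne_zero j).2 ha)
      ((map_ne_zero j).2 hb) ((map_ne_zero j).2 hc) k3 ((map_ne_zero j).2 hσa)
      ((map_ne_zero j).2 hσb) ((map_ne_zero j).2 hσc) k4 ((map_ne_zero j).2 hgK) a0 a1 a2 k5 k6
      k7 hprim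
    rw [← k1, hwi] at hu hcase
    refine ⟨?_, ?_⟩
    · rcases he with rfl | rfl
      · rw [pow_one] at hu
        exact ⟨u, hu⟩
      · exact V6_root p hodd _ u hu
    · intro hxv
      have hv1 : v.valuation E (x : E) < 1 := (v.valuation_lt_one_iff_mem x).2 hxv
      have hv2 : v.valuation E (x : E) ^ e < 1 := by
        refine pow_lt_one₀ zero_le hv1 ?_
        rcases he with rfl | rfl <;> norm_num
      refine ⟨l, hl, hlv, ?_⟩
      have fin : ∀ s t : K, t ≠ 0 → w (j s + i (algebraMap (𝓞 E) E (zt p E)) * j t) < w (j t) →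
          w (j s) = w (j t) → ((l : ZMod p)) ^ 2 = 1 := by
        intro s t ht hlt hst
        refine sq_eq_one_of_val w p hp3 k2 hwp ((map_ne_zero j).2 ht) hlt hst l hl.two_le ?_ hwl
        have h3 := hwj (s / t)
        rw [map_div₀, map_div₀, hst, div_self] at h3
        · exact h3 le_rfl
        · exact (map_ne_zero w).2 ((map_ne_zero j).2 ht)
      rcases hcase hv2 with ⟨h3, h4⟩ | ⟨h3, h4⟩
      · exact fin a b hb h3 h4
      · exact fin (σ a) (σ b) hσb h3 h4

end Pool.Agent.H22.WQ
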