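import Pool.Agent.H22.WQ.KBase

/-!
# WQ W0: conjugation of `ℚ(√d)`

`d` is not a square in `ℚ` (squarefree, `≠ 1`; `d = 0` is not squarefree), so `δ ∉ ℚ`, `1, δ` is a basis
of `K` over `ℚ` (`finrank = 2`), and `r + s δ ↦ r - s δ` is an automorphism (`K` is Galois over `ℚ`, or
use the power basis of `δ`, `minpoly = X² - d`).  Fixed elements: `s = 0`.
-/

open NumberField IsDedekindDomain

namespace Pool.Agent.H22.WQ

private theorem W0_irr {K : Type*} [Field K] [NumberField K] (d : ℤ)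
    (hd : Squarefree d) (hd1 : d ≠ 1) (δ : K) (hδ : δ ^ 2 = (d : K)) (r : ℚ) : δ ≠ (r : K) := by
  intro h
  have h1 : ((r ^ 2 : ℚ) : K) = ((d : ℚ) : K) := by
    push_cast
    rw [← h, hδ]
  have h2 : r ^ 2 = (d : ℚ) := Rat.cast_injective h1
  have h3 : IsSquare (d : ℚ) := ⟨r, by rw [← h2, pow_two]⟩
  rw [Rat.isSquare_intCast_iff] at h3
  obtain ⟨m, hm⟩ := h3
  have h4 : IsUnit m := hd m ⟨1, by rw [mul_one]; exact hm⟩
  apply hd1
  rw [hm]
  rcases Int.isUnit_iff.1 h4 with h5 | h5 <;> rw [h5] <;> norm_num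

private theorem W0_li {K : Type*} [Field K] [NumberField K] (δ : K)
    (hδ : ∀ r : ℚ, δ ≠ (r : K)) : LinearIndependent ℚ ![(1 : K), δ] := by
  rw [LinearIndependent.pair_iff]
  intro s t hst
  rw [Algebra.smul_def, Algebra.smul_def, mul_one, eq_ratCast, eq_ratCast] at hst
  have ht : t = 0 := by
    by_contra ht
    refine hδ (-s / t) ?_
    have ht' : (t : K) ≠ 0 := by exact_mod_cast ht
    push_cast
    field_simp
    linear_combination hst
  rw [ht] at hst
  simp only [Rat.cast_zero, zero_mul, add_zero] at hst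
  exact ⟨by exact_mod_cast hst, ht⟩

theorem exists_cj {K : Type*} [Field K] [NumberField K] (hK : Module.finrank ℚ K = 2) (d : ℤ)
    (hd : Squarefree d) (hd1 : d ≠ 1) (δ : K) (hδ : δ ^ 2 = (d : K)) :
    ∃ σ : K ≃ₐ[ℚ] K, IsCj K σ ∧ σ δ = -δ ∧ ∀ x : K, ∃ r s : ℚ, x = (r : K) + (s : K) * δ := by
  have hirr := W0_irr d hd hd1 δ hδ
  have hli := W0_li δ hirr
  have hcard : Fintype.card (Fin 2) = Module.finrank ℚ K := by rw [hK, Fintype.card_fin]
  let B : Module.Basis (Fin 2) ℚ K := basisOfLinearIndependentOfCardEqFinrank hli hcard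
  have hB : ∀ i, B i = ![(1 : K), δ] i := fun i => by
    rw [coe_basisOfLinearIndependentOfCardEqFinrank]
  have hrep : ∀ x : K, ∃ r s : ℚ, x = (r : K) + (s : K) * δ := by
    intro x
    refine ⟨B.repr x 0, B.repr x 1, ?_⟩
    have h1 := B.sum_repr x
    rw [Fin.sum_univ_two, hB 0, hB 1] at h1
    simp only [Matrix.cons_val_zero, Matrix.cons_val_one, Algebra.smul_def, mul_one,
      eq_ratCast] at h1
    exact h1.symm
  let L : K →ₗ[ℚ] K := B.constr ℚ ![(1 : K), -δ]
  have hL0 : L 1 = 1 := by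
    have h1 := B.constr_basis ℚ ![(1 : K), -δ] 0
    rw [hB 0] at h1
    exact h1
  have hL1 : L δ = -δ := by
    have h1 := B.constr_basis ℚ ![(1 : K), -δ] 1
    rw [hB 1] at h1
    exact h1
  have hL : ∀ r s : ℚ, L ((r : K) + (s : K) * δ) = (r : K) - (s : K) * δ := by
    intro r s
    have h1 : (r : K) + (s : K) * δ = r • (1 : K) + s • δ := by
      rw [Algebra.smul_def, Algebra.smul_def, mul_one, eq_ratCast, eq_ratCast]
    rw [h1, map_add, map_smul, map_smul, hL0, hL1, Algebra.smul_def, Algebra.smul_def, mul_one,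
      eq_ratCast, eq_ratCast]
    ring
  have hmul : ∀ x y : K, L (x * y) = L x * L y := by
    intro x y
    obtain ⟨r, s, hx⟩ := hrep x
    obtain ⟨r', s', hy⟩ := hrep y
    have h1 : x * y = ((r * r' + s * s' * d : ℚ) : K) + ((r * s' + r' * s : ℚ) : K) * δ := by
      rw [hx, hy]
      push_cast
      linear_combination (s : K) * s' * hδ
    rw [h1, hL, hx, hy, hL, hL]
    push_cast
    linear_combination -((s : K) * s' * hδ)
  have hinv : ∀ x : K, L (L x) = x := by
    intro x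
    obtain ⟨r, s, hx⟩ := hrep x
    rw [hx, hL]
    have h1 : (r : K) - (s : K) * δ = (r : K) + ((-s : ℚ) : K) * δ := by
      push_cast
      ring
    rw [h1, hL]
    push_cast
    ring
  let f : K →ₐ[ℚ] K := AlgHom.ofLinearMap L hL0 hmul
  have hff : f.comp f = AlgHom.id ℚ K := AlgHom.ext fun x => hinv x
  refine ⟨AlgEquiv.ofAlgHom f f hff hff, ⟨fun x => hinv x, fun x hx => ?_⟩, hL1, hrep⟩
  obtain ⟨r, s, hxr⟩ := hrep x
  have h1 : L x = x := hx
  rw [hxr, hL] at h1
  have h2 : (s : K) * δ = 0 := by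
    have h3 : (2 : K) * ((s : K) * δ) = 0 := by linear_combination -h1
    rcases mul_eq_zero.1 h3 with h4 | h4
    · exact absurd h4 two_ne_zero
    · exact h4
  exact ⟨r, by rw [hxr, h2, add_zero]⟩

end Pool.Agent.H22.WQ
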