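import Pool.Agent.H22.WQ.KBase
import Pool.Agent.H22.WQ.V2

/-!
# WQ W1: the coefficients `A, B, C, X, Y, Z`

1. `mx_eq`: the two largest values among `v a, v b, v c` are equal: if `v a > v b, v c` strictly then
   `v(a^p) > v(b^p + c^p)`, contradiction to `a^p = -(b^p + c^p)`.  So
   `mx v a b c = max (v a) (v b) = max (v b) (v c) = max (v c) (v a)`.
2. The six elements `n1 = a σa, n2 = b σb, n3 = c σc, n4 = b σc + c σb, n5 = c σa + a σc,
   n6 = a σb + b σa` are fixed by `σ`, so they are rational numbers (`IsCj.fix`).  Let `g > 0` be the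
   generator of the subgroup of `ℚ` which they generate (not all zero: `n1 ≠ 0`): choose a common
   denominator `D`, `n_i = m_i / D`, `g = gcd(m_i) / D`.  Then `n_i = g * (integer)`, and the six
   integers `A..Z` have gcd 1.
3. `hv`: for a prime `v` of `K` above `l`: integers `n` have `v(n) ≤ 1`, and the six integers have
   gcd 1, so (Bezout, as in `val_int_prim`) the maximum of their `v`-values is `1`; so
   `v(g) = max_i v(n_i)`.  By `val_content` for the pair `(a, b)`:
   `max(v n1, v n6, v n2) = max(v a, v b) max(v σa, v σb) = mx * mx'`, the same for the other two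
   pairs, so `v(g) = mx * mx'` (`mx' = mx v (σ a) (σ b) (σ c)`, using `mx_eq` for both triples;
   `(σ a)^p + (σ b)^p + (σ c)^p = 0`).
4. `pab`: if a prime `l` divides `A, Z, B`, take a prime `v` of `K` above `l` (exists); then
   `max(v n1, v n6, v n2) ≤ v(g) v(l) < v(g)` (`v(g) ≠ 0`), but it is `mx * mx' = v(g)` by 3.
   Same for the other pairs.
-/

open NumberField IsDedekindDomain

namespace Pool.Agent.H22.WQ

theorem W1_le {K : Type*} [Field K] [NumberField K] (p : ℕ) (hp : 0 < p) {x y z : K}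
    (h : x ^ p + y ^ p + z ^ p = 0) (v : HeightOneSpectrum (𝓞 K)) :
    v.valuation K z ≤ max (v.valuation K x) (v.valuation K y) := by
  have h1 : z ^ p = -(x ^ p + y ^ p) := by linear_combination h
  have h2 : v.valuation K z ^ p ≤ max (v.valuation K x) (v.valuation K y) ^ p := by
    rw [← map_pow, h1, Valuation.map_neg]
    refine ((v.valuation K).map_add _ _).trans ?_
    rw [map_pow, map_pow]
    exact max_le (pow_le_pow_left₀ zero_le (le_max_left _ _) p)
      (pow_le_pow_left₀ zero_le (le_max_right _ _) p)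
  exact (pow_le_pow_iff_left₀ zero_le zero_le hp.ne').1 h2

theorem mx_eq {K : Type*} [Field K] [NumberField K] (p : ℕ) (hp : 0 < p) {a b c : K}
    (h : a ^ p + b ^ p + c ^ p = 0) (v : HeightOneSpectrum (𝓞 K)) :
    mx v a b c = max (v.valuation K a) (v.valuation K b) ∧
    mx v a b c = max (v.valuation K b) (v.valuation K c) ∧
    mx v a b c = max (v.valuation K c) (v.valuation K a) := by
  have hc := W1_le p hp h v
  have ha : v.valuation K a ≤ max (v.valuation K b) (v.valuation K c) :=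
    W1_le p hp (x := b) (y := c) (z := a) (by linear_combination h) v
  have hb : v.valuation K b ≤ max (v.valuation K c) (v.valuation K a) :=
    W1_le p hp (x := c) (y := a) (z := b) (by linear_combination h) v
  unfold mx
  refine ⟨?_, ?_, ?_⟩
  · apply le_antisymm
    · exact max_le (le_max_left _ _) (max_le (le_max_right _ _) hc)
    · exact max_le_max le_rfl (le_max_left _ _)
  · apply le_antisymm
    · exact max_le ha le_rfl
    · exact le_max_right _ _
  · apply le_antisymm
    · exact max_le (le_max_right _ _) (max_le hb (le_max_left _ _))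
    · exact max_le ((le_max_right _ _).trans (le_max_right _ _)) (le_max_left _ _)

theorem W1_nat {L : Type*} [Field L] (w : Valuation L (WithZero (Multiplicative ℤ))) (n : ℕ) :
    w (n : L) ≤ 1 := by
  induction n with
  | zero =>
    rw [Nat.cast_zero, map_zero]
    exact zero_le
  | succ n ih =>
    rw [Nat.cast_succ]
    exact (w.map_add _ _).trans (max_le ih (map_one w).le)

theorem W1_int {L : Type*} [Field L] (w : Valuation L (WithZero (Multiplicative ℤ))) (n : ℤ) :
    w (n : L) ≤ 1 := by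
  rcases Int.eq_nat_or_neg n with ⟨m, rfl | rfl⟩
  · rw [Int.cast_natCast]
    exact W1_nat w m
  · rw [Int.cast_neg, Valuation.map_neg, Int.cast_natCast]
    exact W1_nat w m

theorem W1_gcd (r : Fin 6 → ℚ) (h0 : r 0 ≠ 0) :
    ∃ (g : ℚ) (A : Fin 6 → ℤ), 0 < g ∧ (∀ i, r i = g * A i) ∧ Finset.univ.gcd A = 1 := by
  obtain ⟨D, hD⟩ : ∃ D : ℕ, D = ∏ j, (r j).den := ⟨_, rfl⟩
  have hD0 : 0 < D := by
    rw [hD]
    exact Finset.prod_pos fun j _ => (r j).den_pos
  have hm : ∀ i, ∃ m : ℤ, r i * (D : ℚ) = m := by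
    intro i
    obtain ⟨k, hk⟩ : (r i).den ∣ ∏ j, (r j).den :=
      Finset.dvd_prod_of_mem (fun j => (r j).den) (Finset.mem_univ i)
    refine ⟨(r i).num * k, ?_⟩
    rw [hD, hk]
    push_cast
    rw [← mul_assoc, Rat.mul_den_eq_num]
  choose m hm using hm
  obtain ⟨A, hA, hgcd⟩ := Finset.extract_gcd m (Finset.univ_nonempty (α := Fin 6))
  obtain ⟨G, hG⟩ : ∃ G : ℤ, G = Finset.univ.gcd m := ⟨_, rfl⟩
  rw [← hG] at hA
  have hG0 : 0 ≤ G := by
    have h1 : normalize G = G := by
      rw [hG]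
      exact Finset.normalize_gcd
    rw [← Int.abs_eq_normalize] at h1
    rw [← h1]
    exact abs_nonneg _
  have hGne : G ≠ 0 := by
    intro h1
    have h2 := hA 0 (Finset.mem_univ 0)
    rw [h1, zero_mul] at h2
    have h3 := hm 0
    rw [h2, Int.cast_zero] at h3
    rcases mul_eq_zero.1 h3 with h4 | h4
    · exact h0 h4
    · have : (D : ℚ) ≠ 0 := by exact_mod_cast hD0.ne'
      exact this h4
  have hDq : (0 : ℚ) < D := by exact_mod_cast hD0
  have hGq : (0 : ℚ) < G := by
    have : 0 < G := lt_of_le_of_ne hG0 (Ne.symm hGne)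
    exact_mod_cast this
  refine ⟨(G : ℚ) / D, A, by positivity, ?_, hgcd⟩
  intro i
  have h1 := hm i
  rw [hA i (Finset.mem_univ i)] at h1
  push_cast at h1
  field_simp
  exact h1

theorem W1_one {K : Type*} [Field K] [NumberField K] (v : HeightOneSpectrum (𝓞 K))
    (A : Fin 6 → ℤ) (hA : Finset.univ.gcd A = 1) : ∃ i, v.valuation K (A i : K) = 1 := by
  by_contra hne
  push Not at hne
  have hlt : ∀ i, v.valuation K (A i : K) < 1 := fun i =>
    lt_of_le_of_ne (W1_int _ _) (hne i)
  have hmem : ∀ i, A i ∈ v.asIdeal.comap (algebraMap ℤ (𝓞 K)) := by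
    intro i
    rw [Ideal.mem_comap, ← v.valuation_lt_one_iff_mem (K := K)]
    have h1 : (algebraMap (𝓞 K) K) ((algebraMap ℤ (𝓞 K)) (A i)) = (A i : K) := by simp
    have h2 : v.valuation K ((algebraMap (𝓞 K) K) ((algebraMap ℤ (𝓞 K)) (A i))) < 1 := by
      rw [h1]
      exact hlt i
    exact h2
  obtain ⟨d, hd⟩ := (IsPrincipalIdealRing.principal (v.asIdeal.comap (algebraMap ℤ (𝓞 K)))).principal
  have hdvd : ∀ i, d ∣ A i := by
    intro i
    have h1 := hmem i
    rw [hd] at h1
    exact Ideal.mem_span_singleton.1 h1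
  have hd1 : d ∣ 1 := by
    rw [← hA]
    exact Finset.dvd_gcd fun i _ => hdvd i
  have h1 : (1 : ℤ) ∈ v.asIdeal.comap (algebraMap ℤ (𝓞 K)) := by
    rw [hd]
    exact Ideal.mem_span_singleton.2 hd1
  rw [Ideal.mem_comap, map_one] at h1
  exact v.isPrime.ne_top ((Ideal.eq_top_iff_one _).2 h1)

theorem W1_above {K : Type*} [Field K] [NumberField K] (l : ℕ) (hl : l.Prime) :
    ∃ v : HeightOneSpectrum (𝓞 K), v.valuation K (l : K) < 1 := by
  have hlz : Prime (l : ℤ) := Nat.prime_iff_prime_int.1 hl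
  have hP : (Ideal.span {(l : ℤ)}).IsPrime := by
    rw [Ideal.span_singleton_prime hlz.ne_zero]
    exact hlz
  obtain ⟨⟨Q, hQ1, hQ2⟩⟩ := (Ideal.span {(l : ℤ)}).nonempty_primesOver (S := 𝓞 K)
  have hne : (Ideal.span {(l : ℤ)}) ≠ ⊥ := by
    rw [Ne, Ideal.span_singleton_eq_bot]
    exact hlz.ne_zero
  have hQ0 : Q ≠ ⊥ := Ideal.ne_bot_of_liesOver_of_ne_bot hne Q
  have hmem : (l : 𝓞 K) ∈ Q := by
    have h1 : (l : ℤ) ∈ Q.under ℤ := by
      rw [← hQ2.over]
      exact Ideal.mem_span_singleton_self _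
    rw [Ideal.mem_comap] at h1
    simpa using h1
  refine ⟨⟨Q, hQ1, hQ0⟩, ?_⟩
  have h2 : HeightOneSpectrum.valuation K (⟨Q, hQ1, hQ0⟩ : HeightOneSpectrum (𝓞 K))
      ((algebraMap (𝓞 K) K) (l : 𝓞 K)) < 1 := (HeightOneSpectrum.valuation_lt_one_iff_mem (K := K)
        (⟨Q, hQ1, hQ0⟩ : HeightOneSpectrum (𝓞 K)) (l : 𝓞 K)).2 hmem
  have h3 : (algebraMap (𝓞 K) K) (l : 𝓞 K) = (l : K) := by simp
  rw [h3] at h2
  exact h2

theorem exists_coef {K : Type*} [Field K] [NumberField K] (σ : K ≃ₐ[ℚ] K) (hσ : IsCj K σ) (p : ℕ)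
    (hp : 0 < p) {a b c : K} (ha : a ≠ 0) (hb : b ≠ 0) (hc : c ≠ 0)
    (h : a ^ p + b ^ p + c ^ p = 0) :
    ∃ (g : ℚ) (A B C X Y Z : ℤ), Coef K σ a b c g A B C X Y Z := by
  have hp' := hp
  have hσp : (σ a) ^ p + (σ b) ^ p + (σ c) ^ p = 0 := by
    rw [← map_pow, ← map_pow, ← map_pow, ← map_add, ← map_add, h, map_zero]
  obtain ⟨r1, hr1⟩ := hσ.fix (a * σ a) (by rw [map_mul, hσ.inv]; ring)
  obtain ⟨r2, hr2⟩ := hσ.fix (b * σ b) (by rw [map_mul, hσ.inv]; ring)
  obtain ⟨r3, hr3⟩ := hσ.fix (c * σ c) (by rw [map_mul, hσ.inv]; ring)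
  obtain ⟨r4, hr4⟩ := hσ.fix (b * σ c + c * σ b)
    (by rw [map_add, map_mul, map_mul, hσ.inv, hσ.inv]; ring)
  obtain ⟨r5, hr5⟩ := hσ.fix (c * σ a + a * σ c)
    (by rw [map_add, map_mul, map_mul, hσ.inv, hσ.inv]; ring)
  obtain ⟨r6, hr6⟩ := hσ.fix (a * σ b + b * σ a)
    (by rw [map_add, map_mul, map_mul, hσ.inv, hσ.inv]; ring)
  have hr0 : (![r1, r2, r3, r4, r5, r6] : Fin 6 → ℚ) 0 ≠ 0 := by
    intro h0
    have h0' : r1 = 0 := h0
    rw [h0', Rat.cast_zero] at hr1
    rcases mul_eq_zero.1 hr1 with h1 | h1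
    · exact ha h1
    · exact ha ((map_eq_zero σ).1 h1)
  obtain ⟨g, A, hg, hA, hgcd⟩ := W1_gcd ![r1, r2, r3, r4, r5, r6] hr0
  have e1 : a * σ a = (g : K) * (A 0 : K) := by
    rw [hr1]
    exact_mod_cast congrArg (fun q : ℚ => (q : K)) (hA 0)
  have e2 : b * σ b = (g : K) * (A 1 : K) := by
    rw [hr2]
    exact_mod_cast congrArg (fun q : ℚ => (q : K)) (hA 1)
  have e3 : c * σ c = (g : K) * (A 2 : K) := by
    rw [hr3]
    exact_mod_cast congrArg (fun q : ℚ => (q : K)) (hA 2)
  have e4 : b * σ c + c * σ b = (g : K) * (A 3 : K) := by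
    rw [hr4]
    exact_mod_cast congrArg (fun q : ℚ => (q : K)) (hA 3)
  have e5 : c * σ a + a * σ c = (g : K) * (A 4 : K) := by
    rw [hr5]
    exact_mod_cast congrArg (fun q : ℚ => (q : K)) (hA 4)
  have e6 : a * σ b + b * σ a = (g : K) * (A 5 : K) := by
    rw [hr6]
    exact_mod_cast congrArg (fun q : ℚ => (q : K)) (hA 5)
  have hgK : (g : K) ≠ 0 := by
    intro h0
    exact hg.ne' (by exact_mod_cast h0)
  have m1 : ∀ v : HeightOneSpectrum (𝓞 K), max (v.valuation K (g : K) * v.valuation K (A 0 : K))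
      (max (v.valuation K (g : K) * v.valuation K (A 5 : K))
        (v.valuation K (g : K) * v.valuation K (A 1 : K))) =
      mx v a b c * mx v (σ a) (σ b) (σ c) := by
    intro v
    rw [(mx_eq p hp h v).1, (mx_eq p hp hσp v).1, ← val_content, ← map_mul, ← map_mul, ← map_mul,
      ← e1, ← e6, ← e2]
  have m2 : ∀ v : HeightOneSpectrum (𝓞 K), max (v.valuation K (g : K) * v.valuation K (A 1 : K))
      (max (v.valuation K (g : K) * v.valuation K (A 3 : K))
        (v.valuation K (g : K) * v.valuation K (A 2 : K))) =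
      mx v a b c * mx v (σ a) (σ b) (σ c) := by
    intro v
    rw [(mx_eq p hp h v).2.1, (mx_eq p hp hσp v).2.1, ← val_content, ← map_mul, ← map_mul,
      ← map_mul, ← e2, ← e4, ← e3]
  have m3 : ∀ v : HeightOneSpectrum (𝓞 K), max (v.valuation K (g : K) * v.valuation K (A 2 : K))
      (max (v.valuation K (g : K) * v.valuation K (A 4 : K))
        (v.valuation K (g : K) * v.valuation K (A 0 : K))) =
      mx v a b c * mx v (σ a) (σ b) (σ c) := by
    intro v
    rw [(mx_eq p hp h v).2.2, (mx_eq p hp hσp v).2.2, ← val_content, ← map_mul, ← map_mul,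
      ← map_mul, ← e3, ← e5, ← e1]
  have hv : ∀ v : HeightOneSpectrum (𝓞 K),
      v.valuation K (g : K) = mx v a b c * mx v (σ a) (σ b) (σ c) := by
    intro v
    have hle : ∀ i, v.valuation K (g : K) * v.valuation K (A i : K) ≤ v.valuation K (g : K) := by
      intro i
      calc v.valuation K (g : K) * v.valuation K (A i : K) ≤ v.valuation K (g : K) * 1 :=
            mul_le_mul' le_rfl (W1_int _ _)
        _ = v.valuation K (g : K) := mul_one _
    apply le_antisymm
    · obtain ⟨i, hi⟩ := W1_one v A hgcd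
      have hall : ∀ i, v.valuation K (g : K) * v.valuation K (A i : K) ≤
          mx v a b c * mx v (σ a) (σ b) (σ c) := by
        intro i
        fin_cases i
        · exact (le_max_left _ _).trans (m1 v).le
        · exact (le_max_left _ _).trans (m2 v).le
        · exact (le_max_left _ _).trans (m3 v).le
        · exact ((le_max_left _ _).trans (le_max_right _ _)).trans (m2 v).le
        · exact ((le_max_left _ _).trans (le_max_right _ _)).trans (m3 v).le
        · exact ((le_max_left _ _).trans (le_max_right _ _)).trans (m1 v).le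
      have h1 := hall i
      rw [hi, mul_one] at h1
      exact h1
    · rw [← m1 v]
      exact max_le (hle 0) (max_le (hle 5) (hle 1))
  have hcop : ∀ i j k : Fin 6, (∀ v : HeightOneSpectrum (𝓞 K),
      max (v.valuation K (g : K) * v.valuation K (A i : K))
      (max (v.valuation K (g : K) * v.valuation K (A j : K))
        (v.valuation K (g : K) * v.valuation K (A k : K))) =
      mx v a b c * mx v (σ a) (σ b) (σ c)) →
      ∀ l : ℕ, l.Prime → ¬ ((l : ℤ) ∣ A i ∧ (l : ℤ) ∣ A j ∧ (l : ℤ) ∣ A k) := by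
    intro i j k hm l hl hd
    obtain ⟨v, hvl⟩ := W1_above (K := K) l hl
    have hg0 : 0 < v.valuation K (g : K) := by
      rw [zero_lt_iff]
      exact (Valuation.ne_zero_iff _).2 hgK
    have hlt : ∀ n : ℤ, (l : ℤ) ∣ n →
        v.valuation K (g : K) * v.valuation K (n : K) < v.valuation K (g : K) := by
      rintro n ⟨m, rfl⟩
      have h1 : v.valuation K (((l : ℤ) * m : ℤ) : K) < 1 := by
        push_cast
        rw [map_mul]
        calc v.valuation K (l : K) * v.valuation K (m : K) ≤ v.valuation K (l : K) * 1 :=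
              mul_le_mul' le_rfl (W1_int _ _)
          _ = v.valuation K (l : K) := mul_one _
          _ < 1 := hvl
      calc v.valuation K (g : K) * v.valuation K (((l : ℤ) * m : ℤ) : K) <
            v.valuation K (g : K) * 1 := mul_lt_mul_of_pos_left h1 hg0
        _ = v.valuation K (g : K) := mul_one _
    have h2 := hm v
    rw [← hv v] at h2
    exact absurd h2 (ne_of_lt (max_lt (hlt _ hd.1) (max_lt (hlt _ hd.2.1) (hlt _ hd.2.2))))
  exact ⟨g, A 0, A 1, A 2, A 3, A 4, A 5, hg, e1, e2, e3, e4, e5, e6, hcop 0 5 1 m1, hcop 1 3 2 m2,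
    hcop 2 4 0 m3, hv⟩

end Pool.Agent.H22.WQ
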