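import Pool.Agent.H22.WQ.KBase
import Pool.Agent.H22.WQ.V5c

/-!
# WQ W2: `a + b + c` is small at the primes above `p` and above `2`

`m = mx v a b c ≠ 0`.  Dividing `a, b, c` by an element of value `m` (one of them) we may assume
`v a, v b, v c ≤ 1`, i.e. integral at `v`, and we have to show `v(a + b + c) < 1`.

* `p ∈ v`: `(a+b+c)^p = a^p + b^p + c^p + p * (polynomial in a, b, c with integer coefficients)`, so
  `v(a+b+c)^p ≤ v(p) < 1`.  (Lemma: `(x+y)^p - x^p - y^p = p * ...`, e.g.
  `add_pow_eq`/`exists_add_pow_prime_eq`: `∃ r, (x+y)^p = x^p + y^p + p*r` with `r` in the subring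
  generated by `x, y`; apply it in the valuation subring `(v.valuation K).integer`.)
* `2 ∈ v`, `[K:ℚ] = 2`, `p ≥ 5`: the residue field `k` of `v` has 2 or 4 elements, so `t^4 = t` on
  `k`; `p` is odd and prime to 3, so `p = 6q + 1` or `6q + 5`, and `t^p = t` for all `t ∈ k` or
  `t^p = t^2` for all `t ∈ k` (from `t^4 = t`: `t^3 = 1` or `t = 0`).  The residues satisfy
  `t1^p + t2^p + t3^p = 0`, so `t1 + t2 + t3 = 0` or `(t1+t2+t3)^2 = t1² + t2² + t3² = 0`
  (characteristic 2).  (Residue field: elements of `K` with `v x ≤ 1` modulo those with `v x < 1`; to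
  see `v(t^4 - t) < 1` for `v t ≤ 1`: write `t = r/s` with `r, s ∈ 𝓞 K`, `s ∉ v`, and
  `𝓞 K ⧸ v` has `2^f` elements, `f ≤ 2`.)
-/

open NumberField IsDedekindDomain

namespace Pool.Agent.H22.WQ

private theorem W2_red {K : Type*} [Field K] [NumberField K] (p : ℕ) {a b c : K} (ha : a ≠ 0)
    (h : a ^ p + b ^ p + c ^ p = 0) (v : HeightOneSpectrum (𝓞 K))
    (core : ∀ x y z : K, v.valuation K x ≤ 1 → v.valuation K y ≤ 1 → v.valuation K z ≤ 1 →
      x ^ p + y ^ p + z ^ p = 0 → v.valuation K (x + y + z) < 1) :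
    v.valuation K (a + b + c) < mx v a b c := by
  have hma : v.valuation K a ≤ mx v a b c := le_max_left _ _
  have hmb : v.valuation K b ≤ mx v a b c := (le_max_left _ _).trans (le_max_right _ _)
  have hmc : v.valuation K c ≤ mx v a b c := (le_max_right _ _).trans (le_max_right _ _)
  have hd : ∃ d : K, v.valuation K d = mx v a b c := by
    unfold mx
    rcases max_choice (v.valuation K a) (max (v.valuation K b) (v.valuation K c)) with h1 | h1
    · exact ⟨a, h1.symm⟩
    · rcases max_choice (v.valuation K b) (v.valuation K c) with h2 | h2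
      · exact ⟨b, by rw [h1, h2]⟩
      · exact ⟨c, by rw [h1, h2]⟩
  obtain ⟨d, hd⟩ := hd
  rw [← hd] at hma hmb hmc ⊢
  have hVa : v.valuation K a ≠ 0 := (Valuation.ne_zero_iff _).2 ha
  have hVd : 0 < v.valuation K d := lt_of_lt_of_le (zero_lt_iff.2 hVa) hma
  have hd0 : d ≠ 0 := (Valuation.ne_zero_iff _).1 hVd.ne'
  have h1 := core (a / d) (b / d) (c / d) (by rwa [map_div₀, div_le_one₀ hVd])
    (by rwa [map_div₀, div_le_one₀ hVd]) (by rwa [map_div₀, div_le_one₀ hVd]) (by
      rw [div_pow, div_pow, div_pow, ← add_div, ← add_div, h, zero_div])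
  rw [← add_div, ← add_div, map_div₀, div_lt_one₀ hVd] at h1
  exact h1

theorem sum_small_p {K : Type*} [Field K] [NumberField K] (p : ℕ) (hp : p.Prime) (hp2 : 3 ≤ p)
    {a b c : K} (ha : a ≠ 0) (h : a ^ p + b ^ p + c ^ p = 0) (v : HeightOneSpectrum (𝓞 K))
    (hv : (p : 𝓞 K) ∈ v.asIdeal) : v.valuation K (a + b + c) < mx v a b c := by
  apply W2_red p ha h v
  intro x y z hx hy hz hxyz
  have hVp : v.valuation K (p : K) < 1 := by
    have := (HeightOneSpectrum.valuation_lt_one_iff_mem (K := K) v (p : 𝓞 K)).2 hv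
    simpa using this
  set A := (v.valuation K).integer with hA
  set X : A := ⟨x, hx⟩ with hX
  set Y : A := ⟨y, hy⟩ with hY
  set Z : A := ⟨z, hz⟩ with hZ
  obtain ⟨r, hr⟩ := exists_add_pow_prime_eq hp X Y
  obtain ⟨s, hs⟩ := exists_add_pow_prime_eq hp (X + Y) Z
  have e1 : (X + Y + Z) ^ p = X ^ p + Y ^ p + Z ^ p + p * (X * Y * r + (X + Y) * Z * s) := by
    rw [hs, hr]
    ring
  have e2 : (x + y + z) ^ p = x ^ p + y ^ p + z ^ p +
      p * ((X * Y * r + (X + Y) * Z * s : A) : K) := by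
    have := congrArg (fun t : A => (t : K)) e1
    simpa [hX, hY, hZ] using this
  rw [hxyz, zero_add] at e2
  have h1 : v.valuation K (x + y + z) ^ p < 1 := by
    rw [← map_pow, e2, map_mul]
    have h3 : v.valuation K ((X * Y * r + (X + Y) * Z * s : A) : K) ≤ 1 :=
      (X * Y * r + (X + Y) * Z * s : A).2
    exact lt_of_le_of_lt (mul_le_of_le_one_right' h3) hVp
  by_contra h2
  rw [not_lt] at h2
  exact absurd h1 (not_lt.2 (one_le_pow_of_one_le' h2 p))

theorem sum_small_two {K : Type*} [Field K] [NumberField K] (hK : Module.finrank ℚ K = 2)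
    (p : ℕ) (hp : p.Prime) (hp5 : 5 ≤ p) {a b c : K} (ha : a ≠ 0)
    (h : a ^ p + b ^ p + c ^ p = 0) (v : HeightOneSpectrum (𝓞 K))
    (hv : (2 : 𝓞 K) ∈ v.asIdeal) : v.valuation K (a + b + c) < mx v a b c := by
  apply W2_red p ha h v
  intro x y z hx hy hz hxyz
  have hadd : ∀ s t : K, v.valuation K s < 1 → v.valuation K t < 1 →
      v.valuation K (s + t) < 1 := fun s t hs ht => Valuation.map_add_lt _ hs ht
  have h4 : ∀ t : K, v.valuation K t ≤ 1 → v.valuation K (t ^ 4 - t) < 1 := by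
    intro t ht
    have := residue_pow hK v 2 Nat.prime_two (by exact_mod_cast hv) t (by simpa using ht)
    simpa using this
  have hpow : ∀ t : K, v.valuation K t ≤ 1 → ∀ k : ℕ,
      v.valuation K (t ^ (3 * k + 1) - t) < 1 := by
    intro t ht k
    induction k with
    | zero => simp
    | succ k ih =>
      have e : t ^ (3 * (k + 1) + 1) - t = t ^ (3 * k) * (t ^ 4 - t) + (t ^ (3 * k + 1) - t) := by
        ring
      rw [e]
      refine hadd _ _ ?_ ih
      rw [map_mul, map_pow]
      exact lt_of_le_of_lt (mul_le_of_le_one_left' (pow_le_one' ht _)) (h4 t ht)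
  have hp3 : p % 3 ≠ 0 := by
    intro h0
    have := (Nat.prime_dvd_prime_iff_eq Nat.prime_three hp).1 (Nat.dvd_of_mod_eq_zero h0)
    omega
  have hcase : (∃ k, p = 3 * k + 1) ∨ (∃ k, p = 3 * k + 2) := by
    rcases (by omega : p % 3 = 1 ∨ p % 3 = 2) with h1 | h1
    · exact Or.inl ⟨p / 3, by omega⟩
    · exact Or.inr ⟨p / 3, by omega⟩
  have hV2 : v.valuation K (2 : K) < 1 := by
    have h1 := (HeightOneSpectrum.valuation_lt_one_iff_mem (K := K) v ((2 : ℕ) : 𝓞 K)).2
      (by exact_mod_cast hv)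
    have h2 : algebraMap (𝓞 K) K ((2 : ℕ) : 𝓞 K) = 2 := by
      rw [map_natCast, Nat.cast_ofNat]
    rw [← h2]
    exact h1
  rcases hcase with ⟨k, hk⟩ | ⟨k, hk⟩
  · have e : x + y + z = -((x ^ (3 * k + 1) - x) + (y ^ (3 * k + 1) - y) +
        (z ^ (3 * k + 1) - z)) := by
      rw [← hk]
      linear_combination hxyz
    rw [e, Valuation.map_neg]
    exact hadd _ _ (hadd _ _ (hpow x hx k) (hpow y hy k)) (hpow z hz k)
  · have hpow2 : ∀ t : K, v.valuation K t ≤ 1 → v.valuation K (t ^ (3 * k + 2) - t ^ 2) < 1 := by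
      intro t ht
      have e : t ^ (3 * k + 2) - t ^ 2 = t * (t ^ (3 * k + 1) - t) := by ring
      rw [e, map_mul]
      exact lt_of_le_of_lt (mul_le_of_le_one_left' ht) (hpow t ht k)
    have e : (x + y + z) ^ 2 = -((x ^ (3 * k + 2) - x ^ 2) + (y ^ (3 * k + 2) - y ^ 2) +
        (z ^ (3 * k + 2) - z ^ 2)) + 2 * (x * y + y * z + z * x) := by
      rw [← hk]
      linear_combination hxyz
    have h1 : v.valuation K (x + y + z) ^ 2 < 1 := by
      rw [← map_pow, e]
      refine hadd _ _ ?_ ?_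
      · rw [Valuation.map_neg]
        exact hadd _ _ (hadd _ _ (hpow2 x hx) (hpow2 y hy)) (hpow2 z hz)
      · rw [map_mul]
        refine lt_of_le_of_lt (mul_le_of_le_one_right' ?_) hV2
        have hm : ∀ s t : K, v.valuation K s ≤ 1 → v.valuation K t ≤ 1 →
            v.valuation K (s * t) ≤ 1 := fun s t hs ht => by
          rw [map_mul]
          exact mul_le_one' hs ht
        exact Valuation.map_add_le _ (Valuation.map_add_le _ (hm _ _ hx hy) (hm _ _ hy hz))
          (hm _ _ hz hx)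
    by_contra h2
    rw [not_lt] at h2
    exact absurd h1 (not_lt.2 (one_le_pow_of_one_le' h2 2))

end Pool.Agent.H22.WQ
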