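import Pool.Agent.H22.WQ.KBase

/-!
# WQ W3: the relations modulo `r`

Let `s = a + b + c`, `m = mx v a b c`, `m' = mx v (σ a) (σ b) (σ c)`.  For every `v` above `r`:
`v s < m`, and also `v(σ s) < m'`: the hypothesis at the prime `σ⁻¹ v` (the valuation
`x ↦ v(σ x)` is the valuation of a prime above `r`; lemma: for `v` there is `v'` with
`v'.valuation K x = v.valuation K (σ x)` for all `x`; e.g. `v'.asIdeal = comap of v.asIdeal` under the
automorphism of `𝓞 K` induced by `σ`) .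
In `K`: `s σa + a σs = g (2 A + Z + Y)`: `s σa = a σa + b σa + c σa`,
`a σs = a σa + a σb + a σc`.  The left side has `v < m m' = v(g)` (`Coef.hv`; `v(σ a) ≤ m'`,
`v a ≤ m`), so `v(2A + Z + Y) < 1` at a prime above `r`, so `r ∣ 2A + Z + Y` (an integer not
divisible by `r` is a unit at `v`: Bezout with `r`).  Likewise `s σb + b σs = g (2B + Z + X)`,
and `s σs = g (A + B + C + X + Y + Z)` gives `r ∣ A+B+C+X+Y+Z`.  So modulo `r`:
`Y = -2A - Z`, `X = -2B - Z`, `C = -A - B - Z - X - Y = A + B + Z`.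
(There is at least one prime `v` above `r`: `r` is not a unit of `𝓞 K`.)
-/

open NumberField IsDedekindDomain

namespace Pool.Agent.H22.WQ

private lemma W3_pow {K : Type*} [Field K] [NumberField K] (e : 𝓞 K ≃+* 𝓞 K)
    (v : HeightOneSpectrum (𝓞 K)) (n : ℕ) (x : 𝓞 K) :
    x ∈ (HeightOneSpectrum.comap (e : 𝓞 K →+* 𝓞 K) e.surjective v).asIdeal ^ n ↔
      e x ∈ v.asIdeal ^ n := by
  have h1 : (HeightOneSpectrum.comap (e : 𝓞 K →+* 𝓞 K) e.surjective v).asIdeal =
      Ideal.map (e.symm : 𝓞 K →+* 𝓞 K) v.asIdeal := by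
    rw [HeightOneSpectrum.comap_asIdeal]
    exact (Ideal.map_symm e).symm
  have h2 : (HeightOneSpectrum.comap (e : 𝓞 K →+* 𝓞 K) e.surjective v).asIdeal ^ n =
      Ideal.comap (e : 𝓞 K →+* 𝓞 K) (v.asIdeal ^ n) := by
    rw [h1, ← Ideal.map_pow]
    exact Ideal.map_symm e
  rw [h2, Ideal.mem_comap]
  rfl

private lemma W3_int {K : Type*} [Field K] [NumberField K] (e : 𝓞 K ≃+* 𝓞 K)
    (v : HeightOneSpectrum (𝓞 K)) (x : 𝓞 K) :
    (HeightOneSpectrum.comap (e : 𝓞 K →+* 𝓞 K) e.surjective v).intValuation x =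
      v.intValuation (e x) := by
  by_cases hx : x = 0
  · subst hx
    simp
  have hex : e x ≠ 0 := by
    intro h
    exact hx ((map_eq_zero_iff e e.injective).1 h)
  apply le_antisymm
  · rw [v.intValuation_if_neg hex, HeightOneSpectrum.intValuation_le_pow_iff_mem, W3_pow,
      ← HeightOneSpectrum.intValuation_le_pow_iff_mem, ← v.intValuation_if_neg hex]
  · rw [(HeightOneSpectrum.comap (e : 𝓞 K →+* 𝓞 K) e.surjective v).intValuation_if_neg hx,
      HeightOneSpectrum.intValuation_le_pow_iff_mem, ← W3_pow,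
      ← HeightOneSpectrum.intValuation_le_pow_iff_mem, ← HeightOneSpectrum.intValuation_if_neg _ hx]

private lemma W3_pull {K : Type*} [Field K] [NumberField K] (σ : K ≃ₐ[ℚ] K)
    (v : HeightOneSpectrum (𝓞 K)) : ∃ v' : HeightOneSpectrum (𝓞 K),
      (∀ x : K, v'.valuation K x = v.valuation K (σ x)) ∧
      ∀ n : ℕ, (n : 𝓞 K) ∈ v.asIdeal → (n : 𝓞 K) ∈ v'.asIdeal := by
  set e : 𝓞 K ≃+* 𝓞 K := RingOfIntegers.mapRingEquiv σ.toRingEquiv with he
  refine ⟨HeightOneSpectrum.comap (e : 𝓞 K →+* 𝓞 K) e.surjective v, ?_, ?_⟩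
  · intro x
    obtain ⟨a, b, hb, rfl⟩ := IsFractionRing.div_surjective (A := 𝓞 K) x
    have h1 : ∀ y : 𝓞 K, σ (algebraMap (𝓞 K) K y) = algebraMap (𝓞 K) K (e y) := fun y => rfl
    rw [map_div₀, map_div₀ σ, map_div₀, h1, h1, HeightOneSpectrum.valuation_of_algebraMap,
      HeightOneSpectrum.valuation_of_algebraMap, HeightOneSpectrum.valuation_of_algebraMap,
      HeightOneSpectrum.valuation_of_algebraMap, W3_int, W3_int]
  · intro n hn
    have h1 := (W3_pow e v 1 (n : 𝓞 K)).2 (by rwa [pow_one, map_natCast])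
    rwa [pow_one] at h1

private lemma W3_dvd {K : Type*} [Field K] [NumberField K] (v : HeightOneSpectrum (𝓞 K)) (r : ℕ)
    (hr : r.Prime) (hv : (r : 𝓞 K) ∈ v.asIdeal) (n : ℤ) (h : v.valuation K (n : K) < 1) :
    (r : ℤ) ∣ n := by
  have h1 : (n : 𝓞 K) ∈ v.asIdeal := by
    rw [← HeightOneSpectrum.valuation_lt_one_iff_mem (K := K)]
    simpa using h
  by_contra hn
  have hc : IsCoprime (r : ℤ) n := (Nat.prime_iff_prime_int.1 hr).coprime_iff_not_dvd.2 hn
  obtain ⟨a, b, hab⟩ := hc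
  have h2 : (1 : 𝓞 K) ∈ v.asIdeal := by
    have h3 : (a : 𝓞 K) * (r : 𝓞 K) + (b : 𝓞 K) * (n : 𝓞 K) = 1 := by exact_mod_cast hab
    rw [← h3]
    exact v.asIdeal.add_mem (v.asIdeal.mul_mem_left _ hv) (v.asIdeal.mul_mem_left _ h1)
  exact v.isPrime.ne_top ((Ideal.eq_top_iff_one _).2 h2)

private lemma W3_exists (K : Type*) [Field K] [NumberField K] (r : ℕ) (hr : r.Prime) :
    ∃ v : HeightOneSpectrum (𝓞 K), (r : 𝓞 K) ∈ v.asIdeal := by
  have : (Ideal.span {(r : ℤ)}).IsMaximal :=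
    PrincipalIdealRing.isMaximal_of_irreducible (Nat.prime_iff_prime_int.1 hr).irreducible
  obtain ⟨P, hP, hP2⟩ := Ideal.exists_maximal_ideal_liesOver_of_isIntegral
    (Ideal.span {(r : ℤ)}) (S := 𝓞 K)
  have h1 : (r : 𝓞 K) ∈ P := by
    have h2 : (r : ℤ) ∈ P.under ℤ := by
      rw [← hP2.over]
      exact Ideal.mem_span_singleton_self _
    have h3 : algebraMap ℤ (𝓞 K) (r : ℤ) ∈ P := h2
    simpa using h3
  refine ⟨⟨P, hP.isPrime, ?_⟩, h1⟩
  rintro rfl
  have h4 : (r : 𝓞 K) = 0 := by simpa using h1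
  exact hr.ne_zero (by exact_mod_cast h4)

private lemma W3_small {K : Type*} [Field K] [NumberField K] (v : HeightOneSpectrum (𝓞 K)) (r : ℕ)
    (hr : r.Prime) (hv : (r : 𝓞 K) ∈ v.asIdeal) (s s' a a' : K) (g : ℚ)
    (m m' : WithZero (Multiplicative ℤ)) (hs : v.valuation K s < m) (hs' : v.valuation K s' < m')
    (ha : v.valuation K a ≤ m) (ha' : v.valuation K a' ≤ m')
    (hg : v.valuation K (g : K) = m * m') (n : ℤ) (h : s * a' + a * s' = (g : K) * (n : K)) :
    (r : ℤ) ∣ n := by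
  have hm : 0 < m := lt_of_le_of_lt zero_le hs
  have hm' : 0 < m' := lt_of_le_of_lt zero_le hs'
  have h1 : v.valuation K (s * a' + a * s') < m * m' := by
    refine lt_of_le_of_lt (Valuation.map_add _ _ _) (max_lt ?_ ?_)
    · rw [map_mul]
      exact lt_of_le_of_lt (mul_le_mul_right ha' _) (mul_lt_mul_of_pos_right hs hm')
    · rw [map_mul]
      exact lt_of_le_of_lt (mul_le_mul_left ha _) (mul_lt_mul_of_pos_left hs' hm)
  rw [h, map_mul, hg] at h1
  apply W3_dvd v r hr hv n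
  by_contra hcon
  have h2 : 1 ≤ v.valuation K (n : K) := not_lt.1 hcon
  have h3 : m * m' * 1 ≤ m * m' * v.valuation K (n : K) := mul_le_mul_right h2 _
  rw [mul_one] at h3
  exact absurd h1 (not_lt.2 h3)

theorem coef_mod {K : Type*} [Field K] [NumberField K] (σ : K ≃ₐ[ℚ] K) (hσ : IsCj K σ)
    {a b c : K} {g : ℚ} {A B C X Y Z : ℤ} (hco : Coef K σ a b c g A B C X Y Z) (r : ℕ)
    (hr : r.Prime)
    (hs : ∀ v : HeightOneSpectrum (𝓞 K), (r : 𝓞 K) ∈ v.asIdeal →
      v.valuation K (a + b + c) < mx v a b c) :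
    (C : ZMod r) = A + B + Z ∧ (X : ZMod r) = -2 * B - Z ∧ (Y : ZMod r) = -2 * A - Z := by
  obtain ⟨v, hv⟩ := W3_exists K r hr
  obtain ⟨v', hv1, hv2⟩ := W3_pull σ v
  have h1 := hs v hv
  have h2 : v.valuation K (σ a + σ b + σ c) < mx v (σ a) (σ b) (σ c) := by
    have h3 := hs v' (hv2 r hv)
    unfold mx at h3 ⊢
    rw [hv1, hv1, hv1, hv1, map_add σ, map_add σ] at h3
    exact h3
  have hg := hco.hv v
  have ha : v.valuation K a ≤ mx v a b c := le_max_left _ _
  have hb : v.valuation K b ≤ mx v a b c := (le_max_left _ _).trans (le_max_right _ _)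
  have ha' : v.valuation K (σ a) ≤ mx v (σ a) (σ b) (σ c) := le_max_left _ _
  have hb' : v.valuation K (σ b) ≤ mx v (σ a) (σ b) (σ c) :=
    (le_max_left _ _).trans (le_max_right _ _)
  have e1 : (a + b + c) * σ a + a * (σ a + σ b + σ c) = (g : K) * ((2 * A + Z + Y : ℤ) : K) := by
    push_cast
    linear_combination 2 * hco.hA + hco.hZ + hco.hY
  have e2 : (a + b + c) * σ b + b * (σ a + σ b + σ c) = (g : K) * ((2 * B + Z + X : ℤ) : K) := by
    push_cast
    linear_combination 2 * hco.hB + hco.hZ + hco.hX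
  have e3 : (a + b + c) * (σ a + σ b + σ c) + a * 0 =
      (g : K) * ((A + B + C + X + Y + Z : ℤ) : K) := by
    push_cast
    linear_combination hco.hA + hco.hB + hco.hC + hco.hX + hco.hY + hco.hZ
  have d1 := W3_small v r hr hv _ _ _ _ g _ _ h1 h2 ha ha' hg _ e1
  have d2 := W3_small v r hr hv _ _ _ _ g _ _ h1 h2 hb hb' hg _ e2
  have d3 : (r : ℤ) ∣ A + B + C + X + Y + Z := by
    have h4 : v.valuation K (0 : K) < mx v (σ a) (σ b) (σ c) := by
      rw [map_zero]
      exact lt_of_le_of_lt zero_le h2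
    exact W3_small v r hr hv _ _ _ _ g _ _ h1 h4 ha h2.le hg _ e3
  rw [← ZMod.intCast_zmod_eq_zero_iff_dvd] at d1 d2 d3
  push_cast at d1 d2 d3
  refine ⟨?_, ?_, ?_⟩
  · linear_combination d3 - d1 - d2
  · linear_combination d2
  · linear_combination d1

end Pool.Agent.H22.WQ
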