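import Pool.Agent.H22.WQ.Base

/-!
# WQ W4: the linear algebra over `F_p` (pure field algebra, `p ≥ 5`, so 2 and 3 are invertible)

With `C = A+B+Z`, `X = -2B-Z`, `Y = -2A-Z` one has for the three polynomials `P_ab = A + Zx + Bx²`,
`P_bc = B + Xx + Cx²`, `P_ca = C + Yx + Ax²`: `P_ab(1) = C`, `P_ab'(1) = Z + 2B = -X`,
`P_bc(1) = A`, `P_bc'(1) = X + 2C = -Y`, `P_ca(1) = B`, `P_ca'(1) = Y + 2A = -Z`.
`Rl p k a0 a1 a2` has three clauses (value ≠ 0; value = 0, derivative ≠ 0; both 0).  Case distinction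
on `C = 0`, `X = 0`, `A = 0`, `Y = 0`, `B = 0`, `Z = 0`:

* `alg1` (`k = 4,2,0`).  `C ≠ 0`: `4C = -2X`, `X = -2C`.  If `A ≠ 0`, `B ≠ 0`: `2A = -2Y`, `0 = -2Z`,
  so `Z = 0`, `X = -2B`, `B = C = A + B`, `A = 0`, contradiction.  If `B = 0` (clause 2 or 3 of the
  third): `Z ≠ 0`: `-1 * (-Z) = 2A`, so `A = Z/2`, `X = -Z = -2C`, `C = Z/2 = A + Z = 3Z/2`, `Z = 0`,
  contradiction; `Z = 0`: clause 3: `0 = 2`, contradiction.  So `B ≠ 0`, `A = 0`, `Z = 0`, `C = B`,
  `Y = 0`.  `C = 0`: `X = A - B`; `X ≠ 0`: `3(-X) = 2B`; `A ≠ 0`: `2A = -2Y = -2X`... gives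
  `X = -A`..., contradiction; `A = 0`: `X = -B`, `3B = 2B`, `B = 0`, all zero; `X = 0`: clause 3:
  `4 = 2`, contradiction.
* `alg2` (`k = 2,3,1`) and `alg3` (`k = 2,2,2`): the same method.  (Numerically verified for
  `p = 5, ..., 23` by brute force.)
All steps are linear; `linear_combination`/`grind`/`field_simp` after `by_cases`.
-/

open NumberField IsDedekindDomain

namespace Pool.Agent.H22.WQ

private theorem W4_two (p : ℕ) [Fact p.Prime] (hp : 5 ≤ p) : (2 : ZMod p) ≠ 0 ∧ (3 : ZMod p) ≠ 0 := by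
  constructor
  · intro h
    have h1 : ((2 : ℕ) : ZMod p) = 0 := by exact_mod_cast h
    rw [ZMod.natCast_eq_zero_iff] at h1
    have := Nat.le_of_dvd (by norm_num) h1
    omega
  · intro h
    have h1 : ((3 : ℕ) : ZMod p) = 0 := by exact_mod_cast h
    rw [ZMod.natCast_eq_zero_iff] at h1
    have := Nat.le_of_dvd (by norm_num) h1
    omega

/-- the three clauses in terms of the value `V` and the derivative `D` -/
private theorem W4_cl {p : ℕ} [Fact p.Prime] {k : ℕ} {a0 a1 a2 V D : ZMod p} (h : Rl p k a0 a1 a2) (hV : a0 + a1 + a2 = V)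
    (hD : a1 + 2 * a2 = D) : (V ≠ 0 → (k : ZMod p) * V = 2 * D) ∧
      (V = 0 → D ≠ 0 → ((k : ZMod p) - 1) * D = 2 * a2) ∧ (V = 0 → D = 0 → (k : ZMod p) = 2) := by
  subst hV hD
  exact h

theorem alg1 (p : ℕ) [Fact p.Prime] (hp : 5 ≤ p) (A B C X Y Z : ZMod p)
    (hne : ¬ (A = 0 ∧ B = 0 ∧ Z = 0)) (hC : C = A + B + Z) (hX : X = -2 * B - Z)
    (hY : Y = -2 * A - Z) (h1 : Rl p 4 A Z B) (h2 : Rl p 2 B X C) (h3 : Rl p 0 C Y A) :
    A = 0 ∧ Z = 0 ∧ Y = 0 ∧ B ≠ 0 ∧ C = B := by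
  obtain ⟨e2, e3⟩ := W4_two p hp
  have cancel2 : ∀ x y : ZMod p, 2 * x = 2 * y → x = y := fun x y h => mul_left_cancel₀ e2 h
  obtain ⟨a1, a2, a3⟩ := W4_cl h1 (show A + Z + B = C by rw [hC]; ring) (show Z + 2 * B = -X by rw [hX]; ring)
  obtain ⟨b1, b2, b3⟩ := W4_cl h2 (show B + X + C = A by rw [hC, hX]; ring)
    (show X + 2 * C = -Y by rw [hC, hX, hY]; ring)
  obtain ⟨c1, c2, c3⟩ := W4_cl h3 (show C + Y + A = B by rw [hC, hY]; ring) (show Y + 2 * A = -Z by rw [hY]; ring)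
  push_cast at a1 a2 a3 b1 b2 b3 c1 c2 c3
  by_cases hC0 : C = 0
  · exfalso
    have hX0 : -X ≠ 0 := by
      intro h
      have h5 := a3 hC0 h
      apply e2
      linear_combination h5
    have h5 := a2 hC0 hX0
    by_cases hA0 : A = 0
    · -- `X = -B`, `3B = 2B`
      have h6 : B = 0 := by linear_combination h5 + 3 * hX + 3 * hC + 3 * hA0 - 3 * hC0
      apply hX0
      linear_combination (-1) * hX - hC - hA0 + hC0 + h6
    · have h6 := cancel2 _ _ (b1 hA0)
      -- `A = -Y = X`, so `B = 0`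
      have h7 : B = 0 := by linear_combination h6 - hY - hC + hC0
      have h8 : 3 * (-X) = 3 * 0 := by linear_combination h5 + 2 * h7
      exact hX0 (mul_left_cancel₀ e3 h8)
  · have h5 : 2 * C = -X := by
      apply cancel2
      linear_combination a1 hC0
    by_cases hB0 : B = 0
    · exfalso
      have hZ0 : -Z ≠ 0 := by
        intro h
        have h6 := c3 hB0 h
        exact e2 h6.symm
      have h6 := c2 hB0 hZ0
      -- `Z = 2A`, `C = A`
      apply hZ0
      have h7 : C = A := by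
        apply cancel2
        linear_combination h5 - hX + 2 * hB0 + h6
      linear_combination hC - h7 + hB0
    · have h6 := c1 hB0
      have hZ : Z = 0 := by
        have h7 : (2 : ZMod p) * (-Z) = 2 * 0 := by linear_combination (-1) * h6
        have h8 := cancel2 _ _ h7
        linear_combination (-1) * h8
      have hCB : C = B := by
        apply cancel2
        linear_combination h5 - hX + hZ
      have hA : A = 0 := by linear_combination hCB - hC - hZ
      refine ⟨hA, hZ, ?_, hB0, hCB⟩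
      rw [hY, hA, hZ]
      ring

theorem alg2 (p : ℕ) [Fact p.Prime] (hp : 5 ≤ p) (A B C X Y Z : ZMod p)
    (hne : ¬ (A = 0 ∧ B = 0 ∧ Z = 0)) (hC : C = A + B + Z) (hX : X = -2 * B - Z)
    (hY : Y = -2 * A - Z) (h1 : Rl p 2 A Z B) (h2 : Rl p 3 B X C) (h3 : Rl p 1 C Y A) :
    (A = 0 ∧ B = 0 ∧ C ≠ 0 ∧ Z = C) ∨ (A ≠ 0 ∧ B = A ∧ 2 * C = 3 * A ∧ 2 * Z = -A) := by
  obtain ⟨e2, e3⟩ := W4_two p hp
  have cancel2 : ∀ x y : ZMod p, 2 * x = 2 * y → x = y := fun x y h => mul_left_cancel₀ e2 h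
  obtain ⟨b1, b2, b3⟩ := W4_cl h2 (show B + X + C = A by rw [hC, hX]; ring)
    (show X + 2 * C = -Y by rw [hC, hX, hY]; ring)
  obtain ⟨c1, c2, c3⟩ := W4_cl h3 (show C + Y + A = B by rw [hC, hY]; ring) (show Y + 2 * A = -Z by rw [hY]; ring)
  push_cast at b1 b2 b3 c1 c2 c3
  by_cases hB0 : B = 0
  · left
    have hZ0 : -Z ≠ 0 := by
      intro h
      have h5 := c3 hB0 h
      apply one_ne_zero (α := ZMod p)
      linear_combination (-1) * h5
    have h5 := c2 hB0 hZ0
    have hA : A = 0 := by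
      apply cancel2
      linear_combination (-1) * h5
    have hCZ : C = Z := by linear_combination hC + hA + hB0
    refine ⟨hA, hB0, ?_, hCZ.symm⟩
    intro h
    apply hZ0
    linear_combination hCZ - h
  · right
    have h5 : B = -2 * Z := by linear_combination c1 hB0
    by_cases hA0 : A = 0
    · exfalso
      have hY0 : -Y ≠ 0 := by
        intro h
        have h6 := b3 hA0 h
        apply one_ne_zero (α := ZMod p)
        linear_combination h6
      have h6 : -Y = C := by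
        apply cancel2
        linear_combination b2 hA0 hY0
      apply hB0
      linear_combination (-1) * h6 - hY + 2 * hA0 - hC - hA0
    · have h6 := b1 hA0
      have hA : A = -2 * Z := by linear_combination (-1) * h6 + 2 * hY
      refine ⟨hA0, ?_, ?_, ?_⟩
      · rw [h5, hA]
      · linear_combination 2 * hC + 2 * h5 - hA
      · linear_combination hA

theorem alg3 (p : ℕ) [Fact p.Prime] (hp : 5 ≤ p) (A B C X Y Z : ZMod p)
    (hne : ¬ (A = 0 ∧ B = 0 ∧ Z = 0)) (hC : C = A + B + Z) (hX : X = -2 * B - Z)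
    (hY : Y = -2 * A - Z) (h1 : Rl p 2 A Z B) (h2 : Rl p 2 B X C) (h3 : Rl p 2 C Y A) :
    A ≠ 0 ∧ B = A ∧ C = A ∧ Z = -A := by
  obtain ⟨e2, e3⟩ := W4_two p hp
  have cancel2 : ∀ x y : ZMod p, 2 * x = 2 * y → x = y := fun x y h => mul_left_cancel₀ e2 h
  obtain ⟨a1, a2, a3⟩ := W4_cl h1 (show A + Z + B = C by rw [hC]; ring) (show Z + 2 * B = -X by rw [hX]; ring)
  obtain ⟨b1, b2, b3⟩ := W4_cl h2 (show B + X + C = A by rw [hC, hX]; ring)
    (show X + 2 * C = -Y by rw [hC, hX, hY]; ring)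
  obtain ⟨c1, c2, c3⟩ := W4_cl h3 (show C + Y + A = B by rw [hC, hY]; ring) (show Y + 2 * A = -Z by rw [hY]; ring)
  push_cast at a1 a2 a3 b1 b2 b3 c1 c2 c3
  by_cases hA0 : A = 0
  · exfalso
    by_cases hB0 : B = 0
    · have hZ0 : -Z ≠ 0 := by
        intro h
        exact hne ⟨hA0, hB0, neg_eq_zero.1 h⟩
      apply hZ0
      linear_combination c2 hB0 hZ0 + 2 * hA0
    · have h5 : B = -Z := cancel2 _ _ (c1 hB0)
      have hC0 : C = 0 := by linear_combination hC + hA0 + h5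
      have hXB : X = -B := by linear_combination hX - h5
      have hX0 : -X ≠ 0 := by
        rw [hXB, neg_neg]
        exact hB0
      apply hB0
      linear_combination (-1) * a2 hC0 hX0 - hXB
  · have h5 : A = -Y := cancel2 _ _ (b1 hA0)
    have hZ : Z = -A := by linear_combination hY - h5
    by_cases hB0 : B = 0
    · exfalso
      have hZ0 : -Z ≠ 0 := by
        rw [hZ, neg_neg]
        exact hA0
      apply hA0
      linear_combination (-1) * c2 hB0 hZ0 - hZ
    · have h6 : B = -Z := cancel2 _ _ (c1 hB0)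
      have hB : B = A := by linear_combination h6 - hZ
      exact ⟨hA0, hB, by linear_combination hC + hB + hZ, hZ⟩

end Pool.Agent.H22.WQ
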