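import Pool.Agent.H22.WQ.KBase

/-!
# WQ W5: from divisibility of the coefficients to divisibility by primes

`m = mx v a b c`, `m' = mx v (σ a) (σ b) (σ c)`, `v(g) = m m'` (`Coef.hv`), all nonzero.  For an
integer `n` and `v` above `r`: `r ∣ n → v(n) < 1`, `r ∤ n → v(n) = 1` (Bezout).

* `div_all`: `r ∣ A`, `r ∣ Z`.  Suppose `v a = m`.  `v(a) v(σ a) = v(g) v(A) < m m'`, so
  `v(σ a) < m'`, so `v(σ b) = m'` (`hmx'`: `m' = max (v σa) (v σb)`).  Then `v(a σb) = m m'`,
  `v(b σa) < m m'`, so `v(g Z) = m m'`, `v(Z) = 1`, contradiction.  So `v a < m`; by `mx_eq`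
  (`hmx`) `v b = m = v c`.
* `exists_div`: `r ∣ A`.  Take any `v` above `r`.  `v(a) v(σ a) < m m'`, so `v a < m` or
  `v(σ a) < m'`.  In the first case `v` works, in the second the prime `v'` with
  `v'(x) = v(σ x)` works.
* `no_div`: `r ∤ A`: `v(a) v(σ a) = m m'` so `v a = m`.
The hypothesis `hmx` is `mx_eq` for all `v`; the same for `σ a, σ b, σ c`.
-/

open NumberField IsDedekindDomain

namespace Pool.Agent.H22.WQ

open WithZero in
private lemma W5_int {R : Type*} [CommRing R] [IsDedekindDomain R] (e : R ≃+* R)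
    (v v' : HeightOneSpectrum R) (hv : v'.asIdeal = v.asIdeal.comap e) (r : R) :
    v'.intValuation r = v.intValuation (e r) := by
  by_cases hr : r = 0
  · rw [hr, map_zero, map_zero, map_zero]
  have her : e r ≠ 0 := fun h' => hr ((map_eq_zero_iff e e.injective).1 h')
  have hmem : ∀ n : ℕ, r ∈ v'.asIdeal ^ n ↔ e r ∈ v.asIdeal ^ n := by
    intro n
    have h1 : v'.asIdeal ^ n = (v.asIdeal ^ n).comap e := by
      rw [hv, ← Ideal.map_symm, ← Ideal.map_symm, Ideal.map_pow]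
    rw [h1, Ideal.mem_comap]
  have hiff : ∀ n : ℕ, v'.intValuation r ≤ exp (-(n : ℤ)) ↔
      v.intValuation (e r) ≤ exp (-(n : ℤ)) := by
    intro n
    rw [v'.intValuation_le_pow_iff_mem, v.intValuation_le_pow_iff_mem, hmem]
  rw [v'.intValuation_if_neg hr, v.intValuation_if_neg her] at hiff ⊢
  apply le_antisymm
  · exact (hiff _).2 le_rfl
  · exact (hiff _).1 le_rfl

private lemma W5_le {K : Type*} [Field K] {Γ : Type*} [LinearOrderedCommGroupWithZero Γ]
    (w : Valuation K Γ) (p : ℕ) (hp : 0 < p) {a b c : K} (h : a ^ p + b ^ p + c ^ p = 0) :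
    w a ≤ max (w b) (w c) := by
  have h1 : a ^ p = -(b ^ p + c ^ p) := by
    have : a ^ p + (b ^ p + c ^ p) = 0 := by rw [← add_assoc]; exact h
    exact eq_neg_of_add_eq_zero_left this
  have h2 : w a ^ p ≤ (max (w b) (w c)) ^ p := by
    rw [← map_pow, h1, Valuation.map_neg]
    refine (w.map_add _ _).trans (max_le ?_ ?_)
    · rw [map_pow]; exact pow_le_pow_left₀ zero_le (le_max_left _ _) p
    · rw [map_pow]; exact pow_le_pow_left₀ zero_le (le_max_right _ _) p
  exact (pow_le_pow_iff_left₀ zero_le zero_le hp.ne').1 h2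

private lemma W5_two {K : Type*} [Field K] [NumberField K] (v : HeightOneSpectrum (𝓞 K))
    (p : ℕ) (hp : 0 < p) {a b c : K} (h : a ^ p + b ^ p + c ^ p = 0)
    (hlt : v.valuation K a < mx v a b c) :
    v.valuation K b = mx v a b c ∧ v.valuation K c = mx v a b c := by
  have hA := W5_le (v.valuation K) p hp h
  have hB := W5_le (v.valuation K) p hp (a := b) (b := c) (c := a) (by rw [← h]; ring)
  have hC := W5_le (v.valuation K) p hp (a := c) (b := a) (c := b) (by rw [← h]; ring)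
  have hbm : v.valuation K b ≤ mx v a b c := (le_max_left _ _).trans (le_max_right _ _)
  have hcm : v.valuation K c ≤ mx v a b c := (le_max_right _ _).trans (le_max_right _ _)
  have hm : mx v a b c ≤ max (v.valuation K b) (v.valuation K c) := max_le hA le_rfl
  constructor
  · rcases hbm.lt_or_eq with h1 | h1
    · exfalso
      have h2 : v.valuation K c < mx v a b c := lt_of_le_of_lt hC (max_lt hlt h1)
      exact absurd (lt_of_le_of_lt hm (max_lt h1 h2)) (lt_irrefl _)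
    · exact h1
  · rcases hcm.lt_or_eq with h1 | h1
    · exfalso
      have h2 : v.valuation K b < mx v a b c := lt_of_le_of_lt hB (max_lt h1 hlt)
      exact absurd (lt_of_le_of_lt hm (max_lt h2 h1)) (lt_irrefl _)
    · exact h1

private lemma W5_dv {K : Type*} [Field K] [NumberField K] (v : HeightOneSpectrum (𝓞 K))
    (p : ℕ) (hp : 0 < p) {a b c : K} (h : a ^ p + b ^ p + c ^ p = 0)
    (hlt : v.valuation K a < mx v a b c) : Dv v a b c := by
  obtain ⟨h1, h2⟩ := W5_two v p hp h hlt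
  exact ⟨by rw [h1]; exact hlt, by rw [h1, h2]⟩

private lemma W5_dvd {K : Type*} [Field K] [NumberField K] (v : HeightOneSpectrum (𝓞 K)) (r : ℕ)
    (hv : (r : 𝓞 K) ∈ v.asIdeal) (n : ℤ) (hn : (r : ℤ) ∣ n) : v.valuation K (n : K) < 1 := by
  have h1 : ((n : 𝓞 K) : K) = (n : K) := map_intCast (algebraMap (𝓞 K) K) n
  rw [← h1]
  refine (v.valuation_lt_one_iff_mem _).2 ?_
  obtain ⟨k, hk⟩ := hn
  rw [hk]
  push_cast
  exact Ideal.mul_mem_right _ _ hv

private lemma W5_ndvd {K : Type*} [Field K] [NumberField K] (v : HeightOneSpectrum (𝓞 K)) (r : ℕ)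
    (hr : r.Prime) (hv : (r : 𝓞 K) ∈ v.asIdeal) (n : ℤ) (hn : ¬ (r : ℤ) ∣ n) :
    v.valuation K (n : K) = 1 := by
  have h1 : ((n : 𝓞 K) : K) = (n : K) := map_intCast (algebraMap (𝓞 K) K) n
  rw [← h1]
  refine v.valuation_eq_one_iff_notMem.2 fun hmem => ?_
  have hco : IsCoprime (r : ℤ) n := (Nat.prime_iff_prime_int.1 hr).coprime_iff_not_dvd.2 hn
  obtain ⟨s, t, hst⟩ := hco
  have h2 : (1 : 𝓞 K) ∈ v.asIdeal := by
    have h3 : (1 : 𝓞 K) = (s : 𝓞 K) * (r : 𝓞 K) + (t : 𝓞 K) * (n : 𝓞 K) := by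
      have := congrArg (fun q : ℤ => (q : 𝓞 K)) hst
      push_cast at this
      exact this.symm
    rw [h3]
    exact Ideal.add_mem _ (Ideal.mul_mem_left _ _ hv) (Ideal.mul_mem_left _ _ hmem)
  exact v.isPrime.ne_top ((Ideal.eq_top_iff_one _).2 h2)

private lemma W5_pos {K : Type*} [Field K] [NumberField K] (v : HeightOneSpectrum (𝓞 K))
    {a b c : K} (ha : a ≠ 0) : 0 < mx v a b c :=
  lt_of_lt_of_le (zero_lt_iff.2 ((map_ne_zero _).2 ha)) (le_max_left _ _)

theorem exists_conj_prime {K : Type*} [Field K] [NumberField K] (σ : K ≃ₐ[ℚ] K)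
    (v : HeightOneSpectrum (𝓞 K)) :
    ∃ v' : HeightOneSpectrum (𝓞 K), (∀ x : K, v'.valuation K x = v.valuation K (σ x)) ∧
      ∀ n : ℕ, (n : 𝓞 K) ∈ v'.asIdeal ↔ (n : 𝓞 K) ∈ v.asIdeal := by
  let e : 𝓞 K ≃+* 𝓞 K := RingOfIntegers.mapRingEquiv (σ : K ≃+* K)
  have he : ∀ r : 𝓞 K, ((e r : 𝓞 K) : K) = σ (r : K) := fun r => rfl
  let v' : HeightOneSpectrum (𝓞 K) :=
    HeightOneSpectrum.comap (e : 𝓞 K →+* 𝓞 K) e.surjective v
  have hv' : v'.asIdeal = v.asIdeal.comap e := rfl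
  refine ⟨v', ?_, ?_⟩
  · intro x
    obtain ⟨r, s, -, rfl⟩ := IsFractionRing.div_surjective (A := 𝓞 K) x
    rw [map_div₀, map_div₀, map_div₀, v'.valuation_of_algebraMap, v'.valuation_of_algebraMap]
    have h1 : σ (algebraMap (𝓞 K) K r) = algebraMap (𝓞 K) K (e r) := (he r).symm
    have h2 : σ (algebraMap (𝓞 K) K s) = algebraMap (𝓞 K) K (e s) := (he s).symm
    rw [h1, h2, v.valuation_of_algebraMap, v.valuation_of_algebraMap, W5_int e v v' hv',
      W5_int e v v' hv']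
  · intro n
    rw [hv', Ideal.mem_comap, map_natCast]

theorem div_all {K : Type*} [Field K] [NumberField K] (σ : K ≃ₐ[ℚ] K) {a b c : K}
    {g : ℚ} {A B C X Y Z : ℤ} (hco : Coef K σ a b c g A B C X Y Z) (p : ℕ) (hp : 0 < p)
    (h : a ^ p + b ^ p + c ^ p = 0) (ha : a ≠ 0) (r : ℕ) (hr : r.Prime) (hA : (r : ℤ) ∣ A)
    (hZ : (r : ℤ) ∣ Z) (v : HeightOneSpectrum (𝓞 K)) (hv : (r : 𝓞 K) ∈ v.asIdeal) :
    Dv v a b c := by
  have hσa : σ a ≠ 0 := (map_ne_zero σ).2 ha
  have hσ : (σ a) ^ p + (σ b) ^ p + (σ c) ^ p = 0 := by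
    rw [← map_pow, ← map_pow, ← map_pow, ← map_add, ← map_add, h, map_zero]
  have hm : 0 < mx v a b c := W5_pos v ha
  have hm' : 0 < mx v (σ a) (σ b) (σ c) := W5_pos v hσa
  have ham : v.valuation K a ≤ mx v a b c := le_max_left _ _
  have hbm : v.valuation K b ≤ mx v a b c := (le_max_left _ _).trans (le_max_right _ _)
  have hg0 : 0 < v.valuation K (g : K) := by rw [hco.hv v]; exact mul_pos hm hm'
  rcases ham.lt_or_eq with hlt | heq
  · exact W5_dv v p hp h hlt
  · exfalso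
    have hA1 := W5_dvd v r hv A hA
    have hZ1 := W5_dvd v r hv Z hZ
    have e1 : v.valuation K a * v.valuation K (σ a) =
        v.valuation K (g : K) * v.valuation K (A : K) := by rw [← map_mul, hco.hA, map_mul]
    have e2 : v.valuation K a * v.valuation K (σ a) <
        mx v a b c * mx v (σ a) (σ b) (σ c) := by
      rw [e1, ← hco.hv v]
      exact mul_lt_of_lt_one_right hg0 hA1
    rw [heq] at e2
    have e3 : v.valuation K (σ a) < mx v (σ a) (σ b) (σ c) := lt_of_mul_lt_mul_left e2 hm.le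
    obtain ⟨e4, -⟩ := W5_two v p hp hσ e3
    have e5 : v.valuation K (a * σ b) = mx v a b c * mx v (σ a) (σ b) (σ c) := by
      rw [map_mul, heq, e4]
    have e6 : v.valuation K (b * σ a) < mx v a b c * mx v (σ a) (σ b) (σ c) := by
      rw [map_mul]
      exact lt_of_le_of_lt (mul_le_mul_of_nonneg_right hbm zero_le)
        ((mul_lt_mul_iff_right₀ hm).2 e3)
    have e7 : v.valuation K (a * σ b + b * σ a) = mx v a b c * mx v (σ a) (σ b) (σ c) := by
      rw [Valuation.map_add_eq_of_lt_left _ (by rw [e5]; exact e6), e5]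
    rw [hco.hZ, map_mul, ← hco.hv v] at e7
    have e8 : v.valuation K (g : K) * v.valuation K (Z : K) < v.valuation K (g : K) :=
      mul_lt_of_lt_one_right hg0 hZ1
    rw [e7] at e8
    exact lt_irrefl _ e8

theorem exists_div {K : Type*} [Field K] [NumberField K] (σ : K ≃ₐ[ℚ] K) (hσ : IsCj K σ)
    {a b c : K} {g : ℚ} {A B C X Y Z : ℤ} (hco : Coef K σ a b c g A B C X Y Z) (p : ℕ)
    (hp : 0 < p) (h : a ^ p + b ^ p + c ^ p = 0) (ha : a ≠ 0) (r : ℕ) (hr : r.Prime)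
    (hA : (r : ℤ) ∣ A) :
    ∃ v : HeightOneSpectrum (𝓞 K), (r : 𝓞 K) ∈ v.asIdeal ∧ Dv v a b c := by
  have hσa : σ a ≠ 0 := (map_ne_zero σ).2 ha
  have hσ' : (σ a) ^ p + (σ b) ^ p + (σ c) ^ p = 0 := by
    rw [← map_pow, ← map_pow, ← map_pow, ← map_add, ← map_add, h, map_zero]
  -- a prime above `r`
  have hr0 : (r : 𝓞 K) ≠ 0 := by exact_mod_cast hr.ne_zero
  have hnu : ¬ IsUnit (r : 𝓞 K) := by
    intro hu
    have h1 : IsUnit (Algebra.norm ℤ (r : 𝓞 K)) := hu.map _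
    have h2 : Algebra.norm ℤ (r : 𝓞 K) = (r : ℤ) ^ Module.finrank ℤ (𝓞 K) := by
      have h3 : (r : 𝓞 K) = algebraMap ℤ (𝓞 K) (r : ℤ) := by simp
      rw [h3, Algebra.norm_algebraMap]
    rw [h2] at h1
    have h4 : 0 < Module.finrank ℤ (𝓞 K) := by
      rw [RingOfIntegers.rank]
      exact Module.finrank_pos
    have h5 : IsUnit (r : ℤ) := (isUnit_pow_iff h4.ne').1 h1
    rw [Int.isUnit_iff_natAbs_eq, Int.natAbs_natCast] at h5
    exact hr.ne_one h5
  have hne : Ideal.span {(r : 𝓞 K)} ≠ ⊤ := by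
    rw [Ne, Ideal.span_singleton_eq_top]
    exact hnu
  obtain ⟨M, hM, hle⟩ := Ideal.exists_le_maximal _ hne
  have hrM : (r : 𝓞 K) ∈ M := hle (Ideal.mem_span_singleton_self _)
  let v : HeightOneSpectrum (𝓞 K) := ⟨M, hM.isPrime, fun h0 => hr0 (by rw [h0] at hrM; exact hrM)⟩
  have hv : (r : 𝓞 K) ∈ v.asIdeal := hrM
  have hm : 0 < mx v a b c := W5_pos v ha
  have hm' : 0 < mx v (σ a) (σ b) (σ c) := W5_pos v hσa
  have hg0 : 0 < v.valuation K (g : K) := by rw [hco.hv v]; exact mul_pos hm hm'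
  have hA1 := W5_dvd v r hv A hA
  have e1 : v.valuation K a * v.valuation K (σ a) =
      v.valuation K (g : K) * v.valuation K (A : K) := by rw [← map_mul, hco.hA, map_mul]
  have e2 : v.valuation K a * v.valuation K (σ a) <
      mx v a b c * mx v (σ a) (σ b) (σ c) := by
    rw [e1, ← hco.hv v]
    exact mul_lt_of_lt_one_right hg0 hA1
  have ham : v.valuation K a ≤ mx v a b c := le_max_left _ _
  rcases ham.lt_or_eq with hlt | heq
  · exact ⟨v, hv, W5_dv v p hp h hlt⟩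
  · rw [heq] at e2
    have e3 : v.valuation K (σ a) < mx v (σ a) (σ b) (σ c) := lt_of_mul_lt_mul_left e2 hm.le
    obtain ⟨v', h1, h2⟩ := exists_conj_prime σ v
    refine ⟨v', (h2 r).2 hv, W5_dv v' p hp h ?_⟩
    unfold mx at e3 ⊢
    rw [h1, h1, h1]
    exact e3

theorem no_div {K : Type*} [Field K] [NumberField K] (σ : K ≃ₐ[ℚ] K)
    {a b c : K} {g : ℚ} {A B C X Y Z : ℤ} (hco : Coef K σ a b c g A B C X Y Z) (ha : a ≠ 0)
    (r : ℕ) (hr : r.Prime) (hA : ¬ (r : ℤ) ∣ A) (v : HeightOneSpectrum (𝓞 K))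
    (hv : (r : 𝓞 K) ∈ v.asIdeal) : v.valuation K a = mx v a b c := by
  have hσa : σ a ≠ 0 := (map_ne_zero σ).2 ha
  have hm : 0 < mx v a b c := W5_pos v ha
  have hm' : 0 < mx v (σ a) (σ b) (σ c) := W5_pos v hσa
  have hA1 := W5_ndvd v r hr hv A hA
  have e1 : v.valuation K a * v.valuation K (σ a) =
      mx v a b c * mx v (σ a) (σ b) (σ c) := by
    rw [← map_mul, hco.hA, map_mul, hA1, mul_one, hco.hv v]
  have ham : v.valuation K a ≤ mx v a b c := le_max_left _ _
  have ham' : v.valuation K (σ a) ≤ mx v (σ a) (σ b) (σ c) := le_max_left _ _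
  rcases ham.lt_or_eq with hlt | heq
  · exfalso
    have e2 : v.valuation K a * v.valuation K (σ a) <
        mx v a b c * mx v (σ a) (σ b) (σ c) :=
      lt_of_le_of_lt (mul_le_mul_of_nonneg_left ham' zero_le)
        ((mul_lt_mul_iff_left₀ hm').2 hlt)
    rw [e1] at e2
    exact lt_irrefl _ e2
  · exact heq

end Pool.Agent.H22.WQ
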