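import Pool.Agent.H22.WQ.KBase

/-!
# WQ W6: the discriminant `Z² - 4AB` and `d`

* `disc_eq`: `g² (Z² - 4AB) = (a σb + b σa)² - 4 a σa b σb = (a σb - b σa)²`; `a σb - b σa` is
  anti-invariant under `σ`, so it is `s δ` with `s ∈ ℚ` (write it as `r + s δ`; `σ` changes the
  sign, so `r = 0`).  So `Z² - 4AB = d (s/g)²`.
* `disc_one`: `D = d q²`, `d` squarefree, `D ≡ 1 (mod 8)`.  `q = m/n` in lowest terms: `D n² = d m²`;
  `v_2`: `D` odd, so `2 v_2(n) = v_2(d) + 2 v_2(m)`, `v_2(d) ≤ 1`, so `v_2(d) = 0`, `v_2(m) = v_2(n) = 0`.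
  Odd squares are `1 mod 8`: `D ≡ d (mod 8)`.
* `disc_five`: the same.
* `disc_leg`: `D ≡ -3 B² (mod p)`, `p ∤ B`, `p ≥ 5`, `D = d q²`: as before `p ∤ d`, `p ∤ m n`:
  `D n² = d m²`, so `legendreSym p D = legendreSym p d`, and `legendreSym p D = legendreSym p (-3)`.
-/

open NumberField IsDedekindDomain

namespace Pool.Agent.H22.WQ

theorem disc_eq {K : Type*} [Field K] [NumberField K] (σ : K ≃ₐ[ℚ] K) (hσ : IsCj K σ) (d : ℤ)
    (δ : K) (hδ : δ ^ 2 = (d : K)) (hδ0 : δ ≠ 0) (hσδ : σ δ = -δ)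
    (hspan : ∀ x : K, ∃ r s : ℚ, x = (r : K) + (s : K) * δ)
    {a b c : K} {g : ℚ} {A B C X Y Z : ℤ} (hco : Coef K σ a b c g A B C X Y Z) :
    ∃ q : ℚ, ((Z ^ 2 - 4 * A * B : ℤ) : ℚ) = d * q ^ 2 := by
  obtain ⟨r, s, hrs⟩ := hspan (a * σ b - b * σ a)
  have hr : (r : K) = 0 := by
    have h1 : σ (a * σ b - b * σ a) = -(a * σ b - b * σ a) := by
      rw [map_sub, map_mul, map_mul, hσ.inv, hσ.inv]
      ring
    rw [hrs, map_add, map_mul, hσδ, map_ratCast, map_ratCast] at h1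
    have h2 : (2 : K) * (r : K) = 0 := by linear_combination h1
    rcases mul_eq_zero.1 h2 with h3 | h3
    · exact absurd h3 two_ne_zero
    · exact h3
  rw [hr, zero_add] at hrs
  have hg : (g : ℚ) ≠ 0 := hco.gpos.ne'
  have hgK : (g : K) ≠ 0 := by exact_mod_cast hg
  have hA := hco.hA
  have hB := hco.hB
  have hZ := hco.hZ
  have key : (g : K) ^ 2 * ((Z : K) ^ 2 - 4 * (A : K) * (B : K)) = (d : K) * (s : K) ^ 2 := by
    have h1 : (g : K) ^ 2 * ((Z : K) ^ 2 - 4 * (A : K) * (B : K)) =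
        ((g : K) * Z) ^ 2 - 4 * ((g : K) * A) * ((g : K) * B) := by ring
    rw [h1, ← hZ, ← hA, ← hB, ← hδ]
    have h2 : (a * σ b + b * σ a) ^ 2 - 4 * (a * σ a) * (b * σ b) =
        (a * σ b - b * σ a) ^ 2 := by ring
    rw [h2, hrs]
    ring
  refine ⟨s / g, ?_⟩
  have key2 : g ^ 2 * ((Z : ℚ) ^ 2 - 4 * (A : ℚ) * (B : ℚ)) = (d : ℚ) * s ^ 2 := by
    exact_mod_cast key
  push_cast
  field_simp
  linear_combination key2

private theorem W6_core (d D : ℤ) (q : ℚ) (h : (D : ℚ) = d * q ^ 2) :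
    ∃ m n : ℤ, IsCoprime m n ∧ D * n ^ 2 = d * m ^ 2 := by
  refine ⟨q.num, q.den, Rat.isCoprime_num_den q, ?_⟩
  have h1 : (q.den : ℚ) ≠ 0 := by exact_mod_cast q.den_ne_zero
  have h2 : q * q.den = q.num := Rat.mul_den_eq_num q
  have h3 : (D : ℚ) * (q.den : ℚ) ^ 2 = d * (q.num : ℚ) ^ 2 := by
    rw [h, ← h2]
    ring
  exact_mod_cast h3

private theorem W6_prime {d D m n l : ℤ} (hd : Squarefree d) (hl : Prime l)
    (hmn : IsCoprime m n) (h : D * n ^ 2 = d * m ^ 2) (hD : ¬ l ∣ D) :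
    ¬ l ∣ d ∧ ¬ l ∣ m ∧ ¬ l ∣ n := by
  have hn : ¬ l ∣ n := by
    intro hn
    have hm : ¬ l ∣ m := fun hm => hl.not_isUnit (hmn.isUnit_of_dvd' hm hn)
    have h1 : l * l ∣ m ^ 2 * d := by
      have h2 : l * l ∣ n ^ 2 := by
        rw [sq]
        exact mul_dvd_mul hn hn
      rw [mul_comm (m ^ 2) d, ← h]
      exact h2.mul_left D
    have h3 : IsCoprime (l * l) (m ^ 2) := by
      have h4 : IsCoprime l m := (Prime.coprime_iff_not_dvd hl).2 hm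
      rw [← sq]
      exact h4.pow
    have h5 : l * l ∣ d := h3.dvd_of_dvd_mul_left h1
    exact hl.not_isUnit (hd l h5)
  have hDn : ¬ l ∣ d * m ^ 2 := by
    rw [← h]
    intro h1
    rcases hl.dvd_or_dvd h1 with h2 | h2
    · exact hD h2
    · exact hn (hl.dvd_of_dvd_pow h2)
  exact ⟨fun h1 => hDn (h1.mul_right _), fun h1 => hDn ((dvd_pow h1 two_ne_zero).mul_left _), hn⟩

private theorem W6_odd_sq {n : ℤ} (hn : ¬ (2 : ℤ) ∣ n) : ∃ t : ℤ, n ^ 2 = 8 * t + 1 := by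
  obtain ⟨k, hk⟩ : ∃ k, n = 2 * k + 1 := ⟨n / 2, by omega⟩
  obtain ⟨j, hj⟩ := Int.even_mul_succ_self k
  refine ⟨j, ?_⟩
  rw [hk]
  linear_combination 4 * hj

private theorem W6_mod (d D : ℤ) (hd : Squarefree d) (q : ℚ) (h : (D : ℚ) = d * q ^ 2)
    (hD : ¬ (2 : ℤ) ∣ D) : D % 8 = d % 8 := by
  obtain ⟨m, n, hmn, h1⟩ := W6_core d D q h
  obtain ⟨-, hm, hn⟩ := W6_prime hd Int.prime_two hmn h1 hD
  obtain ⟨t, ht⟩ := W6_odd_sq hn
  obtain ⟨s, hs⟩ := W6_odd_sq hm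
  rw [ht, hs] at h1
  have h2 : d - D = 8 * (D * t - d * s) := by linear_combination -h1
  exact Int.modEq_iff_dvd.2 ⟨_, h2⟩

theorem disc_one (d D : ℤ) (hd : Squarefree d) (q : ℚ) (h : (D : ℚ) = d * q ^ 2)
    (h8 : D % 8 = 1) : d % 8 = 1 := by
  rw [← W6_mod d D hd q h (by omega), h8]

theorem disc_five (d D : ℤ) (hd : Squarefree d) (q : ℚ) (h : (D : ℚ) = d * q ^ 2)
    (h8 : D % 8 = 5) : d % 8 = 5 := by
  rw [← W6_mod d D hd q h (by omega), h8]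

theorem disc_leg (p : ℕ) [Fact p.Prime] (hp : 5 ≤ p) (d D B : ℤ) (hd : Squarefree d) (q : ℚ)
    (h : (D : ℚ) = d * q ^ 2) (hB : ¬ (p : ℤ) ∣ B) (hD : (D : ZMod p) = -3 * (B : ZMod p) ^ 2) :
    legendreSym p d = legendreSym p (-3) := by
  have hpp : p.Prime := Fact.out
  obtain ⟨m, n, hmn, h1⟩ := W6_core d D q h
  have hB0 : (B : ZMod p) ≠ 0 := fun h2 => hB ((ZMod.intCast_zmod_eq_zero_iff_dvd B p).1 h2)
  have h3 : (3 : ZMod p) ≠ 0 := by
    intro h4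
    have h5 : ((3 : ℕ) : ZMod p) = 0 := by exact_mod_cast h4
    have h6 := (ZMod.natCast_eq_zero_iff 3 p).1 h5
    have := Nat.le_of_dvd (by norm_num) h6
    omega
  have hD0 : ¬ (p : ℤ) ∣ D := by
    intro h2
    have h4 := (ZMod.intCast_zmod_eq_zero_iff_dvd D p).2 h2
    rw [hD] at h4
    rcases mul_eq_zero.1 h4 with h5 | h5
    · exact h3 (neg_eq_zero.1 h5)
    · exact hB0 ((pow_eq_zero_iff two_ne_zero).1 h5)
  obtain ⟨-, hm, hn⟩ := W6_prime hd (Nat.prime_iff_prime_int.1 hpp) hmn h1 hD0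
  have hm0 : (m : ZMod p) ≠ 0 := fun h2 => hm ((ZMod.intCast_zmod_eq_zero_iff_dvd m p).1 h2)
  have hn0 : (n : ZMod p) ≠ 0 := fun h2 => hn ((ZMod.intCast_zmod_eq_zero_iff_dvd n p).1 h2)
  have e1 : legendreSym p (D * n ^ 2) = legendreSym p (d * m ^ 2) := by rw [h1]
  rw [legendreSym.mul, legendreSym.mul, legendreSym.sq_one' p hm0, legendreSym.sq_one' p hn0,
    mul_one, mul_one] at e1
  rw [← e1]
  have e2 : legendreSym p D = legendreSym p (-3 * B ^ 2) := by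
    unfold legendreSym
    congr 1
    rw [hD]
    push_cast
    ring
  rw [e2, legendreSym.mul, legendreSym.sq_one' p hB0, mul_one]

theorem disc_leg_gen (p : ℕ) [Fact p.Prime] (d D B e : ℤ) (hd : Squarefree d) (q : ℚ)
    (h : (D : ℚ) = d * q ^ 2) (hB : ¬ (p : ℤ) ∣ B) (he : ¬ (p : ℤ) ∣ e)
    (hD : (D : ZMod p) = e * (B : ZMod p) ^ 2) : legendreSym p d = legendreSym p e := by
  have hpp : p.Prime := Fact.out
  obtain ⟨m, n, hmn, h1⟩ := W6_core d D q h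
  have hB0 : (B : ZMod p) ≠ 0 := fun h2 => hB ((ZMod.intCast_zmod_eq_zero_iff_dvd B p).1 h2)
  have he0 : (e : ZMod p) ≠ 0 := fun h2 => he ((ZMod.intCast_zmod_eq_zero_iff_dvd e p).1 h2)
  have hD0 : ¬ (p : ℤ) ∣ D := by
    intro h2
    have h4 := (ZMod.intCast_zmod_eq_zero_iff_dvd D p).2 h2
    rw [hD] at h4
    rcases mul_eq_zero.1 h4 with h5 | h5
    · exact he0 h5
    · exact hB0 ((pow_eq_zero_iff two_ne_zero).1 h5)
  obtain ⟨-, hm, hn⟩ := W6_prime hd (Nat.prime_iff_prime_int.1 hpp) hmn h1 hD0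
  have hm0 : (m : ZMod p) ≠ 0 := fun h2 => hm ((ZMod.intCast_zmod_eq_zero_iff_dvd m p).1 h2)
  have hn0 : (n : ZMod p) ≠ 0 := fun h2 => hn ((ZMod.intCast_zmod_eq_zero_iff_dvd n p).1 h2)
  have e1 : legendreSym p (D * n ^ 2) = legendreSym p (d * m ^ 2) := by rw [h1]
  rw [legendreSym.mul, legendreSym.mul, legendreSym.sq_one' p hm0, legendreSym.sq_one' p hn0,
    mul_one, mul_one] at e1
  rw [← e1]
  have e2 : legendreSym p D = legendreSym p (e * B ^ 2) := by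
    unfold legendreSym
    congr 1
    rw [hD]
    push_cast
    ring
  rw [e2, legendreSym.mul, legendreSym.sq_one' p hB0, mul_one]

end Pool.Agent.H22.WQ
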