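import Pool.Agent.H22.WQ.KBase

/-!
# WQ W7: Lucas sequences modulo `p²`

`LV P Q n` is the Lucas sequence `V_n(P,Q)`.

* `LV_pow`: if `x + y = P`, `x y = Q` in a commutative ring then `x^n + y^n = LV P Q n` (induction).
* `LV_scale`: `LV (k P) (k² Q) n = k^n LV P Q n` (induction).
* `LV_VL`: `VL n = LV 3 6 n`.
* `LV_congr`: `p` an odd prime, `P ≡ P'`, `Q ≡ Q' (mod p)`: `p² ∣ LV P Q p - LV P' Q' p`.
  Proof: in `ℤ[P,Q]`, `V_p(P,Q) = P^p + p G(P,Q)` with an integer polynomial `G`: because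
  `x^p + y^p = (x+y)^p - ∑_{0<i<p} C(p,i) x^i y^(p-i)`, all binomial coefficients are divisible by
  `p`, and pairing `i` with `p-i` (`p` odd): `x^i y^(p-i) + x^(p-i) y^i = Q^i V_{p-2i}(P,Q)` for
  `i < p/2`.  So `V_p(P,Q) = P^p - ∑_{1 ≤ i ≤ (p-1)/2} C(p,i) Q^i V_{p-2i}(P,Q)` (an identity in the
  integers; prove it for `x, y` in a ring containing roots of `T² - P T + Q`, e.g. `ℂ`, or `AdjoinRoot`,
  and transfer by injectivity of `ℤ → ℂ`).  `P ≡ P' (mod p)` gives `P^p ≡ P'^p (mod p²)`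
  (`Int.ModEq.pow_card_sub..`, `dvd_sub_pow_of_dvd_sub`), and the sum is congruent modulo
  `p * p` because `V_k(P,Q) mod p` depends only on `P, Q mod p`.
-/

open NumberField IsDedekindDomain

namespace Pool.Agent.H22.WQ

/-- the Lucas sequence `V_n(P,Q)` -/
def LV (P Q : ℤ) : ℕ → ℤ
  | 0 => 2
  | 1 => P
  | (n + 2) => P * LV P Q (n + 1) - Q * LV P Q n

theorem LV_pow {R : Type*} [CommRing R] (x y : R) (P Q : ℤ) (h1 : x + y = P) (h2 : x * y = Q)
    (n : ℕ) : x ^ n + y ^ n = (LV P Q n : R) := by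
  induction n using Nat.twoStepInduction with
  | zero =>
    simp only [pow_zero, LV]
    push_cast
    ring
  | one =>
    simp only [pow_one, LV]
    exact h1
  | more n ih1 ih2 =>
    have e : x ^ (n + 2) + y ^ (n + 2) = (x + y) * (x ^ (n + 1) + y ^ (n + 1)) - (x * y) * (x ^ n + y ^ n) := by
      ring
    rw [e, ih1, ih2, h1, h2]
    simp only [LV]
    push_cast
    ring

theorem LV_scale (k P Q : ℤ) (n : ℕ) : LV (k * P) (k ^ 2 * Q) n = k ^ n * LV P Q n := by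
  induction n using Nat.twoStepInduction with
  | zero => simp only [LV, pow_zero, one_mul]
  | one => simp only [LV, pow_one]
  | more n ih1 ih2 =>
    simp only [LV]
    rw [ih1, ih2]
    ring

theorem LV_VL (n : ℕ) : LV 3 6 n = VL n := by
  induction n using Nat.twoStepInduction with
  | zero => simp only [LV, VL]
  | one => simp only [LV, VL]
  | more n ih1 ih2 =>
    simp only [LV, VL]
    rw [ih1, ih2]

/-- the Lucas sequence `U_n(P,Q)` -/
private def W7_U (P Q : ℤ) : ℕ → ℤ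
  | 0 => 0
  | 1 => 1
  | (n + 2) => P * W7_U P Q (n + 1) - Q * W7_U P Q n

private theorem W7_VU (P Q : ℤ) (n : ℕ) :
    LV P Q (n + 1) = P * W7_U P Q (n + 1) - 2 * Q * W7_U P Q n := by
  induction n using Nat.twoStepInduction with
  | zero =>
    simp only [LV, W7_U]
    ring
  | one =>
    simp only [LV, W7_U]
    ring
  | more n ih1 ih2 =>
    have e1 : LV P Q (n + 2 + 1) = P * LV P Q (n + 1 + 1) - Q * LV P Q (n + 1) := rfl
    have e2 : W7_U P Q (n + 2 + 1) = P * W7_U P Q (n + 1 + 1) - Q * W7_U P Q (n + 1) := rfl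
    have e3 : W7_U P Q (n + 2) = P * W7_U P Q (n + 1) - Q * W7_U P Q n := rfl
    rw [e1, ih1, ih2, e2, e3]
    ring

private theorem W7_der (P Q t a b : ℤ) (n : ℕ) :
    ∃ e : ℤ, LV (P + t * a) (Q + t * b) (n + 1) =
      LV P Q (n + 1) + ((n : ℤ) + 1) * t * (a * W7_U P Q (n + 1) - b * W7_U P Q n) + t ^ 2 * e := by
  induction n using Nat.twoStepInduction with
  | zero =>
    refine ⟨0, ?_⟩
    simp only [LV, W7_U]
    push_cast
    ring
  | one =>
    refine ⟨a ^ 2, ?_⟩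
    simp only [LV, W7_U]
    push_cast
    ring
  | more n ih1 ih2 =>
    obtain ⟨e1, h1⟩ := ih1
    obtain ⟨e2, h2⟩ := ih2
    have f1 : LV (P + t * a) (Q + t * b) (n + 2 + 1) =
      (P + t * a) * LV (P + t * a) (Q + t * b) (n + 1 + 1) - (Q + t * b) * LV (P + t * a) (Q + t * b) (n + 1) := rfl
    have f2 : LV P Q (n + 2 + 1) = P * LV P Q (n + 1 + 1) - Q * LV P Q (n + 1) := rfl
    have g1 := W7_VU P Q n
    have g2 := W7_VU P Q (n + 1)
    have u1 : W7_U P Q (n + 1 + 1) = P * W7_U P Q (n + 1) - Q * W7_U P Q n := rfl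
    have u2 : W7_U P Q (n + 2 + 1) = P * W7_U P Q (n + 1 + 1) - Q * W7_U P Q (n + 1) := rfl
    have u3 : W7_U P Q (n + 2) = W7_U P Q (n + 1 + 1) := rfl
    refine ⟨a * (((n : ℤ) + 2) * (a * W7_U P Q (n + 1 + 1) - b * W7_U P Q (n + 1))) -
      b * (((n : ℤ) + 1) * (a * W7_U P Q (n + 1) - b * W7_U P Q n)) + (P + t * a) * e2 - (Q + t * b) * e1, ?_⟩
    rw [f1, h1, h2, f2, g1, g2, u2, u3, u1]
    push_cast
    ring

theorem LV_congr (p : ℕ) (hp : p.Prime) (hp3 : 3 ≤ p) (P Q P' Q' : ℤ) (h1 : (p : ℤ) ∣ P - P')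
    (h2 : (p : ℤ) ∣ Q - Q') : ((p : ℤ)) ^ 2 ∣ LV P Q p - LV P' Q' p := by
  obtain ⟨a, ha⟩ := h1
  obtain ⟨b, hb⟩ := h2
  have hP : P = P' + (p : ℤ) * a := by linarith
  have hQ : Q = Q' + (p : ℤ) * b := by linarith
  obtain ⟨m, rfl⟩ : ∃ m, p = m + 1 := ⟨p - 1, by omega⟩
  obtain ⟨e, he⟩ := W7_der P' Q' ((m + 1 : ℕ) : ℤ) a b m
  rw [hP, hQ, he]
  refine ⟨(a * W7_U P' Q' (m + 1) - b * W7_U P' Q' m) + e, ?_⟩
  push_cast
  ring

end Pool.Agent.H22.WQ
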