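import Pool.Agent.H22.WQ.KBase
import Pool.Agent.H22.WQ.W7

/-!
# WQ W8: the exotic case of type (2:2:3:-1): `V_p(3,6) ≡ 3^p (mod p²)`

Hypotheses modulo `p`: `B = A`, `2C = 3A`, `2Z = -A`, `p ∤ A` (so `p ∤ B, C`), `X = -2B - Z`.  Then
`2X = -4A + A = -3A = -2C`, `X ≡ -C`, and `6 B C ≡ 4 C²`..., i.e. `3 B ≡ 2 C`, so
`9 B C ≡ 6 C² (mod p)`.

1. In `K` put `x = b/c`, `y = σ b/σ c = σ x`, `t = a/c`.  `x^p + t^p = -1`.
   For every `v` above `p`: `v a = v b = v c = mx` (`no_div` type argument: given as `hN`), so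
   `v x = v y = v t = 1`.  `C x y = B` (`c σc x y = b σb`) and `C (x + y) = X`
   (`g X = b σc + c σb = c σc (x + y) = g C (x+y)`).
   So `x + y = X / C`, `v(x + y + 1) < 1` as `X ≡ -C (mod p)`, `p ∤ C`.  Also
   `v(x + t + 1) = v((a+b+c)/c) < 1` (`hs`).  So `v(y - t) < 1` for all `v` above `p`.
2. `y^p - t^p = y^p + x^p + 1` is a rational number `ρ` (fixed by `σ`).  With `y = t + ε`,
   `v ε < 1`: `v(y^p - t^p) ≤ max (v(p) v(ε), v(ε)^p)`.  Now `v(p) = exp(-e)` with `e ≤ 2`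
   (`[K:ℚ] = 2`) and `v(ε) ≤ exp(-1)`, so `v(ε)^(p-1) ≤ exp(-4) < v(p)` and
   `v(ρ) < v(p)` for all `v` above `p`.
   (To avoid `e`: it suffices that `v(ρ) < v(p)`; if `v(p) ≥ exp(-2)`.  `e ≤ 2`: ramification index
   is at most the degree.)
   Multiply by `C^p`: `C^p (x^p + y^p) = V_p(X, B C)` (`LV_pow` with `C x`, `C y`: sum `X`, product
   `B C`).  So the integer `N = LV X (B C) p + C^p = C^p ρ` has `v(N) < v(p)` for a `v` above `p`, hence
   `p² ∣ N` (`N = p^k u`, `p ∤ u`: `v(N) = v(p)^k`, so `k ≥ 2`).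
3. `LV (-3X) (9 B C) p = (-3)^p LV X (BC) p ≡ (-3)^p (-C^p) = 3^p C^p (mod p²)` (`p` odd), and
   `LV (-3X) (9BC) p ≡ LV (3C) (6C²) p = C^p LV 3 6 p` (`LV_congr`, `LV_scale`).  So
   `p² ∣ C^p (VL p - 3^p)`, `p ∤ C`.
-/

open NumberField IsDedekindDomain

namespace Pool.Agent.H22.WQ

private theorem W8_le {x : WithZero (Multiplicative ℤ)} (h : x < 1) : x ≤ WithZero.exp (-1 : ℤ) := by
  by_cases hx : x = 0
  · rw [hx]
    exact zero_le
  · apply WithZero.le_exp_of_log_le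
    rw [← WithZero.exp_zero (M := ℤ)] at h
    have := (WithZero.log_lt_iff_lt_exp hx).2 h
    omega

private theorem W8_norm {K : Type*} [Field K] [NumberField K] (hK : Module.finrank ℚ K = 2) (p : ℕ) :
    Ideal.absNorm (Ideal.span {(p : 𝓞 K)}) = p ^ 2 := by
  rw [Ideal.absNorm_span_natCast, RingOfIntegers.rank, hK]

private theorem W8_exists {K : Type*} [Field K] [NumberField K] (hK : Module.finrank ℚ K = 2) (p : ℕ)
    (hp : p.Prime) : ∃ v : HeightOneSpectrum (𝓞 K), (p : 𝓞 K) ∈ v.asIdeal := by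
  have h1 : Ideal.span {(p : 𝓞 K)} ≠ ⊤ := by
    intro h
    have h2 := W8_norm hK p
    rw [h, Ideal.absNorm_top] at h2
    have := hp.one_lt
    nlinarith
  obtain ⟨M, hM, hle⟩ := Ideal.exists_le_maximal _ h1
  have hpM : (p : 𝓞 K) ∈ M := hle (Ideal.mem_span_singleton_self _)
  refine ⟨⟨M, hM.isPrime, ?_⟩, hpM⟩
  rintro rfl
  rw [Ideal.mem_bot] at hpM
  exact hp.ne_zero (by exact_mod_cast hpM)

private theorem W8_e {K : Type*} [Field K] [NumberField K] (hK : Module.finrank ℚ K = 2)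
    (v : HeightOneSpectrum (𝓞 K)) (p : ℕ) (hp : p.Prime) (hv : (p : 𝓞 K) ∈ v.asIdeal) :
    WithZero.exp (-2 : ℤ) ≤ v.valuation K (p : K) := by
  have e1 : (p : K) = algebraMap (𝓞 K) K (p : 𝓞 K) := by simp
  rw [e1, v.valuation_of_algebraMap]
  by_contra hc
  push Not at hc
  have h3 : v.intValuation (p : 𝓞 K) ≤ WithZero.exp (-((3 : ℕ) : ℤ)) := by
    by_cases hz : v.intValuation (p : 𝓞 K) = 0
    · rw [hz]
      exact zero_le
    · apply WithZero.le_exp_of_log_le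
      have := (WithZero.log_lt_iff_lt_exp hz).2 hc
      push_cast
      omega
  rw [v.intValuation_le_pow_iff_dvd] at h3
  have h4 : Ideal.absNorm v.asIdeal ^ 3 ∣ p ^ 2 := by
    rw [← W8_norm hK p, ← map_pow]
    exact map_dvd Ideal.absNorm h3
  have h5 : Ideal.absNorm v.asIdeal ∣ p ^ 2 := by
    rw [← W8_norm hK p]
    exact map_dvd Ideal.absNorm (Ideal.dvd_span_singleton.2 hv)
  obtain ⟨i, _, hi⟩ := (Nat.dvd_prime_pow hp).1 h5
  have hi0 : i ≠ 0 := by
    rintro rfl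
    rw [pow_zero, Ideal.absNorm_eq_one_iff] at hi
    exact v.isPrime.ne_top hi
  rw [hi, ← pow_mul] at h4
  have := (Nat.pow_dvd_pow_iff_le_right hp.one_lt).1 h4
  omega

/-- an integer prime to `p` is a unit at `v` -/
private theorem W8_unit {K : Type*} [Field K] [NumberField K] (v : HeightOneSpectrum (𝓞 K)) (p : ℕ)
    (hp : p.Prime) (hv : (p : 𝓞 K) ∈ v.asIdeal) (m : ℤ) (hm : ¬ (p : ℤ) ∣ m) :
    v.valuation K (m : K) = 1 := by
  have e1 : (m : K) = algebraMap (𝓞 K) K (m : 𝓞 K) := by simp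
  rw [e1, v.valuation_eq_one_iff_notMem]
  intro hmem
  have hco : IsCoprime (p : ℤ) m := by
    rw [Int.isCoprime_iff_gcd_eq_one]
    rcases (Nat.Prime.eq_one_or_self_of_dvd hp _ (Int.natCast_dvd_natCast.1 (by
      have := Int.gcd_dvd_left (a := (p : ℤ)) (b := m)
      exact this))) with h | h
    · exact h
    · exfalso
      apply hm
      have h1 := Int.gcd_dvd_right (a := (p : ℤ)) (b := m)
      rw [h] at h1
      exact h1
  obtain ⟨r, s, hrs⟩ := hco
  have h1 : (1 : 𝓞 K) = (r : 𝓞 K) * (p : 𝓞 K) + (s : 𝓞 K) * (m : 𝓞 K) := by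
    have := congrArg (fun z : ℤ => (z : 𝓞 K)) hrs
    push_cast at this
    exact this.symm
  apply v.isPrime.ne_top
  rw [Ideal.eq_top_iff_one, h1]
  exact Ideal.add_mem _ (Ideal.mul_mem_left _ _ hv) (Ideal.mul_mem_left _ _ hmem)

theorem exotic {K : Type*} [Field K] [NumberField K] (hK : Module.finrank ℚ K = 2)
    (σ : K ≃ₐ[ℚ] K) (hσ : IsCj K σ) {a b c : K} {g : ℚ} {A B C X Y Z : ℤ}
    (hco : Coef K σ a b c g A B C X Y Z) (p : ℕ) (hp : p.Prime) (hp5 : 5 ≤ p)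
    (h : a ^ p + b ^ p + c ^ p = 0) (ha : a ≠ 0) (hb : b ≠ 0) (hc : c ≠ 0)
    (hN : ∀ v : HeightOneSpectrum (𝓞 K), (p : 𝓞 K) ∈ v.asIdeal → Nd v a b c)
    (hs : ∀ v : HeightOneSpectrum (𝓞 K), (p : 𝓞 K) ∈ v.asIdeal →
      v.valuation K (a + b + c) < v.valuation K c)
    (hC0 : ¬ (p : ℤ) ∣ C) (hX : (p : ℤ) ∣ X + C) (hB : (p : ℤ) ∣ 3 * B - 2 * C) :
    ((p : ℤ)) ^ 2 ∣ VL p - 3 ^ p := by
  obtain ⟨v, hv⟩ := W8_exists hK p hp
  obtain ⟨w, hw⟩ : ∃ w : Valuation K (WithZero (Multiplicative ℤ)), w = v.valuation K := ⟨_, rfl⟩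
  have hwp : w (p : K) < 1 := by
    have e1 : (p : K) = algebraMap (𝓞 K) K (p : 𝓞 K) := by simp
    rw [hw, e1]
    exact (v.valuation_lt_one_iff_mem _).2 hv
  have hwp2 : WithZero.exp (-2 : ℤ) ≤ w (p : K) := by
    rw [hw]
    exact W8_e hK v p hp hv
  have hwu : ∀ m : ℤ, ¬ (p : ℤ) ∣ m → w (m : K) = 1 := by
    intro m hm
    rw [hw]
    exact W8_unit v p hp hv m hm
  have hwi : ∀ m : ℤ, w (m : K) ≤ 1 := by
    intro m
    have e1 : (m : K) = algebraMap (𝓞 K) K (m : 𝓞 K) := by simp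
    rw [hw, e1]
    exact v.valuation_le_one _
  have hwd : ∀ m : ℤ, (p : ℤ) ∣ m → w (m : K) < 1 := by
    rintro m ⟨k, rfl⟩
    push_cast
    rw [map_mul]
    calc w (p : K) * w (k : K) ≤ w (p : K) * 1 := mul_le_mul_right (hwi k) _
      _ = w (p : K) := mul_one _
      _ < 1 := hwp
  have hNd := hN v hv
  have hsv := hs v hv
  rw [← hw] at hsv
  unfold Nd at hNd
  rw [← hw] at hNd
  obtain ⟨hab, hbc⟩ := hNd
  have hwc0 : w c ≠ 0 := (Valuation.ne_zero_iff w).2 hc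
  -- the elements
  have hσc : σ c ≠ 0 := by
    intro h0
    exact hc ((map_eq_zero σ).1 h0)
  have hg : (g : K) ≠ 0 := by
    have := hco.gpos
    exact_mod_cast this.ne'
  obtain ⟨x, hx⟩ : ∃ x : K, x = b / c := ⟨_, rfl⟩
  obtain ⟨y, hy⟩ : ∃ y : K, y = σ b / σ c := ⟨_, rfl⟩
  obtain ⟨t, ht⟩ : ∃ t : K, t = a / c := ⟨_, rfl⟩
  have hσx : σ x = y := by rw [hx, hy, map_div₀]
  have hσy : σ y = x := by rw [← hσx, hσ.inv]
  have hCxy : (C : K) * (x * y) = B := by
    apply mul_left_cancel₀ hg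
    rw [← mul_assoc, ← hco.hC, ← hco.hB, hx, hy]
    field_simp
  have hCx : (C : K) * (x + y) = X := by
    apply mul_left_cancel₀ hg
    rw [← mul_assoc, ← hco.hC, ← hco.hX, hx, hy]
    field_simp
  have hxt : x ^ p + t ^ p = -1 := by
    have hcp : c ^ p ≠ 0 := pow_ne_zero _ hc
    rw [hx, ht, div_pow, div_pow]
    field_simp
    linear_combination h
  have hwC : w (C : K) = 1 := hwu C hC0
  have hwt : w t = 1 := by
    rw [ht, map_div₀, hab, hbc, div_self hwc0]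
  have hwxt : w (x + t + 1) < 1 := by
    have e1 : x + t + 1 = (a + b + c) / c := by
      rw [hx, ht]
      field_simp
      ring
    rw [e1, map_div₀]
    exact (div_lt_one₀ (zero_lt_iff.2 hwc0)).2 hsv
  have hwxy : w (x + y + 1) < 1 := by
    have e1 : (C : K) * (x + y + 1) = ((X + C : ℤ) : K) := by
      push_cast
      rw [← hCx]
      ring
    have e2 : w (C : K) * w (x + y + 1) = w (((X + C : ℤ) : K)) := by
      rw [← map_mul, e1]
    rw [hwC, one_mul] at e2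
    rw [e2]
    exact hwd _ hX
  have hwe : w (y - t) < 1 := by
    have e1 : y - t = (x + y + 1) - (x + t + 1) := by ring
    rw [e1]
    exact (Valuation.map_sub w _ _).trans_lt (max_lt hwxy hwxt)
  -- the difference of the powers
  have hdiff : w (y ^ p - t ^ p) < w (p : K) := by
    obtain ⟨r, hr⟩ := exists_add_pow_prime_eq hp (⟨t, hwt.le⟩ : w.integer) (⟨y - t, hwe.le⟩ : w.integer)
    have hr' := congrArg (fun z : w.integer => (z : K)) hr
    simp only [Subring.coe_add, Subring.coe_pow, Subring.coe_mul, Subring.coe_natCast] at hr'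
    have e1 : t + (y - t) = y := by ring
    rw [e1] at hr'
    have e2 : y ^ p - t ^ p = (y - t) ^ p + (p : K) * t * (y - t) * (r : K) := by
      rw [hr']
      ring
    rw [e2]
    refine (Valuation.map_add w _ _).trans_lt (max_lt ?_ ?_)
    · rw [map_pow]
      refine lt_of_lt_of_le ?_ hwp2
      calc w (y - t) ^ p ≤ (WithZero.exp (-1 : ℤ)) ^ p := pow_le_pow_left₀ zero_le (W8_le hwe) p
        _ = WithZero.exp (p • (-1 : ℤ)) := by rw [WithZero.exp_nsmul]
        _ < WithZero.exp (-2 : ℤ) := by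
            rw [WithZero.exp_lt_exp]
            simp only [nsmul_eq_mul]
            have : (5 : ℤ) ≤ p := by exact_mod_cast hp5
            linarith
    · rw [map_mul, map_mul, map_mul, hwt, mul_one]
      have hwr : w (r : K) ≤ 1 := r.2
      have hp0 : 0 < w (p : K) := zero_lt_iff.2 ((Valuation.ne_zero_iff w).2 (by exact_mod_cast hp.ne_zero))
      calc w (p : K) * w (y - t) * w (r : K) ≤ w (p : K) * w (y - t) * 1 := mul_le_mul_right hwr _
        _ = w (p : K) * w (y - t) := mul_one _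
        _ < w (p : K) * 1 := (mul_lt_mul_iff_right₀ hp0).2 hwe
        _ = w (p : K) := mul_one _
  -- the integer
  obtain ⟨N, hNdef⟩ : ∃ N : ℤ, N = LV X (B * C) p + C ^ p := ⟨_, rfl⟩
  have hNK : (N : K) = (C : K) ^ p * (y ^ p - t ^ p) := by
    have e1 := LV_pow ((C : K) * x) ((C : K) * y) X (B * C) (by rw [← hCx]; ring) (by
      push_cast
      rw [← hCxy]
      ring) p
    rw [hNdef]
    push_cast
    rw [← e1, mul_pow, mul_pow]
    linear_combination (C : K) ^ p * hxt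
  have hwN : w (N : K) < w (p : K) := by
    rw [hNK, map_mul, map_pow, hwC, one_pow, one_mul]
    exact hdiff
  have hpN : (p : ℤ) ∣ N := by
    by_contra hcon
    rw [hwu N hcon] at hwN
    exact absurd (hwN.trans hwp) (lt_irrefl _)
  obtain ⟨N1, hN1⟩ := hpN
  have hpN1 : (p : ℤ) ∣ N1 := by
    by_contra hcon
    rw [hN1] at hwN
    push_cast at hwN
    rw [map_mul, hwu N1 hcon, mul_one] at hwN
    exact absurd hwN (lt_irrefl _)
  have hp2N : (p : ℤ) ^ 2 ∣ N := by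
    obtain ⟨N2, hN2⟩ := hpN1
    exact ⟨N2, by rw [hN1, hN2]; ring⟩
  -- conclusion
  have hodd : Odd p := hp.odd_of_ne_two (by omega)
  have hcongr := LV_congr p hp (by omega) (-3 * X) ((-3) ^ 2 * (B * C)) (C * 3) (C ^ 2 * 6) (by
    obtain ⟨k, hk⟩ := hX
    exact ⟨-3 * k, by linear_combination (-3) * hk⟩) (by
    obtain ⟨k, hk⟩ := hB
    exact ⟨3 * C * k, by linear_combination 3 * C * hk⟩)
  rw [LV_scale, LV_scale, LV_VL, hodd.neg_pow] at hcongr
  have hfin : (p : ℤ) ^ 2 ∣ C ^ p * (VL p - 3 ^ p) := by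
    have e1 : C ^ p * (VL p - 3 ^ p) = (-3 ^ p) * N - (-3 ^ p * LV X (B * C) p - C ^ p * VL p) := by
      rw [hNdef]
      ring
    rw [e1]
    exact dvd_sub (Dvd.dvd.mul_left hp2N _) hcongr
  have hcop : IsCoprime ((p : ℤ) ^ 2) (C ^ p) := by
    apply IsCoprime.pow
    exact (Nat.prime_iff_prime_int.1 hp).coprime_iff_not_dvd.2 hC0
  exact hcop.dvd_of_dvd_mul_left hfin

end Pool.Agent.H22.WQ
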