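import Pool.Agent.H22.WQ.PairRel
import Pool.Agent.H22.WQ.V6
import Pool.Agent.H22.WQ.W0
import Pool.Agent.H22.WQ.W1
import Pool.Agent.H22.WQ.W2
import Pool.Agent.H22.WQ.W3
import Pool.Agent.H22.WQ.W4
import Pool.Agent.H22.WQ.W5
import Pool.Agent.H22.WQ.W6
import Pool.Agent.H22.WQ.W8

/-!
# WQ Cls: assembly
-/

open NumberField IsDedekindDomain

namespace Pool.Agent.H22.WQ

theorem mx_rot {K : Type*} [Field K] [NumberField K] (v : HeightOneSpectrum (𝓞 K)) (a b c : K) :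
    mx v b c a = mx v a b c := by
  unfold mx
  rw [← max_assoc, max_comm]

theorem Coef.rot {K : Type*} [Field K] [NumberField K] {σ : K ≃ₐ[ℚ] K} {a b c : K} {g : ℚ}
    {A B C X Y Z : ℤ} (h : Coef K σ a b c g A B C X Y Z) : Coef K σ b c a g B C A Y Z X where
  gpos := h.gpos
  hA := h.hB
  hB := h.hC
  hC := h.hA
  hX := h.hY
  hY := h.hZ
  hZ := h.hX
  pab := fun l hl hh => h.pbc l hl hh
  pbc := fun l hl hh => h.pca l hl hh
  pca := fun l hl hh => h.pab l hl hh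
  hv := fun v => by rw [h.hv v, ← mx_rot v a b c, ← mx_rot v (σ a) (σ b) (σ c)]

theorem parity : ∀ α β γ ξ η ζ : ZMod 2, γ = α + β + ζ → ξ = -2 * β - ζ → η = -2 * α - ζ →
    ¬ (α = 0 ∧ ζ = 0 ∧ β = 0) →
    ((α = 0 ∧ β = 1 ∧ γ = 1 ∧ ζ = 0 ∧ kk α ζ β = 4 ∧ kk β ξ γ = 2 ∧ kk γ η α = 0) ∨
     (β = 0 ∧ γ = 1 ∧ α = 1 ∧ ξ = 0 ∧ kk β ξ γ = 4 ∧ kk γ η α = 2 ∧ kk α ζ β = 0) ∨
     (γ = 0 ∧ α = 1 ∧ β = 1 ∧ η = 0 ∧ kk γ η α = 4 ∧ kk α ζ β = 2 ∧ kk β ξ γ = 0)) ∨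
    ((α = 0 ∧ β = 0 ∧ γ = 1 ∧ ζ = 1 ∧ kk α ζ β = 2 ∧ kk β ξ γ = 3 ∧ kk γ η α = 1) ∨
     (β = 0 ∧ γ = 0 ∧ α = 1 ∧ ξ = 1 ∧ kk β ξ γ = 2 ∧ kk γ η α = 3 ∧ kk α ζ β = 1) ∨
     (γ = 0 ∧ α = 0 ∧ β = 1 ∧ η = 1 ∧ kk γ η α = 2 ∧ kk α ζ β = 3 ∧ kk β ξ γ = 1)) ∨
    (α = 1 ∧ β = 1 ∧ γ = 1 ∧ ζ = 1 ∧ kk α ζ β = 2 ∧ kk β ξ γ = 2 ∧ kk γ η α = 2) := by
  have key : ∀ α β ζ : ZMod 2, ¬ (α = 0 ∧ ζ = 0 ∧ β = 0) →
    ((α = 0 ∧ β = 1 ∧ α + β + ζ = 1 ∧ ζ = 0 ∧ kk α ζ β = 4 ∧ kk β (-2 * β - ζ) (α + β + ζ) = 2 ∧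
        kk (α + β + ζ) (-2 * α - ζ) α = 0) ∨
     (β = 0 ∧ α + β + ζ = 1 ∧ α = 1 ∧ -2 * β - ζ = 0 ∧ kk β (-2 * β - ζ) (α + β + ζ) = 4 ∧
        kk (α + β + ζ) (-2 * α - ζ) α = 2 ∧ kk α ζ β = 0) ∨
     (α + β + ζ = 0 ∧ α = 1 ∧ β = 1 ∧ -2 * α - ζ = 0 ∧ kk (α + β + ζ) (-2 * α - ζ) α = 4 ∧
        kk α ζ β = 2 ∧ kk β (-2 * β - ζ) (α + β + ζ) = 0)) ∨
    ((α = 0 ∧ β = 0 ∧ α + β + ζ = 1 ∧ ζ = 1 ∧ kk α ζ β = 2 ∧ kk β (-2 * β - ζ) (α + β + ζ) = 3 ∧
        kk (α + β + ζ) (-2 * α - ζ) α = 1) ∨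
     (β = 0 ∧ α + β + ζ = 0 ∧ α = 1 ∧ -2 * β - ζ = 1 ∧ kk β (-2 * β - ζ) (α + β + ζ) = 2 ∧
        kk (α + β + ζ) (-2 * α - ζ) α = 3 ∧ kk α ζ β = 1) ∨
     (α + β + ζ = 0 ∧ α = 0 ∧ β = 1 ∧ -2 * α - ζ = 1 ∧ kk (α + β + ζ) (-2 * α - ζ) α = 2 ∧
        kk α ζ β = 3 ∧ kk β (-2 * β - ζ) (α + β + ζ) = 1)) ∨
    (α = 1 ∧ β = 1 ∧ α + β + ζ = 1 ∧ ζ = 1 ∧ kk α ζ β = 2 ∧
        kk β (-2 * β - ζ) (α + β + ζ) = 2 ∧ kk (α + β + ζ) (-2 * α - ζ) α = 2) := by
    unfold kk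
    decide
  intro α β γ ξ η ζ h1 h2 h3 h4
  subst h1 h2 h3
  exact key α β ζ h4

/-- all the standing data -/
structure Dat (p : ℕ) [Fact p.Prime] (K : Type*) [Field K] [NumberField K] (σ : K ≃ₐ[ℚ] K)
    (d : ℤ) (a b c : K) (g : ℚ) (A B C X Y Z : ℤ) : Prop where
  hp5 : 5 ≤ p
  hK : Module.finrank ℚ K = 2
  hσ : IsCj K σ
  hd : Squarefree d
  ha : a ≠ 0
  hb : b ≠ 0
  hc : c ≠ 0
  h : a ^ p + b ^ p + c ^ p = 0
  co : Coef K σ a b c g A B C X Y Z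
  m2 : (C : ZMod 2) = A + B + Z ∧ (X : ZMod 2) = -2 * B - Z ∧ (Y : ZMod 2) = -2 * A - Z
  mp : (C : ZMod p) = A + B + Z ∧ (X : ZMod p) = -2 * B - Z ∧ (Y : ZMod p) = -2 * A - Z
  r1 : Rl p (kk A Z B) A Z B
  r2 : Rl p (kk B X C) B X C
  r3 : Rl p (kk C Y A) C Y A
  dz : ∃ q : ℚ, ((Z ^ 2 - 4 * A * B : ℤ) : ℚ) = d * q ^ 2
  dx : ∃ q : ℚ, ((X ^ 2 - 4 * B * C : ℤ) : ℚ) = d * q ^ 2
  dy : ∃ q : ℚ, ((Y ^ 2 - 4 * C * A : ℤ) : ℚ) = d * q ^ 2

theorem Dat.rot {p : ℕ} [Fact p.Prime] {K : Type*} [Field K] [NumberField K] {σ : K ≃ₐ[ℚ] K}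
    {d : ℤ} {a b c : K} {g : ℚ} {A B C X Y Z : ℤ} (h : Dat p K σ d a b c g A B C X Y Z) :
    Dat p K σ d b c a g B C A Y Z X where
  hp5 := h.hp5
  hK := h.hK
  hσ := h.hσ
  hd := h.hd
  ha := h.hb
  hb := h.hc
  hc := h.ha
  h := by rw [← h.h]; ring
  co := h.co.rot
  m2 := by
    obtain ⟨h1, h2, h3⟩ := h.m2
    refine ⟨?_, ?_, ?_⟩
    · rw [h1, h2]; ring
    · rw [h1, h2, h3]; ring
    · rw [h2]; ring
  mp := by
    obtain ⟨h1, h2, h3⟩ := h.mp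
    refine ⟨?_, ?_, ?_⟩
    · rw [h1, h2]; ring
    · rw [h1, h2, h3]; ring
    · rw [h2]; ring
  r1 := h.r2
  r2 := h.r3
  r3 := h.r1
  dz := h.dx
  dx := h.dy
  dy := h.dz

/-- case (I) with the variable `a` -/
def CI (p : ℕ) {K : Type*} [Field K] [NumberField K] (a b c : K) : Prop :=
  ∀ v : HeightOneSpectrum (𝓞 K), ((2 : 𝓞 K) ∈ v.asIdeal ∨ (p : 𝓞 K) ∈ v.asIdeal) → Dv v a b c

/-- case (II) with the variables `a, b` -/
def CII (p : ℕ) {K : Type*} [Field K] [NumberField K] (a b c : K) : Prop :=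
  ∀ r : ℕ, (r = 2 ∨ r = p) →
    (∃ v : HeightOneSpectrum (𝓞 K), (r : 𝓞 K) ∈ v.asIdeal ∧ Dv v a b c) ∧
    (∃ v : HeightOneSpectrum (𝓞 K), (r : 𝓞 K) ∈ v.asIdeal ∧ Dv v b c a)

/-- case (III) -/
def CIII (p : ℕ) [Fact p.Prime] (d : ℤ) {K : Type*} [Field K] [NumberField K] (a b c : K) : Prop :=
  (∀ v : HeightOneSpectrum (𝓞 K), (p : 𝓞 K) ∈ v.asIdeal → Nd v a b c) ∧
    ((p : ℤ)) ^ 2 ∣ VL p - 3 ^ p ∧ legendreSym p d = legendreSym p (-15)

/-- case (IV) -/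
def CIV (p : ℕ) [Fact p.Prime] (d : ℤ) {K : Type*} [Field K] [NumberField K] (a b c : K) : Prop :=
  (∀ v : HeightOneSpectrum (𝓞 K), ((2 : 𝓞 K) ∈ v.asIdeal ∨ (p : 𝓞 K) ∈ v.asIdeal) → Nd v a b c) ∧
    legendreSym p d = legendreSym p (-3) ∧
    ∀ v : HeightOneSpectrum (𝓞 K), (p : 𝓞 K) ∈ v.asIdeal →
      v.valuation K (a ^ 2 + a * b + b ^ 2) < v.valuation K a ^ 2 ∧
      v.valuation K (a + b + c) < v.valuation K a

theorem zmod_zero {p : ℕ} (n : ℤ) : (n : ZMod p) = 0 ↔ (p : ℤ) ∣ n :=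
  ZMod.intCast_zmod_eq_zero_iff_dvd n p

theorem not_all_p {p : ℕ} [Fact p.Prime] {K : Type*} [Field K] [NumberField K] {σ : K ≃ₐ[ℚ] K}
    {d : ℤ} {a b c : K} {g : ℚ} {A B C X Y Z : ℤ} (h : Dat p K σ d a b c g A B C X Y Z) :
    ¬ ((A : ZMod p) = 0 ∧ (B : ZMod p) = 0 ∧ (Z : ZMod p) = 0) := by
  rintro ⟨h1, h2, h3⟩
  rw [zmod_zero] at h1 h2 h3
  exact h.co.pab p Fact.out ⟨h1, h3, h2⟩

theorem val_int_lt {K : Type*} [Field K] [NumberField K] (v : HeightOneSpectrum (𝓞 K)) (r : ℕ)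
    (hv : (r : 𝓞 K) ∈ v.asIdeal) (n : ℤ) (hn : (r : ℤ) ∣ n) : v.valuation K (n : K) < 1 := by
  have h1 : ((n : ℤ) : 𝓞 K) ∈ v.asIdeal := by
    obtain ⟨m, rfl⟩ := hn
    push_cast
    exact Ideal.mul_mem_right _ _ (by exact_mod_cast hv)
  have h2 := (v.valuation_lt_one_iff_mem (K := K) ((n : ℤ) : 𝓞 K)).2 h1
  simpa using h2

theorem val_int_eq {K : Type*} [Field K] [NumberField K] (v : HeightOneSpectrum (𝓞 K)) (r : ℕ)
    (hr : r.Prime) (hv : (r : 𝓞 K) ∈ v.asIdeal) (n : ℤ) (hn : ¬ (r : ℤ) ∣ n) :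
    v.valuation K (n : K) = 1 := by
  have hle : v.valuation K (n : K) ≤ 1 := by
    have := v.valuation_le_one (K := K) ((n : ℤ) : 𝓞 K)
    simpa using this
  refine le_antisymm hle (not_lt.1 fun hlt => ?_)
  have h1 : ((n : ℤ) : 𝓞 K) ∈ v.asIdeal := by
    rw [← v.valuation_lt_one_iff_mem (K := K)]
    simpa using hlt
  have hcop : IsCoprime (r : ℤ) n :=
    (Nat.prime_iff_prime_int.1 hr).coprime_iff_not_dvd.2 hn
  obtain ⟨x, y, hxy⟩ := hcop
  have h3 : (1 : 𝓞 K) ∈ v.asIdeal := by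
    have e : (1 : 𝓞 K) = (x : 𝓞 K) * (r : 𝓞 K) + (y : 𝓞 K) * ((n : ℤ) : 𝓞 K) := by
      have := congrArg (fun t : ℤ => (t : 𝓞 K)) hxy
      push_cast at this
      exact this.symm
    rw [e]
    exact v.asIdeal.add_mem (Ideal.mul_mem_left _ _ hv) (Ideal.mul_mem_left _ _ h1)
  exact v.isPrime.ne_top ((Ideal.eq_top_iff_one _).2 h3)

theorem case1 {p : ℕ} [Fact p.Prime] {K : Type*} [Field K] [NumberField K] {σ : K ≃ₐ[ℚ] K}
    {d : ℤ} {a b c : K} {g : ℚ} {A B C X Y Z : ℤ} (h : Dat p K σ d a b c g A B C X Y Z)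
    (hA : (A : ZMod 2) = 0) (hZ : (Z : ZMod 2) = 0)
    (k1 : kk (A : ZMod 2) Z B = 4) (k2 : kk (B : ZMod 2) X C = 2) (k3 : kk (C : ZMod 2) Y A = 0) :
    CI p a b c := by
  obtain ⟨e1, e2, e3⟩ := h.mp
  have r1 := h.r1
  have r2 := h.r2
  have r3 := h.r3
  rw [k1] at r1
  rw [k2] at r2
  rw [k3] at r3
  obtain ⟨hAp, hZp, -, -, -⟩ := alg1 p h.hp5 A B C X Y Z (not_all_p h) e1 e2 e3 r1 r2 r3
  have hp : p.Prime := Fact.out
  rintro v (hv | hv)
  · exact div_all σ h.co p hp.pos h.h h.ha 2 Nat.prime_two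
      ((zmod_zero (p := 2) A).1 hA) ((zmod_zero (p := 2) Z).1 hZ) v (by exact_mod_cast hv)
  · exact div_all σ h.co p hp.pos h.h h.ha p hp ((zmod_zero A).1 hAp) ((zmod_zero Z).1 hZp) v hv

theorem case2 {p : ℕ} [Fact p.Prime] {K : Type*} [Field K] [NumberField K] {σ : K ≃ₐ[ℚ] K}
    {d : ℤ} {a b c : K} {g : ℚ} {A B C X Y Z : ℤ} (h : Dat p K σ d a b c g A B C X Y Z)
    (hA : (A : ZMod 2) = 0) (hB : (B : ZMod 2) = 0) (hC : (C : ZMod 2) = 1)
    (hZ : (Z : ZMod 2) = 1)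
    (k1 : kk (A : ZMod 2) Z B = 2) (k2 : kk (B : ZMod 2) X C = 3) (k3 : kk (C : ZMod 2) Y A = 1) :
    d % 8 = 1 ∧ (CII p a b c ∨ CIII p d a b c) := by
  obtain ⟨e1, e2, e3⟩ := h.mp
  have r1 := h.r1
  have r2 := h.r2
  have r3 := h.r3
  rw [k1] at r1
  rw [k2] at r2
  rw [k3] at r3
  have hp : p.Prime := Fact.out
  have hp5 := h.hp5
  have hA2 := (zmod_zero (p := 2) A).1 hA
  have hB2 := (zmod_zero (p := 2) B).1 hB
  push_cast at hA2 hB2
  have hZ2 : Z % 2 = 1 := by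
    have : ((Z : ℤ) : ZMod 2) = ((1 : ℤ) : ZMod 2) := by rw [hZ]; simp
    rw [ZMod.intCast_eq_intCast_iff] at this
    have := this
    unfold Int.ModEq at this
    simpa using this
  refine ⟨?_, ?_⟩
  · obtain ⟨q, hq⟩ := h.dz
    refine disc_one d _ h.hd q hq ?_
    obtain ⟨u, hu⟩ := hA2
    obtain ⟨w, hw⟩ := hB2
    have h3 : Z = 2 * (Z / 2) + 1 := by omega
    set t := Z / 2
    have h4 : t * (t + 1) % 2 = 0 := by
      rcases Int.even_or_odd t with ⟨s, hs⟩ | ⟨s, hs⟩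
      · rw [hs]; ring_nf; omega
      · rw [hs]; ring_nf; omega
    obtain ⟨y, hy⟩ : ∃ y, t * (t + 1) = 2 * y := ⟨t * (t + 1) / 2, by omega⟩
    have : Z ^ 2 - 4 * A * B = 8 * (y - 2 * u * w) + 1 := by
      rw [h3, hu, hw]; linear_combination 4 * hy
    rw [this]; omega
  · rcases alg2 p h.hp5 A B C X Y Z (not_all_p h) e1 e2 e3 r1 r2 r3 with
      ⟨hAp, hBp, -, -⟩ | ⟨hAp, hBp, hCp, hZp⟩
    · left
      rintro r (rfl | rfl)
      · refine ⟨exists_div σ h.hσ h.co p hp.pos h.h h.ha 2 Nat.prime_two (by exact_mod_cast hA2),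
          exists_div σ h.hσ h.co.rot p hp.pos h.rot.h h.hb 2 Nat.prime_two
            (by exact_mod_cast hB2)⟩
      · exact ⟨exists_div σ h.hσ h.co r hp.pos h.h h.ha r hp ((zmod_zero A).1 hAp),
          exists_div σ h.hσ h.co.rot r hp.pos h.rot.h h.hb r hp ((zmod_zero B).1 hBp)⟩
    · right
      have h2 : (2 : ZMod p) ≠ 0 := by
        intro hh
        have : ((2 : ℕ) : ZMod p) = 0 := by exact_mod_cast hh
        rw [ZMod.natCast_eq_zero_iff] at this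
        have := Nat.le_of_dvd (by norm_num) this
        omega
      have h3 : (3 : ZMod p) ≠ 0 := by
        intro hh
        have : ((3 : ℕ) : ZMod p) = 0 := by exact_mod_cast hh
        rw [ZMod.natCast_eq_zero_iff] at this
        have := Nat.le_of_dvd (by norm_num) this
        omega
      have hC0 : (C : ZMod p) ≠ 0 := by
        intro hh
        rw [hh, mul_zero] at hCp
        rcases mul_eq_zero.1 hCp.symm with hh | hh
        · exact h3 hh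
        · exact hAp hh
      have hB0 : (B : ZMod p) ≠ 0 := by rw [hBp]; exact hAp
      have nd : ∀ v : HeightOneSpectrum (𝓞 K), (p : 𝓞 K) ∈ v.asIdeal → Nd v a b c := by
        intro v hv
        have n1 := no_div σ h.co h.ha p hp (fun hh => hAp ((zmod_zero A).2 hh)) v hv
        have n2 := no_div σ h.co.rot h.hb p hp (fun hh => hB0 ((zmod_zero B).2 hh)) v hv
        have n3 := no_div σ h.co.rot.rot h.hc p hp (fun hh => hC0 ((zmod_zero C).2 hh)) v hv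
        rw [mx_rot] at n2
        rw [mx_rot, mx_rot] at n3
        exact ⟨n1.trans n2.symm, n2.trans n3.symm⟩
      have hex : ((p : ℤ)) ^ 2 ∣ VL p - 3 ^ p := by
        refine exotic h.hK σ h.hσ h.co p hp h.hp5 h.h h.ha h.hb h.hc nd ?_ ?_ ?_ ?_
        · intro v hv
          have n3 := no_div σ h.co.rot.rot h.hc p hp (fun hh => hC0 ((zmod_zero C).2 hh)) v hv
          rw [mx_rot, mx_rot] at n3
          rw [n3]
          exact sum_small_p p hp (by omega) h.ha h.h v hv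
        · exact fun hh => hC0 ((zmod_zero C).2 hh)
        · rw [← zmod_zero]
          push_cast
          have : (2 : ZMod p) * (X + C) = 0 := by
            rw [e2]; linear_combination (-4 : ZMod p) * hBp + hCp - hZp
          exact (mul_eq_zero.1 this).resolve_left h2
        · rw [← zmod_zero]
          push_cast
          linear_combination (3 : ZMod p) * hBp - hCp
      refine ⟨nd, hex, ?_⟩
      have hZ0 : (Z : ZMod p) ≠ 0 := by
        intro hh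
        rw [hh, mul_zero] at hZp
        exact hAp (neg_eq_zero.1 hZp.symm)
      have h15 : ¬ (p : ℤ) ∣ (-15 : ℤ) := by
        intro hh
        have h1 : p ∣ 15 := by
          have := Int.natAbs_dvd_natAbs.2 hh
          simpa using this
        have h2 : p ∣ 3 * 5 := by simpa using h1
        rcases (Nat.Prime.dvd_mul hp).1 h2 with h3 | h3
        · have := Nat.le_of_dvd (by norm_num) h3
          omega
        · have h4 := Nat.le_of_dvd (by norm_num) h3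
          have h5 : p = 5 := by omega
          subst h5
          have h6 : VL 5 = -27 := by decide
          rw [h6] at hex
          revert hex
          decide
      obtain ⟨q, hq⟩ := h.dz
      refine disc_leg_gen p d (Z ^ 2 - 4 * A * B) Z (-15) h.hd q hq
        (fun hh => hZ0 ((zmod_zero Z).2 hh)) h15 ?_
      push_cast
      have hA' : (A : ZMod p) = -2 * Z := by linear_combination hZp
      rw [hBp, hA']
      ring

theorem case3 {p : ℕ} [Fact p.Prime] {K : Type*} [Field K] [NumberField K] {σ : K ≃ₐ[ℚ] K}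
    {d : ℤ} {a b c : K} {g : ℚ} {A B C X Y Z : ℤ} (h : Dat p K σ d a b c g A B C X Y Z)
    (hA : (A : ZMod 2) = 1) (hB : (B : ZMod 2) = 1) (hC : (C : ZMod 2) = 1)
    (hZ : (Z : ZMod 2) = 1)
    (k1 : kk (A : ZMod 2) Z B = 2) (k2 : kk (B : ZMod 2) X C = 2) (k3 : kk (C : ZMod 2) Y A = 2) :
    d % 8 = 5 ∧ CIV p d a b c := by
  obtain ⟨e1, e2, e3⟩ := h.mp
  have r1 := h.r1
  have r2 := h.r2
  have r3 := h.r3
  rw [k1] at r1
  rw [k2] at r2
  rw [k3] at r3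
  have hp : p.Prime := Fact.out
  have hp5 := h.hp5
  obtain ⟨hAp, hBp, hCp, hZp⟩ := alg3 p h.hp5 A B C X Y Z (not_all_p h) e1 e2 e3 r1 r2 r3
  have odd : ∀ n : ℤ, (n : ZMod 2) = 1 → n % 2 = 1 := by
    intro n hn
    have : ((n : ℤ) : ZMod 2) = ((1 : ℤ) : ZMod 2) := by rw [hn]; simp
    rw [ZMod.intCast_eq_intCast_iff] at this
    unfold Int.ModEq at this
    simpa using this
  have nd2 : ∀ n : ℤ, (n : ZMod 2) = 1 → ¬ ((2 : ℕ) : ℤ) ∣ n := by
    intro n hn hh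
    have := odd n hn
    push_cast at hh
    omega
  have hB0 : (B : ZMod p) ≠ 0 := by rw [hBp]; exact hAp
  have hC0 : (C : ZMod p) ≠ 0 := by rw [hCp]; exact hAp
  obtain ⟨q, hq⟩ := h.dz
  refine ⟨?_, ?_, ?_, ?_⟩
  · refine disc_five d _ h.hd q hq ?_
    have hA2 := odd A hA
    have hB2 := odd B hB
    have hZ2 := odd Z hZ
    have h1 : A = 2 * (A / 2) + 1 := by omega
    have h2 : B = 2 * (B / 2) + 1 := by omega
    have h3 : Z = 2 * (Z / 2) + 1 := by omega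
    set u := A / 2
    set w := B / 2
    set t := Z / 2
    have h4 : t * (t + 1) % 2 = 0 := by
      rcases Int.even_or_odd t with ⟨s, hs⟩ | ⟨s, hs⟩
      · rw [hs]; ring_nf; omega
      · rw [hs]; ring_nf; omega
    obtain ⟨y, hy⟩ : ∃ y, t * (t + 1) = 2 * y := ⟨t * (t + 1) / 2, by omega⟩
    have : Z ^ 2 - 4 * A * B = 8 * (y - 2 * u * w - u - w - 1) + 5 := by
      rw [h1, h2, h3]; linear_combination 4 * hy
    rw [this]; omega
  · rintro v (hv | hv)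
    · have hv' : ((2 : ℕ) : 𝓞 K) ∈ v.asIdeal := by exact_mod_cast hv
      have n1 := no_div σ h.co h.ha 2 Nat.prime_two (nd2 A hA) v hv'
      have n2 := no_div σ h.co.rot h.hb 2 Nat.prime_two (nd2 B hB) v hv'
      have n3 := no_div σ h.co.rot.rot h.hc 2 Nat.prime_two (nd2 C hC) v hv'
      rw [mx_rot] at n2
      rw [mx_rot, mx_rot] at n3
      exact ⟨n1.trans n2.symm, n2.trans n3.symm⟩
    · have n1 := no_div σ h.co h.ha p hp (fun hh => hAp ((zmod_zero A).2 hh)) v hv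
      have n2 := no_div σ h.co.rot h.hb p hp (fun hh => hB0 ((zmod_zero B).2 hh)) v hv
      have n3 := no_div σ h.co.rot.rot h.hc p hp (fun hh => hC0 ((zmod_zero C).2 hh)) v hv
      rw [mx_rot] at n2
      rw [mx_rot, mx_rot] at n3
      exact ⟨n1.trans n2.symm, n2.trans n3.symm⟩
  · refine disc_leg p h.hp5 d (Z ^ 2 - 4 * A * B) B h.hd q hq
      (fun hh => hB0 ((zmod_zero B).2 hh)) ?_
    push_cast
    rw [hZp, hBp]; ring
  · intro v hv
    have n1 := no_div σ h.co h.ha p hp (fun hh => hAp ((zmod_zero A).2 hh)) v hv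
    refine ⟨?_, ?_⟩
    · have n2 := no_div σ h.co.rot h.hb p hp (fun hh => hB0 ((zmod_zero B).2 hh)) v hv
      rw [mx_rot] at n2
      have hab : v.valuation K b = v.valuation K a := by rw [n1, n2]
      have hva : v.valuation K (A : K) = 1 :=
        val_int_eq v p hp hv A (fun hh => hAp ((zmod_zero A).2 hh))
      have hg : (g : K) ≠ 0 := by
        have := h.co.gpos
        exact_mod_cast this.ne'
      have e : (A : K) * (a ^ 2 + a * b + b ^ 2) = ((A - B : ℤ) : K) * a ^ 2 +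
          ((A + Z : ℤ) : K) * (a * b) := by
        have hA' := h.co.hA
        have hB' := h.co.hB
        have hZ' := h.co.hZ
        have : (g : K) * ((A : K) * (a ^ 2 + a * b + b ^ 2)) = (g : K) * (((A - B : ℤ) : K) * a ^ 2 +
          ((A + Z : ℤ) : K) * (a * b)) := by
          push_cast
          linear_combination (-(b ^ 2)) * hA' - a ^ 2 * hB' + (a * b) * hZ'
        exact mul_left_cancel₀ hg this
      have l1 : v.valuation K (((A - B : ℤ) : K) * a ^ 2) < v.valuation K a ^ 2 := by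
        rw [map_mul, map_pow]
        have : v.valuation K ((A - B : ℤ) : K) < 1 := by
          refine val_int_lt v p hv _ ?_
          rw [← zmod_zero]; push_cast; rw [hBp]; ring
        have ha0 : (0 : WithZero (Multiplicative ℤ)) < v.valuation K a ^ 2 :=
          pow_pos ((Valuation.pos_iff _).2 h.ha) 2
        calc _ < 1 * v.valuation K a ^ 2 := by
              exact mul_lt_mul_of_pos_right this ha0
          _ = _ := one_mul _
      have l2 : v.valuation K (((A + Z : ℤ) : K) * (a * b)) < v.valuation K a ^ 2 := by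
        rw [map_mul, map_mul, hab, ← pow_two]
        have : v.valuation K ((A + Z : ℤ) : K) < 1 := by
          refine val_int_lt v p hv _ ?_
          rw [← zmod_zero]; push_cast; rw [hZp]; ring
        have ha0 : (0 : WithZero (Multiplicative ℤ)) < v.valuation K a ^ 2 :=
          pow_pos ((Valuation.pos_iff _).2 h.ha) 2
        calc _ < 1 * v.valuation K a ^ 2 := by
              exact mul_lt_mul_of_pos_right this ha0
          _ = _ := one_mul _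
      have := Valuation.map_add_lt _ l1 l2
      rw [← e, map_mul, hva, one_mul] at this
      exact this
    · rw [n1]
      exact sum_small_p p hp (by omega) h.ha h.h v hv

end Pool.Agent.H22.WQ
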