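import Pool.Agent.H22.WQ.Base

/-!
# WQ Op: formal properties of the operator `θ` (easy)

Everything follows from `smul_mul'`, `smul_prod'`, `Ideal.smul_mul` (pointwise action of a group of
ring automorphisms, open scoped Pointwise) and `Finset.prod_mul_distrib`.

* `thI_span`: `g • span {x} = span {g • x}` (`Ideal.pointwise_smul_def`, `Ideal.map_span`), then
  `Ideal.prod_span_singleton`.
* `card_HT`: `t ↦ t.val.val` is a bijection of `HT p` onto `Finset.Icc 1 ((p-1)/2)`.
* `th_int`: `sg_smul_int`, `card_HT`.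
* `th_zt`: `sg t⁻¹ • zt = zt ^ (t⁻¹).val.val` (`sg_smul_zt`), so
  `θ(zt) = zt ^ (∑ (t⁻¹).val.val)`, and `∑_{t ∈ HT} (t⁻¹).val.val ≡ (SS p).val (mod p)`; use
  `zt_pow` (`pow_eq_pow_mod` or `(zt_prim p E).pow_eq_pow_iff_modEq`, `ZMod.natCast_eq_natCast_iff`).
* `HT_compl`: for `p ≥ 3`: `t ∈ HT p ↔ -t ∉ HT p` since `(-t).val.val = p - t.val.val`.
* `sg_inv_mem`: `sg t⁻¹ • x ∈ I ↔ x ∈ sg t • I` (`Ideal.mem_pointwise_smul_iff_inv_smul_mem`).
-/

open NumberField
open scoped Pointwise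

namespace Pool.Agent.H22.WQ

variable (p : ℕ) [Fact p.Prime] (E : Type*) [Field E] [NumberField E]
  [IsCyclotomicExtension {p} ℚ E]

theorem th_mul (x y : 𝓞 E) : th p E (x * y) = th p E x * th p E y := by
  unfold th
  rw [← Finset.prod_mul_distrib]
  exact Finset.prod_congr rfl fun t _ => smul_mul' _ _ _

theorem th_pow (x : 𝓞 E) (n : ℕ) : th p E (x ^ n) = th p E x ^ n := by
  unfold th
  rw [← Finset.prod_pow]
  exact Finset.prod_congr rfl fun t _ => smul_pow' _ _ _

theorem th_ne_zero {x : 𝓞 E} (hx : x ≠ 0) : th p E x ≠ 0 := by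
  unfold th
  exact Finset.prod_ne_zero_iff.2 fun t _ => (smul_ne_zero_iff_ne _).2 hx

theorem card_HT (hp : 3 ≤ p) : (HT p).card = (p - 1) / 2 := by
  have hpp : p.Prime := Fact.out
  have h : (HT p).card = (Finset.Icc 1 ((p - 1) / 2)).card := by
    refine Finset.card_bij (fun t _ => t.val.val) ?_ ?_ ?_
    · intro t ht
      have h1 := (Finset.mem_filter.1 ht).2
      refine Finset.mem_Icc.2 ⟨?_, h1⟩
      rw [Nat.one_le_iff_ne_zero]
      intro h0
      exact t.ne_zero ((ZMod.val_eq_zero _).1 h0)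
    · intro t _ t' _ h1
      exact Units.ext (ZMod.val_injective p h1)
    · intro n hn
      rw [Finset.mem_Icc] at hn
      have hnp : n < p := by omega
      have hc : n.Coprime p :=
        ((Nat.coprime_of_lt_prime (by omega) hnp hpp).symm)
      refine ⟨ZMod.unitOfCoprime n hc, ?_, ?_⟩
      · refine Finset.mem_filter.2 ⟨Finset.mem_univ _, ?_⟩
        rw [ZMod.coe_unitOfCoprime, ZMod.val_natCast_of_lt hnp]
        exact hn.2
      · rw [ZMod.coe_unitOfCoprime, ZMod.val_natCast_of_lt hnp]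
  rw [h, Nat.card_Icc]
  omega

theorem HT_compl (hp : 3 ≤ p) (t : (ZMod p)ˣ) : t ∈ HT p ↔ -t ∉ HT p := by
  have hpp : p.Prime := Fact.out
  have hodd : p % 2 = 1 := by
    rcases hpp.eq_two_or_odd with h | h
    · omega
    · exact h
  have h1 : (-t).val.val = p - t.val.val := by
    rw [Units.val_neg, ZMod.neg_val, if_neg t.ne_zero]
  have h2 : t.val.val < p := ZMod.val_lt _
  have h3 : t.val.val ≠ 0 := fun h0 => t.ne_zero ((ZMod.val_eq_zero _).1 h0)
  unfold HT
  rw [Finset.mem_filter, Finset.mem_filter, h1]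
  simp only [Finset.mem_univ, true_and]
  omega

theorem th_int (hp : 3 ≤ p) (n : ℤ) : th p E (n : 𝓞 E) = (n : 𝓞 E) ^ ((p - 1) / 2) := by
  unfold th
  rw [Finset.prod_congr rfl fun t _ => sg_smul_int p E t⁻¹ n, Finset.prod_const, card_HT p hp]

theorem thI_mul (I J : Ideal (𝓞 E)) : thI p E (I * J) = thI p E I * thI p E J := by
  unfold thI
  rw [← Finset.prod_mul_distrib]
  exact Finset.prod_congr rfl fun t _ => smul_mul' _ _ _

theorem thI_pow (I : Ideal (𝓞 E)) (n : ℕ) : thI p E (I ^ n) = thI p E I ^ n := by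
  unfold thI
  rw [← Finset.prod_pow]
  exact Finset.prod_congr rfl fun t _ => smul_pow' _ _ _

theorem thI_one : thI p E (1 : Ideal (𝓞 E)) = 1 := by
  unfold thI
  exact Finset.prod_eq_one fun t _ => smul_one _

theorem thI_span (x : 𝓞 E) : thI p E (Ideal.span {x}) = Ideal.span {th p E x} := by
  unfold thI th
  rw [← Ideal.prod_span_singleton]
  refine Finset.prod_congr rfl fun t _ => ?_
  rw [Ideal.pointwise_smul_def, Ideal.map_span, Set.image_singleton]
  rfl

theorem th_zt : th p E (zt p E) = zt p E ^ (SS p).val := by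
  unfold th
  rw [Finset.prod_congr rfl fun t _ => sg_smul_zt p E t⁻¹, Finset.prod_pow_eq_pow_sum,
    pow_eq_pow_mod _ (zt_pow p E)]
  congr 1
  rw [← ZMod.val_natCast, Nat.cast_sum]
  congr 1
  unfold SS
  exact Finset.sum_congr rfl fun t _ => ZMod.natCast_zmod_val _

end Pool.Agent.H22.WQ
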