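import Pool.Agent.H22.WQ.Base

/-!
# WQ Pi2: congruences modulo `(1-ζ)²`

Let `z = zt p E`, `π = 1 - z` (a prime element, `𝓞 E/(π) = F_p`, `π^(p-1)` is associated to `p`).

* `pi_sq_dvd`: `π² ∣ p` as `p - 1 ≥ 2`.
* `exists_int_pow`: write `y = ∑ a_i z^i` with integers `a_i` (`𝓞 E = ℤ[z]`); then
  `y^p ≡ ∑ a_i^p z^(ip) = ∑ a_i^p (mod p)`.  (Induction over `Algebra.adjoin ℤ {z} = ⊤`:
  the set of `y` such that `y^p ≡` an integer mod `p` is a subring: sums by the Frobenius identity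
  `(x+y)^p ≡ x^p + y^p (mod p)`, and it contains `z`.)
* `eq_of_mod_pi_sq`: `z^a = (1-π)^a ≡ 1 - aπ (mod π²)`.  If `π² ∣ m z^a - n z^b` then modulo `π`:
  `m ≡ n (mod π)`, so `p ∣ m - n` and `π² ∣ p ∣ m - n`; then `π² ∣ m (z^a - z^b)`, so
  `π² ∣ m (b - a) π`, `π ∣ m (b-a)`, `p ∣ m (b - a)`, and `p ∤ m`.
-/

open NumberField
open scoped Pointwise

namespace Pool.Agent.H22.WQ

variable (p : ℕ) [Fact p.Prime] (E : Type*) [Field E] [NumberField E]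
  [IsCyclotomicExtension {p} ℚ E]

theorem pi_sq_dvd (hp : 3 ≤ p) : (1 - zt p E) ^ 2 ∣ (p : 𝓞 E) := by
  have h1 := IsCyclotomicExtension.Rat.associated_zeta_sub_one_pow_prime p
    (IsCyclotomicExtension.zeta_spec p ℚ E)
  have h2 : (1 - zt p E) ^ 2 = (zt p E - 1) ^ 2 := by ring
  rw [h2]
  exact (pow_dvd_pow _ (by omega)).trans h1.dvd

theorem pi_dvd_int_iff (n : ℤ) : (1 - zt p E) ∣ (n : 𝓞 E) ↔ (p : ℤ) ∣ n := by
  have h1 : (1 - zt p E) = -(zt p E - 1) := by ring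
  rw [h1, neg_dvd]
  exact IsCyclotomicExtension.Rat.zeta_sub_one_dvd_intCast_iff' p
    (IsCyclotomicExtension.zeta_spec p ℚ E)

theorem exists_int_pow (hp : 3 ≤ p) (y : 𝓞 E) : ∃ j : ℤ, (p : 𝓞 E) ∣ y ^ p - j := by
  have hpp : p.Prime := Fact.out
  have htop : Algebra.adjoin ℤ {zt p E} = ⊤ :=
    IsCyclotomicExtension.Rat.adjoin_singleton_eq_top (IsCyclotomicExtension.zeta_spec p ℚ E)
  have hy : y ∈ Algebra.adjoin ℤ {zt p E} := by
    rw [htop]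
    exact Algebra.mem_top
  induction hy using Algebra.adjoin_induction with
  | mem x hx =>
    rw [Set.mem_singleton_iff] at hx
    refine ⟨1, ?_⟩
    rw [hx, zt_pow, Int.cast_one, sub_self]
    exact dvd_zero _
  | algebraMap r =>
    refine ⟨r ^ p, ?_⟩
    have h1 : (algebraMap ℤ (𝓞 E)) r = (r : 𝓞 E) := by simp
    rw [h1]
    push_cast
    rw [sub_self]
    exact dvd_zero _
  | add x y _ _ hx hy =>
    obtain ⟨j, hj⟩ := hx
    obtain ⟨k, hk⟩ := hy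
    obtain ⟨r, hr⟩ := exists_add_pow_prime_eq hpp x y
    refine ⟨j + k, ?_⟩
    rw [hr]
    have h1 : x ^ p + y ^ p + p * x * y * r - ((j + k : ℤ) : 𝓞 E) =
        (x ^ p - j) + (y ^ p - k) + p * (x * y * r) := by
      push_cast
      ring
    rw [h1]
    exact dvd_add (dvd_add hj hk) (dvd_mul_right _ _)
  | mul x y _ _ hx hy =>
    obtain ⟨j, hj⟩ := hx
    obtain ⟨k, hk⟩ := hy
    refine ⟨j * k, ?_⟩
    rw [mul_pow]
    have h1 : x ^ p * y ^ p - ((j * k : ℤ) : 𝓞 E) = (x ^ p - j) * y ^ p + j * (y ^ p - k) := by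
      push_cast
      ring
    rw [h1]
    exact dvd_add (dvd_mul_of_dvd_left hj _) (dvd_mul_of_dvd_right hk _)

theorem Pi2_pow (a : ℕ) :
    ∃ c : 𝓞 E, zt p E ^ a = 1 - (a : 𝓞 E) * (1 - zt p E) + (1 - zt p E) ^ 2 * c := by
  induction a with
  | zero => exact ⟨0, by push_cast; ring⟩
  | succ a ih =>
    obtain ⟨c, hc⟩ := ih
    refine ⟨a + c * zt p E, ?_⟩
    rw [pow_succ, hc]
    push_cast
    ring

theorem eq_of_mod_pi_sq (hp : 3 ≤ p) (m n : ℤ) (hm : ¬ (p : ℤ) ∣ m) (a b : ℕ)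
    (h : (1 - zt p E) ^ 2 ∣ (m : 𝓞 E) * zt p E ^ a - (n : 𝓞 E) * zt p E ^ b) :
    (a : ZMod p) = b := by
  have hpi : Prime (1 - zt p E) := by
    have h1 := (IsCyclotomicExtension.zeta_spec p ℚ E).zeta_sub_one_prime'
    have h2 : (1 - zt p E) = -(zt p E - 1) := by ring
    rw [h2]
    exact h1.neg
  obtain ⟨c, hc⟩ := Pi2_pow p E a
  obtain ⟨d, hd⟩ := Pi2_pow p E b
  obtain ⟨e, he⟩ := h
  set π := 1 - zt p E with hπ
  have h1 : ((m - n : ℤ) : 𝓞 E) = π * (((m : 𝓞 E) * a - n * b) + π * (e - m * c + n * d)) := by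
    rw [hc, hd] at he
    push_cast
    linear_combination he
  have h2 : (p : ℤ) ∣ m - n := by
    rw [← pi_dvd_int_iff p E]
    exact ⟨_, h1⟩
  have h3 : π ^ 2 ∣ ((m - n : ℤ) : 𝓞 E) := by
    refine (pi_sq_dvd p E hp).trans ?_
    have h4 : ((p : ℤ) : 𝓞 E) ∣ ((m - n : ℤ) : 𝓞 E) := by
      obtain ⟨k, hk⟩ := h2
      exact ⟨(k : 𝓞 E), by rw [hk]; push_cast; ring⟩
    rwa [Int.cast_natCast] at h4
  have h5 : π ∣ ((m * a - n * b : ℤ) : 𝓞 E) := by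
    obtain ⟨g, hg⟩ := h3
    rw [hg] at h1
    have h6 : π * (π * g) = π * (((m : 𝓞 E) * a - n * b) + π * (e - m * c + n * d)) := by
      rw [← h1]
      ring
    have h7 := mul_left_cancel₀ hpi.ne_zero h6
    refine ⟨g - (e - m * c + n * d), ?_⟩
    push_cast
    linear_combination -h7
  have h8 : (p : ℤ) ∣ m * a - n * b := (pi_dvd_int_iff p E _).1 h5
  have h9 : (p : ℤ) ∣ m * ((a : ℤ) - b) := by
    have h10 : m * ((a : ℤ) - b) = (m * a - n * b) - (m - n) * b := by ring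
    rw [h10]
    exact dvd_sub h8 (dvd_mul_of_dvd_left h2 _)
  have hpz : Prime (p : ℤ) := Nat.prime_iff_prime_int.1 Fact.out
  have h11 : (p : ℤ) ∣ (a : ℤ) - b := (hpz.dvd_or_dvd h9).resolve_left hm
  have h12 := (ZMod.intCast_zmod_eq_zero_iff_dvd ((a : ℤ) - b) p).2 h11
  push_cast at h12
  exact sub_eq_zero.1 h12

end Pool.Agent.H22.WQ
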