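import Pool.Agent.H22.WQ.Base
import Pool.Agent.H22.WQ.Op

/-!
# WQ Nm: norms and complex conjugation

* `prod_sg`: `Algebra.norm_eq_prod_automorphisms` for the Galois extension `E/ℚ`
  (`IsGalois ℚ E` is `IsCyclotomicExtension.isGalois {p} ℚ E`), transported to `𝓞 E`
  (`Algebra.coe_norm_int`, injectivity of `𝓞 E → E`) and reindexed by the bijection
  `sg p E : (ZMod p)ˣ → Gal(E/ℚ)` (`IsCyclotomicExtension.Rat.galEquivZMod`).
* `th_mul_cj`: `cj (th x) = ∏_{t ∈ HT} sg (-1 * t⁻¹) • x = ∏_{t ∈ HT} sg ((-t)⁻¹) • x`, and by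
  `HT_compl` the `t⁻¹` and `(-t)⁻¹`, `t ∈ HT p`, run through all of `(ZMod p)ˣ` once.
* `cj_embedding`: two ring homomorphisms `E → ℂ`, `x ↦ φ (σ_{-1} x)` and `x ↦ conj (φ x)`, agree on
  the generator `ζ` (`φ ζ` is a root of unity, so its conjugate is its inverse `φ (ζ^(p-1))`), hence
  on `E` (`IsCyclotomicExtension` : `E = ℚ(ζ)`; e.g. use `(zeta_spec p ℚ E).powerBasis ℚ`
  `.algHom_ext` for the two `ℚ`-algebra maps).
* `norm_pos`: `(norm x : 𝓞 E) = th x * cj (th x)`, embed in `ℂ`: the norm is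
  `φ(th x) * conj (φ (th x)) = |φ(th x)|^2 > 0`.
* `cj_cj`, `cj_mul`: `sg_mul`, `sg_one`.
-/

open NumberField
open scoped Pointwise

namespace Pool.Agent.H22.WQ

variable (p : ℕ) [Fact p.Prime] (E : Type*) [Field E] [NumberField E]
  [IsCyclotomicExtension {p} ℚ E]

theorem Nm_coe_smul (g : Gal(E/ℚ)) (x : 𝓞 E) : ((g • x : 𝓞 E) : E) = g (x : E) := rfl

theorem prod_sg (x : 𝓞 E) :
    ∏ t : (ZMod p)ˣ, sg p E t • x = ((Algebra.norm ℤ x : ℤ) : 𝓞 E) := by
  have hG : IsGalois ℚ E := IsCyclotomicExtension.isGalois {p} ℚ E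
  apply RingOfIntegers.ext
  have h1 : ((∏ t : (ZMod p)ˣ, sg p E t • x : 𝓞 E) : E) = ∏ t : (ZMod p)ˣ, (sg p E t) (x : E) := by
    rw [RingOfIntegers.coe_eq_algebraMap, map_prod]
    rfl
  have h2 : ((((Algebra.norm ℤ x : ℤ) : 𝓞 E)) : E) = algebraMap ℚ E (Algebra.norm ℚ (x : E)) := by
    rw [← Algebra.coe_norm_int]
    simp
  rw [h1, h2, Algebra.norm_eq_prod_automorphisms]
  exact Fintype.prod_equiv (IsCyclotomicExtension.Rat.galEquivZMod p E).symm.toEquiv _ _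
    (fun t => rfl)

theorem cj_mul (x y : 𝓞 E) : cj p E (x * y) = cj p E x * cj p E y := by
  unfold cj
  rw [smul_mul']

theorem cj_cj (x : 𝓞 E) : cj p E (cj p E x) = x := by
  unfold cj
  rw [smul_smul, ← sg_mul, neg_mul_neg, one_mul, sg_one, one_smul]

theorem th_mul_cj (hp : 3 ≤ p) (x : 𝓞 E) :
    th p E x * cj p E (th p E x) = ((Algebra.norm ℤ x : ℤ) : 𝓞 E) := by
  classical
  rw [← prod_sg p E x]
  have h1 : cj p E (th p E x) = ∏ t ∈ HT p, sg p E (-t)⁻¹ • x := by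
    unfold cj th
    rw [Finset.smul_prod']
    refine Finset.prod_congr rfl fun t _ => ?_
    rw [smul_smul, ← sg_mul]
    congr 2
    rw [neg_mul, one_mul, inv_neg]
  have h2 : ∏ t ∈ HT p, sg p E (-t)⁻¹ • x = ∏ t ∈ (HT p)ᶜ, sg p E t⁻¹ • x := by
    refine Finset.prod_bij (fun t _ => -t) ?_ ?_ ?_ ?_
    · intro t ht
      rw [Finset.mem_compl]
      exact (HT_compl p hp t).1 ht
    · intro t _ s _ h
      exact neg_injective h
    · intro t ht
      rw [Finset.mem_compl] at ht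
      refine ⟨-t, ?_, neg_neg t⟩
      by_contra hcon
      have h3 := (HT_compl p hp t).2 hcon
      exact ht h3
    · intro t _
      rfl
  rw [h1, h2]
  unfold th
  rw [Finset.prod_mul_prod_compl]
  exact Fintype.prod_equiv (Equiv.inv _) _ _ (fun t => rfl)

theorem Nm_zt_mul (φ : E →+* ℂ) :
    φ (zt p E : E) * φ ((sg p E (-1)) (zt p E : E)) = 1 := by
  have h1 : ((sg p E (-1)) (zt p E : E)) = ((zt p E ^ ((-1 : (ZMod p)ˣ).val.val) : 𝓞 E) : E) := by
    rw [← sg_smul_zt]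
    rfl
  rw [h1, ← map_mul]
  have h2 : zt p E * zt p E ^ ((-1 : (ZMod p)ˣ).val.val) = 1 := by
    rw [← pow_succ', (zt_prim p E).pow_eq_one_iff_dvd]
    have h3 : (((-1 : (ZMod p)ˣ).val.val + 1 : ℕ) : ZMod p) = 0 := by
      push_cast
      rw [ZMod.natCast_zmod_val]
      simp
    exact (ZMod.natCast_eq_zero_iff _ _).1 h3
  have h4 : ((zt p E : 𝓞 E) : E) * ((zt p E ^ ((-1 : (ZMod p)ˣ).val.val) : 𝓞 E) : E) = 1 := by
    rw [RingOfIntegers.coe_eq_algebraMap, RingOfIntegers.coe_eq_algebraMap, ← map_mul, h2,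
      map_one]
  rw [h4, map_one]

theorem Nm_zt_conj (φ : E →+* ℂ) :
    φ (zt p E : E) * (starRingEnd ℂ) (φ (zt p E : E)) = 1 := by
  have hp : 0 < p := (Fact.out : p.Prime).pos
  have h1 : φ (zt p E : E) ^ p = 1 := by
    rw [← map_pow]
    have : ((zt p E : 𝓞 E) : E) ^ p = 1 := by
      have h := congrArg (fun y : 𝓞 E => (y : E)) (zt_pow p E)
      simpa using h
    rw [this, map_one]
  have h2 : ‖φ (zt p E : E)‖ = 1 := by
    exact Complex.norm_eq_one_of_pow_eq_one h1 hp.ne'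
  rw [Complex.mul_conj, Complex.normSq_eq_norm_sq, h2]
  simp

theorem cj_embedding (φ : E →+* ℂ) (x : 𝓞 E) :
    φ (cj p E x : E) = (starRingEnd ℂ) (φ (x : E)) := by
  let f1 : E →+* ℂ := φ.comp (sg p E (-1) : E ≃ₐ[ℚ] E).toAlgHom.toRingHom
  let f2 : E →+* ℂ := (starRingEnd ℂ).comp φ
  have hz : ((zt p E : 𝓞 E) : E) = IsCyclotomicExtension.zeta p ℚ E := rfl
  have hfz : f1 (zt p E : E) = f2 (zt p E : E) := by
    change φ ((sg p E (-1)) (zt p E : E)) = (starRingEnd ℂ) (φ (zt p E : E))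
    have h1 := Nm_zt_mul p E φ
    have h2 := Nm_zt_conj p E φ
    have h3 : φ (zt p E : E) ≠ 0 := by
      intro h
      rw [h, zero_mul] at h1
      exact zero_ne_one h1
    exact mul_left_cancel₀ h3 (h1.trans h2.symm)
  have hf : f1.toRatAlgHom = f2.toRatAlgHom := by
    apply ((IsCyclotomicExtension.zeta_spec p ℚ E).powerBasis ℚ).algHom_ext
    rw [IsPrimitiveRoot.powerBasis_gen]
    exact hfz
  have h4 := congrArg (fun f : E →ₐ[ℚ] ℂ => f (x : E)) hf
  exact h4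

theorem norm_pos (hp : 3 ≤ p) {x : 𝓞 E} (hx : x ≠ 0) : 0 < Algebra.norm ℤ x := by
  obtain ⟨φ⟩ : Nonempty (E →+* ℂ) := inferInstance
  have h1 := th_mul_cj p E hp x
  have h2 : φ ((th p E x : 𝓞 E) : E) * (starRingEnd ℂ) (φ ((th p E x : 𝓞 E) : E)) =
      ((Algebra.norm ℤ x : ℤ) : ℂ) := by
    rw [← cj_embedding p E φ, ← map_mul]
    have h3 := congrArg (fun y : 𝓞 E => φ (y : E)) h1
    simpa using h3
  rw [Complex.mul_conj] at h2
  have h4 : Complex.normSq (φ ((th p E x : 𝓞 E) : E)) = ((Algebra.norm ℤ x : ℤ) : ℝ) := by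
    exact_mod_cast h2
  have h5 : φ ((th p E x : 𝓞 E) : E) ≠ 0 := by
    intro h
    have h6 : ((th p E x : 𝓞 E) : E) = 0 := by
      exact (map_eq_zero φ).1 h
    have h7 : th p E x = 0 := by
      exact RingOfIntegers.coe_eq_zero_iff.1 h6
    exact th_ne_zero p E hx h7
  have h8 : 0 < Complex.normSq (φ ((th p E x : 𝓞 E) : E)) := Complex.normSq_pos.2 h5
  rw [h4] at h8
  exact_mod_cast h8

end Pool.Agent.H22.WQ
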