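import Pool.Agent.H22.WQ.Op
import Pool.Agent.H22.WQ.Nm

/-!
# WQ Sq: `θ(1+ζ)²`, `θ(1+ζ+ζ²)²`, `θ(1-ζ)²`

Let `z = zt p E`, `c = cj`.  `cj z = z^(p-1) = z⁻¹`.  If `y = u * cj y`, then
`θ(y)² = θ(y) θ(u) θ(cj y) = θ(u) θ(y) cj(θ y) = θ(u) N(y)` (`th_mul_cj`; `θ(cj y) = cj(θ y)` because
the `sg` commute).

* `y = 1+z = z (1 + z⁻¹) = z * cj y`: `θ(y)² = θ(z) N(1+z) = z^S` since `N(1+z) = 1`:
  `1+z = (1-z²)/(1-z)` is a unit, so its norm is `±1`, and it is positive (`norm_pos`).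
* `y = 1+z+z² = z² cj y`: `θ(y)² = θ(z)² N(y)`, `N(y) = 1` since `y = (1-z³)/(1-z)` is a unit
  (`p ≠ 3`).
* `y = 1-z = (-z) cj y`: `θ(y)² = θ(-z) N(1-z) = (-1)^((p-1)/2) z^S p`.
  (`N(1-z) = p`: `IsCyclotomicExtension...norm_toInteger_sub_one_of_prime_ne_two'` or
  `associated_norm_zeta_sub_one`, sign by `norm_pos`.)
That `1+z`, `1+z+z²` are units: `(1-z)`, `(1-z²)`, `(1-z³)` are associated
(`IsPrimitiveRoot.associated_sub_one`, or norms: `N(1-z²) = N(1-z) = p ≠ 0` as `z²` is a Galois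
conjugate of `z`, so `N(1+z) = 1`; this is the shortest way: `N(1-z^k) = N(1-z)` for `p ∤ k` because
the norm is invariant under `sg`, and norms are multiplicative; it gives `N(1+z) = 1` and
`N(1+z+z²) = 1` at once).
-/

open NumberField
open scoped Pointwise

namespace Pool.Agent.H22.WQ

variable (p : ℕ) [Fact p.Prime] (E : Type*) [Field E] [NumberField E]
  [IsCyclotomicExtension {p} ℚ E]

theorem Sq_zt_cj : zt p E * cj p E (zt p E) = 1 := by
  unfold cj
  rw [sg_smul_zt, ← pow_succ', (zt_prim p E).pow_eq_one_iff_dvd]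
  have h3 : (((-1 : (ZMod p)ˣ).val.val + 1 : ℕ) : ZMod p) = 0 := by
    push_cast
    rw [ZMod.natCast_zmod_val]
    simp
  exact (ZMod.natCast_eq_zero_iff _ _).1 h3

theorem Sq_cj_add (x y : 𝓞 E) : cj p E (x + y) = cj p E x + cj p E y := by
  unfold cj
  rw [smul_add]

theorem Sq_cj_one : cj p E 1 = 1 := by
  unfold cj
  rw [smul_one]

theorem Sq_cj_neg (x : 𝓞 E) : cj p E (-x) = -cj p E x := by
  unfold cj
  rw [smul_neg]

theorem Sq_th_cj (y : 𝓞 E) : th p E (cj p E y) = cj p E (th p E y) := by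
  unfold th cj
  rw [Finset.smul_prod']
  refine Finset.prod_congr rfl fun t _ => ?_
  rw [smul_smul, smul_smul, ← sg_mul, ← sg_mul, mul_comm]

theorem Sq_main (hp : 3 ≤ p) (u y : 𝓞 E) (h : y = u * cj p E y) :
    th p E y ^ 2 = th p E u * ((Algebra.norm ℤ y : ℤ) : 𝓞 E) := by
  have h1 : th p E y = th p E u * cj p E (th p E y) := by
    conv_lhs => rw [h]
    rw [th_mul, Sq_th_cj]
  rw [← th_mul_cj p E hp y]
  calc th p E y ^ 2 = th p E y * th p E y := sq _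
    _ = th p E y * (th p E u * cj p E (th p E y)) := by rw [← h1]
    _ = _ := by ring

theorem Sq_norm_smul (s : (ZMod p)ˣ) (x : 𝓞 E) :
    Algebra.norm ℤ (sg p E s • x) = Algebra.norm ℤ x := by
  have h1 := prod_sg p E (sg p E s • x)
  have h2 := prod_sg p E x
  have h3 : ∏ t : (ZMod p)ˣ, sg p E t • sg p E s • x = ∏ t : (ZMod p)ˣ, sg p E t • x := by
    refine Fintype.prod_equiv (Equiv.mulRight s) _ _ fun t => ?_
    rw [smul_smul, ← sg_mul]
    rfl
  rw [h3, h2] at h1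
  exact (Int.cast_injective h1).symm

theorem Sq_norm_pow (k : ℕ) (hk0 : 0 < k) (hk : k < p) :
    Algebra.norm ℤ (1 - zt p E ^ k) = Algebra.norm ℤ (1 - zt p E) := by
  have hpp : p.Prime := Fact.out
  have hc : Nat.Coprime k p := (Nat.coprime_of_lt_prime (by omega) hk hpp).symm
  rw [← Sq_norm_smul p E (ZMod.unitOfCoprime k hc) (1 - zt p E)]
  congr 1
  rw [smul_sub, smul_one, sg_smul_zt]
  congr 2
  rw [ZMod.coe_unitOfCoprime, ZMod.val_natCast_of_lt hk]

theorem Sq_ne (hp : 5 ≤ p) : (1 - zt p E) ≠ 0 := by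
  intro h
  have h1 : zt p E = 1 := (sub_eq_zero.1 h).symm
  exact (zt_prim p E).ne_one (by omega) h1

theorem Sq_norm_one_sub (hp : 5 ≤ p) : Algebra.norm ℤ (1 - zt p E) = p := by
  have h1 : Algebra.norm ℤ (zt p E - 1) = p :=
    (IsCyclotomicExtension.zeta_spec p ℚ E).norm_toInteger_sub_one_of_prime_ne_two' (by omega)
  have h2 : Algebra.norm ℤ (1 - zt p E) * Algebra.norm ℤ (1 - zt p E) = (p : ℤ) * p := by
    rw [← map_mul]
    have : (1 - zt p E) * (1 - zt p E) = (zt p E - 1) * (zt p E - 1) := by ring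
    rw [this, map_mul, h1]
  have h3 := norm_pos p E (by omega) (Sq_ne p E hp)
  exact (mul_self_inj h3.le (by positivity)).1 h2

theorem Sq_norm_one_add (hp : 5 ≤ p) : Algebra.norm ℤ (1 + zt p E) = 1 := by
  have h1 := Sq_norm_pow p E 2 (by omega) (by omega)
  have h2 : (1 - zt p E ^ 2) = (1 - zt p E) * (1 + zt p E) := by ring
  rw [h2, map_mul] at h1
  have h3 := norm_pos p E (by omega) (Sq_ne p E hp)
  exact mul_left_cancel₀ h3.ne' (by rw [h1, mul_one])

theorem Sq_norm_one_add_add (hp : 5 ≤ p) :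
    Algebra.norm ℤ (1 + zt p E + zt p E ^ 2) = 1 := by
  have h1 := Sq_norm_pow p E 3 (by omega) (by omega)
  have h2 : (1 - zt p E ^ 3) = (1 - zt p E) * (1 + zt p E + zt p E ^ 2) := by ring
  rw [h2, map_mul] at h1
  have h3 := norm_pos p E (by omega) (Sq_ne p E hp)
  exact mul_left_cancel₀ h3.ne' (by rw [h1, mul_one])

theorem th_one_add_zt (hp : 5 ≤ p) : th p E (1 + zt p E) ^ 2 = zt p E ^ (SS p).val := by
  have h : 1 + zt p E = zt p E * cj p E (1 + zt p E) := by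
    rw [Sq_cj_add, Sq_cj_one, mul_add, mul_one, Sq_zt_cj, add_comm]
  rw [Sq_main p E (by omega) _ _ h, Sq_norm_one_add p E hp, th_zt]
  simp

theorem th_one_add_zt_add_sq (hp : 5 ≤ p) :
    th p E (1 + zt p E + zt p E ^ 2) ^ 2 = zt p E ^ (2 * (SS p).val) := by
  have h : 1 + zt p E + zt p E ^ 2 = zt p E ^ 2 * cj p E (1 + zt p E + zt p E ^ 2) := by
    have h0 := Sq_zt_cj p E
    rw [Sq_cj_add, Sq_cj_add, Sq_cj_one, sq, cj_mul]
    calc 1 + zt p E + zt p E * zt p E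
        = (zt p E * cj p E (zt p E)) * (zt p E * cj p E (zt p E)) +
          zt p E * (zt p E * cj p E (zt p E)) + zt p E * zt p E := by rw [h0]; ring
      _ = _ := by ring
  rw [Sq_main p E (by omega) _ _ h, Sq_norm_one_add_add p E hp, th_pow, th_zt]
  rw [← pow_mul, mul_comm 2]
  simp

theorem th_one_sub_zt (hp : 5 ≤ p) : ∃ ε : ℤ, (ε = 1 ∨ ε = -1) ∧
    th p E (1 - zt p E) ^ 2 = (ε : 𝓞 E) * (p : 𝓞 E) * zt p E ^ (SS p).val := by
  refine ⟨(-1) ^ ((p - 1) / 2), neg_one_pow_eq_or ℤ _, ?_⟩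
  have h : 1 - zt p E = (-zt p E) * cj p E (1 - zt p E) := by
    have h0 := Sq_zt_cj p E
    rw [sub_eq_add_neg, Sq_cj_add, Sq_cj_one, Sq_cj_neg]
    calc 1 + -zt p E = zt p E * cj p E (zt p E) + -zt p E := by rw [h0]
      _ = _ := by ring
  have h1 : th p E (-zt p E) = ((((-1) ^ ((p - 1) / 2) : ℤ)) : 𝓞 E) * zt p E ^ (SS p).val := by
    have h2 : -zt p E = ((-1 : ℤ) : 𝓞 E) * zt p E := by push_cast; ring
    rw [h2, th_mul, th_int p E (by omega), th_zt]
    push_cast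
    ring
  rw [Sq_main p E (by omega) _ _ h, Sq_norm_one_sub p E hp, h1]
  push_cast
  ring

end Pool.Agent.H22.WQ
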