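import Pool.Agent.H22.WQ.Op
import Pool.Agent.H22.WQ.Pi2

/-!
# WQ ThPi: `θ` modulo `(1-ζ)²` and modulo `2`

* `th_congr_two`: `2 ∣ x - y → 2 ∣ θ x - θ y`: each `sg t⁻¹` is a ring automorphism fixing 2, so
  `2 ∣ sg t⁻¹ • x - sg t⁻¹ • y`; products of congruent factors are congruent (work in the quotient
  ring `𝓞 E ⧸ span {2}`, or induction over the finset).
* `th_mod_pi_sq`: the same with the ideal `(1-ζ)²`, which is stable under all `sg t⁻¹`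
  (`1 - ζ^k` is divisible by `1 - ζ`).  So `θ x ≡ θ(n z^b) = n^((p-1)/2) z^(b S) (mod π²)` by
  `th_mul, th_int, th_pow, th_zt`.
-/

open NumberField
open scoped Pointwise

namespace Pool.Agent.H22.WQ

variable (p : ℕ) [Fact p.Prime] (E : Type*) [Field E] [NumberField E]
  [IsCyclotomicExtension {p} ℚ E]

private theorem ThPi_prod {R : Type*} [CommRing R] {α : Type*} (d : R) (s : Finset α)
    (f g : α → R) (h : ∀ t ∈ s, d ∣ f t - g t) : d ∣ ∏ t ∈ s, f t - ∏ t ∈ s, g t := by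
  classical
  induction s using Finset.induction_on with
  | empty => simp
  | insert a s ha ih =>
    rw [Finset.prod_insert ha, Finset.prod_insert ha]
    have h1 := h a (Finset.mem_insert_self a s)
    have h2 := ih (fun t ht => h t (Finset.mem_insert_of_mem ht))
    have h3 : f a * ∏ t ∈ s, f t - g a * ∏ t ∈ s, g t =
        f a * (∏ t ∈ s, f t - ∏ t ∈ s, g t) + (f a - g a) * ∏ t ∈ s, g t := by ring
    rw [h3]
    exact dvd_add (h2.mul_left _) (h1.mul_right _)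

theorem th_congr_two {x y : 𝓞 E} (h : (2 : 𝓞 E) ∣ x - y) : (2 : 𝓞 E) ∣ th p E x - th p E y := by
  unfold th
  refine ThPi_prod 2 (HT p) (fun t => (sg p E t⁻¹) • x) (fun t => (sg p E t⁻¹) • y) ?_
  intro t _
  obtain ⟨c, hc⟩ := h
  have h2 : sg p E t⁻¹ • (2 : 𝓞 E) = 2 := by
    have h3 := sg_smul_int p E t⁻¹ 2
    rwa [Int.cast_ofNat] at h3
  refine ⟨sg p E t⁻¹ • c, ?_⟩
  show sg p E t⁻¹ • x - sg p E t⁻¹ • y = 2 * sg p E t⁻¹ • c
  rw [← smul_sub, hc, smul_mul', h2]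

theorem th_mod_pi_sq (hp : 3 ≤ p) {x : 𝓞 E} (n : ℤ) (b : ℕ)
    (h : (1 - zt p E) ^ 2 ∣ x - (n : 𝓞 E) * zt p E ^ b) :
    (1 - zt p E) ^ 2 ∣
      th p E x - ((n ^ ((p - 1) / 2) : ℤ) : 𝓞 E) * zt p E ^ (b * (SS p).val) := by
  have h0 : ((n ^ ((p - 1) / 2) : ℤ) : 𝓞 E) * zt p E ^ (b * (SS p).val) =
      th p E ((n : 𝓞 E) * zt p E ^ b) := by
    rw [th_mul, th_pow, th_int p E hp, th_zt, Int.cast_pow, ← pow_mul, mul_comm b]
  rw [h0]
  unfold th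
  refine ThPi_prod _ (HT p) (fun t => (sg p E t⁻¹) • x)
    (fun t => (sg p E t⁻¹) • ((n : 𝓞 E) * zt p E ^ b)) ?_
  intro t _
  obtain ⟨c, hc⟩ := h
  have h1 : (1 - zt p E) ∣ sg p E t⁻¹ • (1 - zt p E) := by
    rw [smul_sub, smul_one, sg_smul_zt]
    have h2 := sub_dvd_pow_sub_pow (1 : 𝓞 E) (zt p E) (t⁻¹ : (ZMod p)ˣ).val.val
    rwa [one_pow] at h2
  show (1 - zt p E) ^ 2 ∣ sg p E t⁻¹ • x - sg p E t⁻¹ • ((n : 𝓞 E) * zt p E ^ b)
  rw [← smul_sub, hc, smul_mul', smul_pow']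
  exact (pow_dvd_pow_of_dvd h1 2).mul_right _

end Pool.Agent.H22.WQ
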