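import Pool.Agent.H22.WQ.Base

/-!
# WQ Two: `p`-th powers modulo 2

Let `z = zt p E`.  Suppose `z^a ≡ z^b y^p (mod 2)`.  `𝓞 E = ℤ[z]`
(`IsCyclotomicExtension.Rat.isIntegralClosure_adjoin_singleton_of_prime`,
`(zeta_spec p ℚ E).integralPowerBasis`), so the Frobenius `x ↦ x^2` of `𝓞 E / 2` maps `z` to `z^2`
and its `(p-1)`-st iterate maps `z` to `z^(2^(p-1)) = z` (`2^(p-1) ≡ 1 mod p`); so
`x^(2^(p-1)) ≡ x (mod 2)` for all `x`.  (Alternatively: every residue field of `𝓞 E/2` has `2^f`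
elements with `f ∣ p-1` and `2` is unramified.)  Since `z^a` is a unit, `y` is a unit mod 2 and
`y^(2^(p-1)-1) ≡ 1`.  Put `2^(p-1) - 1 = p q` with `p ∤ q` (`p` is not Wieferich).  Raising the
congruence to the `q`-th power: `z^(a q) ≡ z^(b q) (mod 2)`.  If `a ≢ b (mod p)` then
`p ∤ (a-b) q`, `1 - z^((a-b) q)` divides `p` (its norm is a power of `p`, it is associated to
`1 - z`), and `2 ∣ z^(aq) - z^(bq)` would give `2 ∣ p` in `𝓞 E`, contradiction (norms, or
`2` and `p` coprime and `2` not a unit).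
-/

open NumberField
open scoped Pointwise

namespace Pool.Agent.H22.WQ

variable (p : ℕ) [Fact p.Prime] (E : Type*) [Field E] [NumberField E]
  [IsCyclotomicExtension {p} ℚ E]

private theorem Two_adjoin : Algebra.adjoin ℤ {zt p E} = ⊤ := by
  have h := (IsCyclotomicExtension.zeta_spec p ℚ E).integralPowerBasis.adjoin_gen_eq_top
  rw [IsPrimitiveRoot.integralPowerBasis_gen] at h
  exact h

private theorem Two_odd {p : ℕ} [Fact p.Prime] (hp : 3 ≤ p) : Nat.Coprime 2 p := by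
  rw [Nat.coprime_primes Nat.prime_two Fact.out]
  omega

private theorem Two_dvd {p : ℕ} [Fact p.Prime] (hp : 3 ≤ p) : p ∣ 2 ^ (p - 1) - 1 := by
  have h1 := Nat.ModEq.pow_totient (Two_odd hp)
  rw [Nat.totient_prime Fact.out] at h1
  exact (Nat.modEq_iff_dvd' (Nat.one_le_two_pow)).1 h1.symm

theorem pow_two_pow_sub (hp : 3 ≤ p) (x : 𝓞 E) : (2 : 𝓞 E) ∣ x ^ (2 ^ (p - 1)) - x := by
  have hx : x ∈ Algebra.adjoin ℤ {zt p E} := by
    rw [Two_adjoin]
    exact Algebra.mem_top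
  induction hx using Algebra.adjoin_induction with
  | mem x hx =>
    rw [Set.mem_singleton_iff] at hx
    subst hx
    obtain ⟨q, hq⟩ := Two_dvd hp
    have h1 : 2 ^ (p - 1) = p * q + 1 := by
      have : 1 ≤ 2 ^ (p - 1) := Nat.one_le_two_pow
      omega
    rw [h1, pow_succ, pow_mul, zt_pow, one_pow, one_mul, sub_self]
    exact dvd_zero _
  | algebraMap n =>
    have h1 : (2 : ℤ) ∣ n ^ (2 ^ (p - 1)) - n := by
      have h2 : Even (n ^ (2 ^ (p - 1)) - n) := by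
        rw [Int.even_sub, Int.even_pow' (by positivity)]
      exact h2.two_dvd
    have h3 := map_dvd (algebraMap ℤ (𝓞 E)) h1
    rw [map_sub, map_pow] at h3
    simpa using h3
  | add x y _ _ hx hy =>
    obtain ⟨r, hr⟩ := exists_add_pow_prime_pow_eq Nat.prime_two x y (p - 1)
    rw [hr]
    have h1 : x ^ 2 ^ (p - 1) + y ^ 2 ^ (p - 1) + ((2 : ℕ) : 𝓞 E) * x * y * r - (x + y) =
        (x ^ 2 ^ (p - 1) - x) + (y ^ 2 ^ (p - 1) - y) + 2 * (x * y * r) := by
      push_cast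
      ring
    rw [h1]
    exact dvd_add (dvd_add hx hy) (dvd_mul_right _ _)
  | mul x y _ _ hx hy =>
    have h1 : (x * y) ^ 2 ^ (p - 1) - x * y =
        x ^ 2 ^ (p - 1) * (y ^ 2 ^ (p - 1) - y) + y * (x ^ 2 ^ (p - 1) - x) := by
      rw [mul_pow]
      ring
    rw [h1]
    exact dvd_add (Dvd.dvd.mul_left hy _) (Dvd.dvd.mul_left hx _)

private theorem Two_not_unit : ¬ IsUnit (2 : 𝓞 E) := by
  intro h
  have h1 := h.map (Algebra.norm ℤ)
  have h2 : Algebra.norm ℤ (2 : 𝓞 E) = 2 ^ (Module.finrank ℤ (𝓞 E)) := by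
    have := Algebra.norm_algebraMap (S := 𝓞 E) (2 : ℤ)
    simpa using this
  rw [h2] at h1
  have h3 : Module.finrank ℤ (𝓞 E) ≠ 0 := Module.finrank_pos.ne'
  rw [isUnit_pow_iff h3] at h1
  norm_num [Int.isUnit_iff] at h1

private theorem Two_root {p : ℕ} [Fact p.Prime] {E : Type*} [Field E] [NumberField E]
    [IsCyclotomicExtension {p} ℚ E] (hp : 3 ≤ p) (k : ℕ) (hk : ¬ p ∣ k)
    (h : (2 : 𝓞 E) ∣ zt p E ^ k - 1) : False := by
  have hη : IsPrimitiveRoot (zt p E ^ k) p := by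
    apply (zt_prim p E).pow_of_coprime
    exact ((Nat.Prime.coprime_iff_not_dvd Fact.out).2 hk).symm
  have h1 : (1 : 𝓞 E) - zt p E ^ k ∣ (p : 𝓞 E) := by
    have h2 := Polynomial.sub_dvd_eval_sub (1 : 𝓞 E) (zt p E ^ k) (Polynomial.cyclotomic p (𝓞 E))
    rw [Polynomial.eval_one_cyclotomic_prime] at h2
    have h3 : Polynomial.eval (zt p E ^ k) (Polynomial.cyclotomic p (𝓞 E)) = 0 :=
      hη.isRoot_cyclotomic (Nat.Prime.pos Fact.out)
    rw [h3, sub_zero] at h2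
    exact h2
  have h4 : (2 : 𝓞 E) ∣ (p : 𝓞 E) := by
    refine dvd_trans ?_ h1
    rw [← dvd_neg, neg_sub]
    exact h
  have h5 : Odd p := Nat.Prime.odd_of_ne_two Fact.out (by omega)
  obtain ⟨m, hm⟩ := h5
  apply Two_not_unit E
  rw [isUnit_iff_dvd_one]
  have h6 : (1 : 𝓞 E) = (p : 𝓞 E) - 2 * m := by
    rw [hm]
    push_cast
    ring
  rw [h6]
  exact dvd_sub h4 (dvd_mul_right _ _)

theorem eq_of_pow_mod_two (hp : 3 ≤ p) (hW : ¬ p ^ 2 ∣ 2 ^ (p - 1) - 1) (a b : ℕ) (y : 𝓞 E)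
    (h : (2 : 𝓞 E) ∣ zt p E ^ a - zt p E ^ b * y ^ p) : (a : ZMod p) = b := by
  obtain ⟨q, hq⟩ := Two_dvd hp
  have hpq : ¬ p ∣ q := by
    rintro ⟨r, hr⟩
    apply hW
    rw [hq, hr]
    exact ⟨r, by ring⟩
  have h1 : 2 ^ (p - 1) = p * q + 1 := by
    have : 1 ≤ 2 ^ (p - 1) := Nat.one_le_two_pow
    omega
  set I : Ideal (𝓞 E) := Ideal.span {(2 : 𝓞 E)} with hI
  set f := Ideal.Quotient.mk I with hf
  have hfd : ∀ u v : 𝓞 E, (2 : 𝓞 E) ∣ u - v ↔ f u = f v := by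
    intro u v
    rw [hf, Ideal.Quotient.eq, hI, Ideal.mem_span_singleton]
  set Z := f (zt p E) with hZ
  set Y := f y with hY
  have hZp : Z ^ p = 1 := by
    rw [hZ, ← map_pow, zt_pow, map_one]
  have hab : Z ^ a = Z ^ b * Y ^ p := by
    have := (hfd _ _).1 h
    rw [map_mul, map_pow, map_pow, map_pow] at this
    exact this
  have hYY : Y ^ (p * q + 1) = Y := by
    have := (hfd _ _).1 (pow_two_pow_sub p E hp y)
    rw [map_pow, h1] at this
    exact this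
  have hp1 : p = (p - 1) + 1 := by omega
  have hinv : Y * (Z ^ b * Y ^ (p - 1) * Z ^ (a * (p - 1))) = 1 := by
    have e1 : Y * (Z ^ b * Y ^ (p - 1) * Z ^ (a * (p - 1))) =
        (Z ^ b * Y ^ ((p - 1) + 1)) * Z ^ (a * (p - 1)) := by ring
    rw [e1, ← hp1, ← hab, ← pow_add]
    have e2 : a + a * (p - 1) = p * a := by
      rw [mul_comm p a]
      conv_rhs => rw [hp1]
      ring
    rw [e2, pow_mul, hZp, one_pow]
  have hYpq : Y ^ (p * q) = 1 := by
    calc Y ^ (p * q) = Y ^ (p * q) * (Y * (Z ^ b * Y ^ (p - 1) * Z ^ (a * (p - 1)))) := by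
          rw [hinv, mul_one]
      _ = Y ^ (p * q + 1) * (Z ^ b * Y ^ (p - 1) * Z ^ (a * (p - 1))) := by ring
      _ = 1 := by rw [hYY, hinv]
  have hq' : Z ^ (a * q) = Z ^ (b * q) := by
    rw [pow_mul, hab, mul_pow, ← pow_mul, ← pow_mul, hYpq, mul_one]
  by_contra hne
  apply Two_root (E := E) hp (a * q + b * q * (p - 1))
  · intro hd
    have h2 : ((a * q + b * q * (p - 1) : ℕ) : ZMod p) = 0 :=
      (ZMod.natCast_eq_zero_iff _ _).2 hd
    have h3 : ((p - 1 : ℕ) : ZMod p) = -1 := by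
      rw [Nat.cast_sub (by omega)]
      simp
    rw [Nat.cast_add, Nat.cast_mul, Nat.cast_mul, Nat.cast_mul, h3] at h2
    have h4 : (q : ZMod p) ≠ 0 := by
      rw [Ne, ZMod.natCast_eq_zero_iff]
      exact hpq
    have h5 : ((a : ZMod p) - b) * q = 0 := by
      linear_combination h2
    rcases mul_eq_zero.1 h5 with h6 | h6
    · exact hne (sub_eq_zero.1 h6)
    · exact h4 h6
  · rw [hfd, map_one, map_pow, pow_add, hq', ← pow_add]
    have e2 : b * q + b * q * (p - 1) = p * (b * q) := by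
      rw [mul_comm p (b * q)]
      conv_rhs => rw [hp1]
      ring
    rw [e2, pow_mul, hZp, one_pow]

end Pool.Agent.H22.WQ
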