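import Pool.Agent.H22.WQ.Base

/-!
# WQ N1: `∏_t σ_t L = (N L)` for a prime ideal `L` not above `p`
-/

open NumberField
open scoped Pointwise

namespace Pool.Agent.H22.WQ

variable (p : ℕ) [Fact p.Prime] (E : Type*) [Field E] [NumberField E]
  [IsCyclotomicExtension {p} ℚ E]

theorem N1_liesOver {E : Type*} [Field E] [NumberField E] (L : Ideal (𝓞 E)) (hL : L.IsPrime)
    (l : ℕ) (hl : l.Prime) (hlL : (l : 𝓞 E) ∈ L) : L.LiesOver (Ideal.span {(l : ℤ)}) := by
  constructor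
  have hpl : Prime (l : ℤ) := Nat.prime_iff_prime_int.1 hl
  have hmax : (Ideal.span {(l : ℤ)}).IsMaximal :=
    PrincipalIdealRing.isMaximal_of_irreducible hpl.irreducible
  refine hmax.eq_of_le ?_ ?_
  · exact (hL.comap _).ne_top
  · rw [Ideal.span_singleton_le_iff_mem]
    change algebraMap ℤ (𝓞 E) (l : ℤ) ∈ L
    simpa using hlL

theorem N1_ne_p {L : Ideal (𝓞 E)} {l : ℕ} (h1 : (l : ZMod p) ^ 2 = 1) : l ≠ p := by
  rintro rfl
  simp at h1

theorem N1_absNorm (L : Ideal (𝓞 E)) (hL : L.IsPrime) (l : ℕ) (hl : l.Prime)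
    (hlL : (l : 𝓞 E) ∈ L) (hlp : l ≠ p) : Ideal.absNorm L = l ^ orderOf (l : ZMod p) := by
  haveI : Fact l.Prime := ⟨hl⟩
  haveI := N1_liesOver L hL l hl hlL
  have hnd : ¬ l ∣ p := fun h => hlp ((Nat.prime_dvd_prime_iff_eq hl (Fact.out)).1 h)
  rw [← IsCyclotomicExtension.Rat.inertiaDeg_eq_of_not_dvd l E L hnd, Ideal.pow_inertiaDeg]

theorem prod_smul_ideal (L : Ideal (𝓞 E)) (hL : L.IsPrime) (l : ℕ) (hl : l.Prime)
    (hlL : (l : 𝓞 E) ∈ L) (hlp : l ≠ p) :
    ∏ t : (ZMod p)ˣ, sg p E t • L = Ideal.span {((Ideal.absNorm L : ℕ) : 𝓞 E)} := by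
  classical
  haveI : Fact l.Prime := ⟨hl⟩
  haveI := N1_liesOver L hL l hl hlL
  haveI : IsGalois ℚ E := IsCyclotomicExtension.isGalois {p} ℚ E
  have hnd : ¬ l ∣ p := fun h => hlp ((Nat.prime_dvd_prime_iff_eq hl (Fact.out)).1 h)
  have hpl : Prime (l : ℤ) := Nat.prime_iff_prime_int.1 hl
  haveI hmax : (Ideal.span {(l : ℤ)}).IsMaximal :=
    PrincipalIdealRing.isMaximal_of_irreducible hpl.irreducible
  haveI : (Ideal.span {(l : ℤ)}).IsPrime := hmax.isPrime
  have hne : (Ideal.span {(l : ℤ)}) ≠ 0 := by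
    intro h
    rw [Ideal.zero_eq_bot, Ideal.span_singleton_eq_bot] at h
    exact hpl.ne_zero h
  have e1 : ∏ t : (ZMod p)ˣ, sg p E t • L = ∏ g : Gal(E/ℚ), g • L :=
    Fintype.prod_equiv (IsCyclotomicExtension.Rat.galEquivZMod p E).symm.toEquiv _ _
      (fun t => rfl)
  rw [e1]
  set f := orderOf (l : ZMod p) with hf
  have hstab : Nat.card (MulAction.stabilizer Gal(E/ℚ) L) = f := by
    rw [Ideal.card_stabilizer_eq (Ideal.span {(l : ℤ)}),
      IsCyclotomicExtension.Rat.ramificationIdxIn_eq_of_not_dvd l E hnd, one_mul,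
      IsCyclotomicExtension.Rat.inertiaDegIn_eq_of_not_dvd l E hnd]
  rw [Finset.prod_comp (fun I : Ideal (𝓞 E) => I) (fun g : Gal(E/ℚ) => g • L)]
  have hcard : ∀ Q ∈ Finset.univ.image (fun g : Gal(E/ℚ) => g • L),
      (Finset.univ.filter (fun g : Gal(E/ℚ) => g • L = Q)).card = f := by
    intro Q hQ
    obtain ⟨g0, -, rfl⟩ := Finset.mem_image.1 hQ
    rw [← hstab, Nat.card_eq_fintype_card, ← Fintype.card_coe]
    refine Fintype.card_congr ⟨fun g => ⟨g0⁻¹ * g.1, ?_⟩, fun s => ⟨g0 * s.1, ?_⟩, ?_, ?_⟩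
    · have := (Finset.mem_filter.1 g.2).2
      rw [MulAction.mem_stabilizer_iff, mul_smul, this, inv_smul_smul]
    · rw [Finset.mem_filter]
      refine ⟨Finset.mem_univ _, ?_⟩
      have := MulAction.mem_stabilizer_iff.1 s.2
      rw [mul_smul, this]
    · intro g; simp
    · intro s; simp
  rw [Finset.prod_congr rfl (fun Q hQ => by rw [hcard Q hQ]), Finset.prod_pow]
  have himg : Finset.univ.image (fun g : Gal(E/ℚ) => g • L) =
      ((Ideal.span {(l : ℤ)}).primesOver (𝓞 E)).toFinset := by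
    ext Q
    rw [Finset.mem_image, Set.mem_toFinset]
    constructor
    · rintro ⟨g, -, rfl⟩
      exact ⟨inferInstance, inferInstance⟩
    · rintro ⟨h1, h2⟩
      haveI := h1
      haveI := h2
      obtain ⟨g, hg⟩ := Ideal.exists_smul_eq_of_isGaloisGroup (Ideal.span {(l : ℤ)}) L Q Gal(E/ℚ)
      exact ⟨g, Finset.mem_univ _, hg⟩
  rw [himg]
  have hmap : (Ideal.span {(l : ℤ)}).map (algebraMap ℤ (𝓞 E)) =
      ∏ Q ∈ ((Ideal.span {(l : ℤ)}).primesOver (𝓞 E)).toFinset, Q := by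
    rw [Ideal.map_algebraMap_eq_finsetProd_pow hne]
    refine Finset.prod_congr rfl fun Q hQ => ?_
    rw [Set.mem_toFinset] at hQ
    haveI := hQ.1
    haveI := hQ.2
    rw [IsCyclotomicExtension.Rat.ramificationIdx_eq_of_not_dvd l E Q hnd, pow_one]
  rw [← hmap, Ideal.map_span, Set.image_singleton, Ideal.span_singleton_pow,
    N1_absNorm p E L hL l hl hlL hlp]
  congr 2
  push_cast
  rfl

theorem N1_gal (t : (ZMod p)ˣ) : IsCyclotomicExtension.Rat.galEquivZMod p E (sg p E t) = t :=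
  MulEquiv.apply_symm_apply _ _

theorem smul_inj_of_one (L : Ideal (𝓞 E)) (hL : L.IsPrime) (l : ℕ) (hl : l.Prime)
    (hlL : (l : 𝓞 E) ∈ L) (h1 : (l : ZMod p) = 1) (s t : (ZMod p)ˣ)
    (h : sg p E s • L = sg p E t • L) : s = t := by
  haveI : Fact l.Prime := ⟨hl⟩
  haveI := N1_liesOver L hL l hl hlL
  have hlp : l ≠ p := N1_ne_p p E (L := L) (by rw [h1]; ring)
  have hcop : l.Coprime p := (Nat.coprime_primes hl Fact.out).2 hlp
  haveI : L.IsMaximal := by
    refine hL.isMaximal ?_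
    intro hb
    rw [hb] at hlL
    have : (l : 𝓞 E) = 0 := by simpa using hlL
    exact hl.ne_zero (by exact_mod_cast this)
  have hst : sg p E (t⁻¹ * s) ∈ MulAction.stabilizer Gal(E/ℚ) L := by
    rw [MulAction.mem_stabilizer_iff, sg_mul, mul_smul, h, sg_inv, inv_smul_smul]
  have := IsCyclotomicExtension.Rat.mem_zpowers_galEquivZMod_of_mem_stabilizer p E l L hcop hst
  rw [N1_gal] at this
  have hu : ZMod.unitOfCoprime l hcop = 1 := by
    ext; simpa using h1
  rw [hu, Subgroup.zpowers_one_eq_bot, Subgroup.mem_bot] at this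
  have := inv_mul_eq_one.1 this
  exact this.symm

theorem smul_neg_one (hp : 3 ≤ p) (L : Ideal (𝓞 E)) (hL : L.IsPrime) (l : ℕ) (hl : l.Prime)
    (hlL : (l : 𝓞 E) ∈ L) (h1 : (l : ZMod p) = -1) : sg p E (-1) • L = L := by
  haveI : Fact l.Prime := ⟨hl⟩
  haveI := N1_liesOver L hL l hl hlL
  have hlp : l ≠ p := N1_ne_p p E (L := L) (by rw [h1]; ring)
  have hcop : l.Coprime p := (Nat.coprime_primes hl Fact.out).2 hlp
  haveI : L.IsMaximal := by
    refine hL.isMaximal ?_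
    intro hb
    rw [hb] at hlL
    have : (l : 𝓞 E) = 0 := by simpa using hlL
    exact hl.ne_zero (by exact_mod_cast this)
  have hst := IsCyclotomicExtension.Rat.galEquivZMod_stabilizer p E l L hcop
  have hu : ZMod.unitOfCoprime l hcop = -1 := by
    ext; simpa using h1
  have hmem : (-1 : (ZMod p)ˣ) ∈ (IsCyclotomicExtension.Rat.galEquivZMod p E).mapSubgroup
      (MulAction.stabilizer Gal(E/ℚ) L) := by
    rw [hst, hu]; exact Subgroup.mem_zpowers _
  rw [MulEquiv.mapSubgroup_apply, Subgroup.mem_map] at hmem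
  obtain ⟨g, hg, hg2⟩ := hmem
  have : g = sg p E (-1) := by
    apply (IsCyclotomicExtension.Rat.galEquivZMod p E).injective
    rw [N1_gal]
    exact hg2
  rw [← this]
  exact MulAction.mem_stabilizer_iff.1 hg

theorem absNorm_of_one (L : Ideal (𝓞 E)) (hL : L.IsPrime) (l : ℕ) (hl : l.Prime)
    (hlL : (l : 𝓞 E) ∈ L) (h1 : (l : ZMod p) = 1) : Ideal.absNorm L = l := by
  have hlp : l ≠ p := N1_ne_p p E (L := L) (by rw [h1]; ring)
  rw [N1_absNorm p E L hL l hl hlL hlp, h1, orderOf_one, pow_one]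

theorem absNorm_of_neg_one (hp : 3 ≤ p) (L : Ideal (𝓞 E)) (hL : L.IsPrime) (l : ℕ)
    (hl : l.Prime) (hlL : (l : 𝓞 E) ∈ L) (h1 : (l : ZMod p) = -1) :
    Ideal.absNorm L = l ^ 2 := by
  have hlp : l ≠ p := N1_ne_p p E (L := L) (by rw [h1]; ring)
  rw [N1_absNorm p E L hL l hl hlL hlp, h1]
  have : orderOf (-1 : ZMod p) = 2 := by
    rw [orderOf_neg_one, ringChar.eq (ZMod p) p, if_neg (by omega)]
  rw [this]

end Pool.Agent.H22.WQ
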