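import Pool.Agent.H22.WQ.Base
import Pool.Agent.H22.WQ.N1

/-!
# WQ JacA: the `p`-th power residue character modulo a prime ideal of degree one

`F = 𝓞 E ⧸ L` is a finite field with `l` elements (`absNorm_of_one`, `Ideal.absNorm_apply`,
`Submodule.cardQuot_apply`; `L` is maximal), `l = 1 + p m`.  The image `w` of `zt p E` in `F` is a
primitive `p`-th root of unity (`IsPrimitiveRoot.idealQuotient_mk`, or: `1 - zt^i ∈ L` would give
`p ∈ L`).  For `x ≠ 0` in `F` we have `(x^m)^p = 1`, so `x^m = w^k` for a unique `k < p`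
(`IsPrimitiveRoot.eq_pow_of_pow_eq_one`); put `χ x = (zt p E)^k`, `χ 0 = 0`.  It is multiplicative by
uniqueness (`w^(k+k') `, `zt^p = 1`).  `χ^p = 1`.  `χ ≠ 1`: the group `Fˣ` is cyclic of order `p m`,
so there is `x` with `x^m ≠ 1`.
A convenient construction: `MulChar.ofUnitHom` of the composition of `x ↦ x^m`,
`Fˣ → rootsOfUnity p F`, with the inverse of the isomorphism
`rootsOfUnity p (𝓞 E) ≃ rootsOfUnity p F` (`ZMod p`-powers of `zt` and of `w`,
`IsPrimitiveRoot.zmodEquivZPowers`), or define the function by choice.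
-/

open NumberField
open scoped Pointwise

namespace Pool.Agent.H22.WQ

private lemma JacA_gen {F R : Type*} [Field F] [Finite F] [CommRing R] (φ : R →+* F) (p l : ℕ)
    (hp : p.Prime) (hl : 2 ≤ l) (hcard : Nat.card F = l) (hpl : p ∣ l - 1) (z : R)
    (hz : IsPrimitiveRoot z p) (hw : IsPrimitiveRoot (φ z) p) :
    ∃ χ : MulChar F R, χ ≠ 1 ∧ χ ^ p = 1 ∧ ∀ x : F, φ (χ x) = x ^ ((l - 1) / p) := by
  classical
  have : NeZero p := ⟨hp.ne_zero⟩
  obtain ⟨m, hm⟩ := hpl
  have hm0 : m ≠ 0 := by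
    rintro rfl
    simp at hm
    omega
  have hdiv : (l - 1) / p = m := by rw [hm]; exact Nat.mul_div_cancel_left m hp.pos
  rw [hdiv]
  have hpow : ∀ x : Fˣ, x ^ (l - 1) = 1 := by
    intro x
    have h1 : Nat.card Fˣ = l - 1 := by rw [Nat.card_units, hcard]
    rw [← h1]
    exact pow_card_eq_one'
  have hex : ∀ x : Fˣ, ∃ k : ℕ, (φ z) ^ k = ((x ^ m : Fˣ) : F) := by
    intro x
    have h2 : ((x ^ m : Fˣ) : F) ^ p = 1 := by
      rw [← Units.val_pow_eq_pow_val, ← pow_mul, mul_comm m p, ← hm, hpow x, Units.val_one]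
    obtain ⟨k, -, hk⟩ := hw.eq_pow_of_pow_eq_one h2
    exact ⟨k, hk⟩
  choose k hk using hex
  set zu : Rˣ := (hz.isUnit hp.ne_zero).unit with hzu
  have hzuv : (zu : R) = z := IsUnit.unit_spec _
  have hzup : IsPrimitiveRoot zu p := by
    rw [← IsPrimitiveRoot.coe_units_iff, hzuv]; exact hz
  set wu : Fˣ := (hw.isUnit hp.ne_zero).unit with hwu
  have hwuv : (wu : F) = φ z := IsUnit.unit_spec _
  have hwup : IsPrimitiveRoot wu p := by
    rw [← IsPrimitiveRoot.coe_units_iff, hwuv]; exact hw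
  have hku : ∀ x : Fˣ, wu ^ k x = x ^ m := by
    intro x
    apply Units.ext
    rw [Units.val_pow_eq_pow_val, hwuv, hk x]
  have htr : ∀ a b : ℕ, wu ^ a = wu ^ b → zu ^ a = zu ^ b := by
    intro a b hab
    rw [pow_eq_pow_iff_modEq] at hab ⊢
    rwa [← hwup.eq_orderOf, hzup.eq_orderOf] at hab
  have htr' : ∀ a b : ℕ, zu ^ a = zu ^ b → wu ^ a = wu ^ b := by
    intro a b hab
    rw [pow_eq_pow_iff_modEq] at hab ⊢
    rwa [← hzup.eq_orderOf, hwup.eq_orderOf] at hab
  let f : Fˣ →* Rˣ :=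
    { toFun := fun x => zu ^ k x
      map_one' := by
        have := htr (k 1) 0 (by rw [hku, one_pow, pow_zero])
        rw [this, pow_zero]
      map_mul' := fun x y => by
        have := htr (k (x * y)) (k x + k y) (by rw [hku, pow_add, hku, hku, mul_pow])
        rw [this, pow_add] }
  have hf : ∀ x : Fˣ, f x = zu ^ k x := fun x => rfl
  refine ⟨MulChar.ofUnitHom f, ?_, ?_, ?_⟩
  · intro h1
    have h2 : ∀ x : Fˣ, x ^ m = 1 := by
      intro x
      have h3 : (MulChar.ofUnitHom f) (x : F) = (1 : MulChar F R) (x : F) := by rw [h1]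
      rw [MulChar.ofUnitHom_coe, MulChar.one_apply_coe, hf] at h3
      have h4 : zu ^ k x = zu ^ 0 := by
        apply Units.ext
        rw [h3, pow_zero, Units.val_one]
      have h5 := htr' _ _ h4
      rw [hku, pow_zero] at h5
      exact h5
    obtain ⟨g, hg⟩ := IsCyclic.exists_generator (α := Fˣ)
    have h6 : orderOf g = l - 1 := by
      rw [orderOf_eq_card_of_forall_mem_zpowers hg, Nat.card_units, hcard]
    have h7 : orderOf g ∣ m := orderOf_dvd_of_pow_eq_one (h2 g)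
    rw [h6, hm] at h7
    have h8 := Nat.le_of_dvd (Nat.pos_of_ne_zero hm0) h7
    have h9 : 2 * m ≤ p * m := Nat.mul_le_mul_right m hp.two_le
    omega
  · ext x
    rw [MulChar.pow_apply_coe, MulChar.ofUnitHom_coe, hf, MulChar.one_apply_coe,
      ← Units.val_pow_eq_pow_val, ← pow_mul, mul_comm (k x) p, pow_mul, hzup.pow_eq_one, one_pow,
      Units.val_one]
  · intro x
    by_cases hx : x = 0
    · subst hx
      rw [MulChar.map_zero, map_zero, zero_pow hm0]
    · have h10 : ((Units.mk0 x hx : Fˣ) : F) = x := rfl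
      rw [← h10, MulChar.ofUnitHom_coe, hf, Units.val_pow_eq_pow_val, hzuv, map_pow, hk,
        Units.val_pow_eq_pow_val]

variable (p : ℕ) [Fact p.Prime] (E : Type*) [Field E] [NumberField E]
  [IsCyclotomicExtension {p} ℚ E]

theorem exists_residue_char (L : Ideal (𝓞 E)) (hL : L.IsPrime) (l : ℕ) (hl : l.Prime)
    (hlL : (l : 𝓞 E) ∈ L) (h1 : (l : ZMod p) = 1) :
    ∃ χ : MulChar (𝓞 E ⧸ L) (𝓞 E), χ ≠ 1 ∧ χ ^ p = 1 ∧
      ∀ x : 𝓞 E ⧸ L, Ideal.Quotient.mk L (χ x) = x ^ ((l - 1) / p) := by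
  have hp : p.Prime := Fact.out
  have : NeZero p := ⟨hp.ne_zero⟩
  have hN : Ideal.absNorm L = l := absNorm_of_one p E L hL l hl hlL h1
  have hL0 : L ≠ ⊥ := by
    rintro rfl
    rw [Ideal.absNorm_bot] at hN
    exact hl.ne_zero hN.symm
  have hmax : L.IsMaximal := Ring.DimensionLEOne.maximalOfPrime hL0 hL
  let _ := Ideal.Quotient.field L
  have hfin : Finite (𝓞 E ⧸ L) := by
    rw [← Ideal.absNorm_ne_zero_iff, hN]
    exact hl.ne_zero
  have hcard : Nat.card (𝓞 E ⧸ L) = l := by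
    rw [← hN, Ideal.absNorm_apply, Submodule.cardQuot_apply]
  have hpl : p ∣ l - 1 := by
    have h2 : ((l - 1 : ℕ) : ZMod p) = 0 := by
      rw [Nat.cast_sub hl.one_le, h1, Nat.cast_one, sub_self]
    exact (ZMod.natCast_eq_zero_iff _ _).1 h2
  have hco : Nat.Coprime (Ideal.absNorm L) p := by
    rw [hN, Nat.coprime_primes hl hp]
    rintro rfl
    rw [ZMod.natCast_self] at h1
    exact zero_ne_one h1
  have hw : IsPrimitiveRoot (Ideal.Quotient.mk L (zt p E)) p :=
    (zt_prim p E).idealQuotient_mk (by rw [hN]; exact hl.one_lt.ne') hco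
  exact JacA_gen (Ideal.Quotient.mk L) p l hp hl.two_le hcard hpl (zt p E) (zt_prim p E) hw

end Pool.Agent.H22.WQ
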