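import Mathlib

/-!
# WQ JacB: a power sum over a finite field

`(x(1-x))^a` is a polynomial in `x` of degree `2a < q - 1`; expand and use
`FiniteField.sum_pow_lt_card_sub_one` (`∑_x x^i = 0` for `i < q - 1`), which also covers `i = 0`
(`q = 0` in `F`).  Or `MvPolynomial`/`Polynomial.sum` version: `Polynomial.eval` and
`Polynomial.sum_over_range`.
-/

namespace Pool.Agent.H22.WQ

theorem sum_pow_mul_one_sub {F : Type*} [Field F] [Fintype F] (a : ℕ)
    (h : 2 * a < Fintype.card F - 1) : ∑ x : F, (x * (1 - x)) ^ a = 0 := by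
  have h1 : ∀ x : F, (x * (1 - x)) ^ a =
      ∑ m ∈ Finset.range (a + 1), ((-1) ^ (m + a) * (a.choose m : F)) * x ^ (a + (a - m)) := by
    intro x
    rw [mul_pow, sub_pow, Finset.mul_sum]
    refine Finset.sum_congr rfl fun m _ => ?_
    rw [one_pow, pow_add]
    ring
  simp_rw [h1]
  rw [Finset.sum_comm]
  refine Finset.sum_eq_zero fun m _ => ?_
  rw [← Finset.mul_sum, FiniteField.sum_pow_lt_card_sub_one F (a + (a - m)) (by omega), mul_zero]

end Pool.Agent.H22.WQ
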