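import Pool.Agent.H22.WQ.Base
import Pool.Agent.H22.WQ.Op
import Pool.Agent.H22.WQ.Nm
import Pool.Agent.H22.WQ.N1
import Pool.Agent.H22.WQ.JacA
import Pool.Agent.H22.WQ.JacB

/-!
# WQ JacC: the Jacobi sum `J(χ,χ)` generates `θ(L)` for `l ≡ 1 (mod p)`

`F = 𝓞 E ⧸ L`, `l = 1 + p m` elements, `χ` from `exists_residue_char`,
`J = jacobiSum χ χ = ∑_{x ∈ F} χ(x) χ(1-x) ∈ 𝓞 E`.

1. For `t : (ZMod p)ˣ` with `T = t.val.val`: `sg t • J = ∑ χ(x)^T χ(1-x)^T`, because the values of
   `χ` are `0` or powers of `zt` (as `χ^p = 1`) and `sg t • zt^k = (zt^k)^T`.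
   Modulo `L`: `∑_x (x (1-x))^(m T)`, which vanishes when `2 m T < l - 1 = p m`, i.e. `2T < p`, i.e.
   `t ∈ HT p` (`JacB`).  So `sg t • J ∈ L`, i.e. `J ∈ sg t⁻¹ • L`, for all `t ∈ HT p`.
2. `J * cj J = l`.  `cj J = jacobiSum χ⁻¹ χ⁻¹` and
   `jacobiSum_mul_jacobiSum_inv` (Mathlib, target a field `F'`: apply it in `E` or `ℂ` to
   `χ.ringHomComp (algebraMap (𝓞 E) E)`, `jacobiSum_ringHomComp`; `χ ≠ 1`, `χ * χ ≠ 1` because
   `χ^p = 1`, `p` odd).
3. The ideals `sg t⁻¹ • L`, `t ∈ HT p`, are distinct primes (`smul_inj_of_one`) containing `J`, so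
   `thI L = ∏_{t ∈ HT p} sg t⁻¹ • L` divides `(J)`: `(J) = thI L * I'`.  Apply `cj = sg (-1)`:
   `(cj J) = (sg (-1) • thI L) * (sg (-1) • I')`.  Multiply:
   `(l) = thI L * (sg (-1) • thI L) * I' * (sg (-1) • I')`.  By `HT_compl` and `prod_smul_ideal`
   `thI L * (sg (-1) • thI L) = ∏_t sg t • L = (N L) = (l)`.  Cancel: `I' * (sg (-1) • I') = 1`, so
   `I' = 1`.
-/

open NumberField
open scoped Pointwise

namespace Pool.Agent.H22.WQ

variable (p : ℕ) [Fact p.Prime] (E : Type*) [Field E] [NumberField E]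
  [IsCyclotomicExtension {p} ℚ E]

/-- the automorphisms act on the values of a character of order `p` by powers -/
theorem JacC_smul {F : Type*} [Field F] (χ : MulChar F (𝓞 E)) (hχ : χ ^ p = 1) (t : (ZMod p)ˣ)
    (x : F) : sg p E t • χ x = χ x ^ t.val.val := by
  have hp0 : p ≠ 0 := (Fact.out : p.Prime).ne_zero
  have ht0 : t.val.val ≠ 0 := by
    intro h
    have h1 : (t : ZMod p) = 0 := (ZMod.val_eq_zero _).mp h
    exact t.ne_zero h1
  by_cases hx : x = 0
  · subst hx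
    rw [MulChar.map_zero, zero_pow ht0, smul_zero]
  · have h1 : χ x ^ p = 1 := by
      rw [← MulChar.pow_apply' χ hp0, hχ, MulChar.one_apply (isUnit_iff_ne_zero.mpr hx)]
    obtain ⟨k, _, hk⟩ := (zt_prim p E).eq_pow_of_pow_eq_one h1
    rw [← hk, smul_pow', sg_smul_zt, ← pow_mul, ← pow_mul, mul_comm]

/-- the conjugates of the Jacobi sum vanish modulo `L` -/
theorem JacC_mem {F : Type*} [Field F] [Fintype F] (π : 𝓞 E →+* F) (χ : MulChar F (𝓞 E))
    (hχ : χ ^ p = 1) (m : ℕ) (hm : 0 < m) (hcard : Fintype.card F = 1 + p * m)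
    (hπ : ∀ x, π (χ x) = x ^ m) (t : (ZMod p)ˣ) (ht : t ∈ HT p) :
    π (sg p E t • jacobiSum χ χ) = 0 := by
  have hp1 : 1 < p := (Fact.out : p.Prime).one_lt
  have ht1 : 2 * t.val.val < p := by
    unfold HT at ht
    rw [Finset.mem_filter] at ht
    have := ht.2
    omega
  unfold jacobiSum
  rw [Finset.smul_sum, map_sum]
  have h1 : ∀ x ∈ (Finset.univ : Finset F), π (sg p E t • (χ x * χ (1 - x))) =
      (x * (1 - x)) ^ (m * t.val.val) := by
    intro x _
    rw [smul_mul', JacC_smul p E χ hχ, JacC_smul p E χ hχ, map_mul, map_pow, map_pow, hπ, hπ,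
      ← pow_mul, ← pow_mul, mul_pow]
  rw [Finset.sum_congr rfl h1]
  apply sum_pow_mul_one_sub
  rw [hcard, Nat.add_sub_cancel_left]
  calc 2 * (m * t.val.val) = m * (2 * t.val.val) := by ring
    _ < m * p := Nat.mul_lt_mul_of_pos_left ht1 hm
    _ = p * m := mul_comm _ _

/-- `J * cj J = l` -/
theorem JacC_norm (hp : 3 ≤ p) {F : Type*} [Field F] [Fintype F] (χ : MulChar F (𝓞 E))
    (hχ1 : χ ≠ 1) (hχ : χ ^ p = 1) :
    jacobiSum χ χ * cj p E (jacobiSum χ χ) = ((Fintype.card F : ℕ) : 𝓞 E) := by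
  have hpp : p.Prime := Fact.out
  have hodd : p % 2 = 1 := by
    rcases hpp.eq_two_or_odd with h | h
    · omega
    · exact h
  -- the conjugate
  have hval : ((-1 : (ZMod p)ˣ) : ZMod p).val = p - 1 := by
    rw [Units.val_neg, Units.val_one, ZMod.val_neg_of_ne_zero, ZMod.val_one]
  have hinv : χ⁻¹ = χ ^ (p - 1) := by
    rw [inv_eq_iff_mul_eq_one, ← pow_succ', Nat.sub_add_cancel hpp.one_lt.le, hχ]
  have hcj : cj p E (jacobiSum χ χ) = jacobiSum χ⁻¹ χ⁻¹ := by
    unfold cj jacobiSum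
    rw [Finset.smul_sum]
    refine Finset.sum_congr rfl fun x _ => ?_
    rw [smul_mul', JacC_smul p E χ hχ, JacC_smul p E χ hχ, hinv, hval,
      MulChar.pow_apply' χ (by omega : p - 1 ≠ 0), MulChar.pow_apply' χ (by omega : p - 1 ≠ 0)]
  -- pass to the field
  set f : 𝓞 E →+* E := algebraMap (𝓞 E) E with hf
  have hinj : Function.Injective f := FaithfulSMul.algebraMap_injective (𝓞 E) E
  have hchar : ringChar E ≠ ringChar F := by
    have h1 : ringChar E = 0 := ringChar.eq_zero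
    rw [h1]
    exact fun h => CharP.ringChar_ne_zero_of_finite F h.symm
  have hχχ : χ * χ ≠ 1 := by
    intro h
    apply hχ1
    have h2 : χ ^ 2 = 1 := by rw [sq]; exact h
    have h3 : orderOf χ ∣ 2 := orderOf_dvd_of_pow_eq_one h2
    have h4 : orderOf χ ∣ p := orderOf_dvd_of_pow_eq_one hχ
    have h5 : orderOf χ ∣ Nat.gcd 2 p := Nat.dvd_gcd h3 h4
    have h6 : Nat.gcd 2 p = 1 := by
      rw [Nat.gcd_rec, hodd]
      rfl
    rw [h6, Nat.dvd_one, orderOf_eq_one_iff] at h5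
    exact h5
  have hA : χ.ringHomComp f ≠ 1 := by
    intro h
    apply hχ1
    refine MulChar.injective_ringHomComp hinj ?_
    show χ.ringHomComp f = (1 : MulChar F (𝓞 E)).ringHomComp f
    rw [h, MulChar.ringHomComp_one]
  have hB : χ.ringHomComp f * χ.ringHomComp f ≠ 1 := by
    intro h
    apply hχχ
    refine MulChar.injective_ringHomComp hinj ?_
    show (χ * χ).ringHomComp f = (1 : MulChar F (𝓞 E)).ringHomComp f
    rw [MulChar.ringHomComp_mul, h, MulChar.ringHomComp_one]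
  have key := jacobiSum_mul_jacobiSum_inv hchar hA hA hB
  rw [MulChar.ringHomComp_inv, jacobiSum_ringHomComp, jacobiSum_ringHomComp, ← map_mul] at key
  apply hinj
  rw [hcj, key, map_natCast]

/-- `θ(L) · cj θ(L) = (N L)` -/
theorem JacC_thI (hp : 3 ≤ p) (L : Ideal (𝓞 E)) :
    thI p E L * (sg p E (-1) • thI p E L) = ∏ t : (ZMod p)ˣ, sg p E t • L := by
  classical
  have h1 : ∏ t : (ZMod p)ˣ, sg p E t • L = ∏ t : (ZMod p)ˣ, sg p E t⁻¹ • L :=
    (Fintype.prod_equiv (Equiv.inv _) _ _ fun t => by simp).symm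
  rw [h1, ← Finset.prod_mul_prod_compl (HT p)]
  unfold thI
  congr 1
  rw [Finset.smul_prod']
  refine Finset.prod_nbij' (fun t => -t) (fun t => -t) ?_ ?_ (fun t _ => neg_neg t)
    (fun t _ => neg_neg t) ?_
  · intro t ht
    rw [Finset.mem_compl]
    exact (HT_compl p hp t).mp ht
  · intro t ht
    rw [Finset.mem_compl] at ht
    by_contra h
    exact ht ((HT_compl p hp t).mpr h)
  · intro t _
    rw [← mul_smul, ← sg_mul]
    congr 2
    rw [inv_neg, neg_one_mul]

theorem jacobi_one (hp : 5 ≤ p) (L : Ideal (𝓞 E)) (hL : L.IsPrime) (l : ℕ) (hl : l.Prime)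
    (hlL : (l : 𝓞 E) ∈ L) (h1 : (l : ZMod p) = 1) :
    ∃ J : 𝓞 E, J ≠ 0 ∧ Ideal.span {J} = thI p E L ∧
      J * cj p E J = ((Ideal.absNorm L : ℕ) : 𝓞 E) := by
  classical
  have hpp : p.Prime := Fact.out
  have hlp : l ≠ p := by
    rintro rfl
    rw [ZMod.natCast_self] at h1
    exact zero_ne_one h1
  have hl0 : ((l : ℕ) : 𝓞 E) ≠ 0 := by exact_mod_cast hl.ne_zero
  have hLne : L ≠ ⊥ := by
    rintro rfl
    exact hl0 ((Ideal.mem_bot).mp hlL)
  have hmax : L.IsMaximal := hL.isMaximal hLne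
  have habs : Ideal.absNorm L = l := absNorm_of_one p E L hL l hl hlL h1
  obtain ⟨χ, hχ1, hχ, hπ⟩ := exists_residue_char p E L hL l hl hlL h1
  letI : Field (𝓞 E ⧸ L) := Ideal.Quotient.field L
  have : Finite (𝓞 E ⧸ L) := by
    have h2 : 0 < Nat.card (𝓞 E ⧸ L) := by
      rw [← Submodule.cardQuot_apply, ← Ideal.absNorm_apply, habs]
      exact hl.pos
    exact (Nat.card_pos_iff.mp h2).2
  letI : Fintype (𝓞 E ⧸ L) := Fintype.ofFinite _
  have hcard : Fintype.card (𝓞 E ⧸ L) = l := by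
    rw [← Nat.card_eq_fintype_card, ← Submodule.cardQuot_apply, ← Ideal.absNorm_apply, habs]
  -- l = 1 + p m
  obtain ⟨m, hm⟩ : p ∣ l - 1 := by
    have h2 : ((l - 1 : ℕ) : ZMod p) = 0 := by
      rw [Nat.cast_sub hl.one_lt.le, h1, Nat.cast_one, sub_self]
    exact (ZMod.natCast_eq_zero_iff _ _).mp h2
  have hl1 : l = 1 + p * m := by
    have := hl.one_lt
    omega
  have hm0 : 0 < m := by
    rcases Nat.eq_zero_or_pos m with h | h
    · subst h
      have := hl.one_lt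
      omega
    · exact h
  have hmdiv : (l - 1) / p = m := by
    rw [hm, Nat.mul_div_cancel_left _ hpp.pos]
  rw [hmdiv] at hπ
  set J : 𝓞 E := jacobiSum χ χ with hJ
  have hnorm : J * cj p E J = ((Ideal.absNorm L : ℕ) : 𝓞 E) := by
    rw [habs, ← hcard]
    exact JacC_norm p E (by omega) χ hχ1 hχ
  have hJ0 : J ≠ 0 := by
    intro h
    rw [h, zero_mul, habs] at hnorm
    exact hl0 hnorm.symm
  refine ⟨J, hJ0, ?_, hnorm⟩
  -- J lies in the conjugates of L
  have hmem : ∀ t ∈ HT p, J ∈ sg p E t⁻¹ • L := by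
    intro t ht
    rw [sg_inv, Ideal.mem_inv_pointwise_smul_iff]
    have h2 := JacC_mem p E (Ideal.Quotient.mk L) χ hχ m hm0 (by rw [hcard, hl1]) hπ t ht
    exact Ideal.Quotient.eq_zero_iff_mem.mp h2
  have hdvd : thI p E L ∣ Ideal.span {J} := by
    unfold thI
    refine Finset.prod_dvd_of_coprime ?_ fun t ht => ?_
    · intro s _ t _ hst
      have hs : (sg p E s⁻¹ • L).IsMaximal :=
        (Ideal.IsPrime.smul (H := hL) (sg p E s⁻¹)).isMaximal (by
          intro h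
          apply hLne
          rw [← inv_smul_smul (sg p E s⁻¹) L, h, Ideal.smul_bot])
      have ht : (sg p E t⁻¹ • L).IsMaximal :=
        (Ideal.IsPrime.smul (H := hL) (sg p E t⁻¹)).isMaximal (by
          intro h
          apply hLne
          rw [← inv_smul_smul (sg p E t⁻¹) L, h, Ideal.smul_bot])
      have hne : sg p E s⁻¹ • L ≠ sg p E t⁻¹ • L := by
        intro h
        exact hst (inv_injective (smul_inj_of_one p E L hL l hl hlL h1 _ _ h))
      show IsCoprime (sg p E s⁻¹ • L) (sg p E t⁻¹ • L)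
      rw [Ideal.isCoprime_iff_sup_eq]
      exact hs.coprime_of_ne ht hne
    · rw [Ideal.dvd_span_singleton]
      exact hmem t ht
  obtain ⟨I, hI⟩ := hdvd
  have hcjspan : Ideal.span {cj p E J} = sg p E (-1) • Ideal.span {J} := by
    unfold cj
    rw [Ideal.pointwise_smul_def, Ideal.map_span, Set.image_singleton]
    rfl
  have hmul : Ideal.span {((Ideal.absNorm L : ℕ) : 𝓞 E)} * (I * (sg p E (-1) • I)) =
      Ideal.span {((Ideal.absNorm L : ℕ) : 𝓞 E)} * 1 := by
    calc Ideal.span {((Ideal.absNorm L : ℕ) : 𝓞 E)} * (I * (sg p E (-1) • I))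
        = (thI p E L * (sg p E (-1) • thI p E L)) * (I * (sg p E (-1) • I)) := by
          rw [JacC_thI p E (by omega) L, prod_smul_ideal p E L hL l hl hlL hlp]
      _ = (thI p E L * I) * (sg p E (-1) • (thI p E L * I)) := by
          rw [smul_mul']
          ring
      _ = Ideal.span {J} * Ideal.span {cj p E J} := by rw [← hI, hcjspan]
      _ = Ideal.span {((Ideal.absNorm L : ℕ) : 𝓞 E)} * 1 := by
          rw [Ideal.span_singleton_mul_span_singleton, hnorm, mul_one]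
  have hne : Ideal.span {((Ideal.absNorm L : ℕ) : 𝓞 E)} ≠ 0 := by
    rw [habs]
    intro h
    exact hl0 (Ideal.span_singleton_eq_bot.mp h)
  have hone : I * (sg p E (-1) • I) = 1 := mul_left_cancel₀ hne hmul
  have hI1 : I = 1 := by
    have h2 : I ∣ 1 := ⟨_, hone.symm⟩
    rw [Ideal.one_eq_top]
    exact Ideal.isUnit_iff.mp (isUnit_of_dvd_one h2)
  rw [hI, hI1, mul_one]

end Pool.Agent.H22.WQ
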