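import Pool.Agent.H22.WQ.Base
import Pool.Agent.H22.WQ.Op
import Pool.Agent.H22.WQ.Nm
import Pool.Agent.H22.WQ.N1

/-!
# WQ JacD: `θ(L) = (l)` for `l ≡ -1 (mod p)`
-/

open NumberField
open scoped Pointwise

namespace Pool.Agent.H22.WQ

variable (p : ℕ) [Fact p.Prime] (E : Type*) [Field E] [NumberField E]
  [IsCyclotomicExtension {p} ℚ E]

/-- `θ(I) * σ_{-1} θ(I)` is the product of all conjugates -/
theorem thI_mul_conj (hp : 3 ≤ p) (I : Ideal (𝓞 E)) :
    thI p E I * (sg p E (-1) • thI p E I) = ∏ t : (ZMod p)ˣ, sg p E t • I := by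
  classical
  have e1 : sg p E (-1) • thI p E I = ∏ t ∈ (HT p)ᶜ, sg p E t⁻¹ • I := by
    unfold thI
    rw [Finset.smul_prod']
    refine Finset.prod_bij' (fun t _ => -t) (fun t _ => -t) ?_ ?_ ?_ ?_ ?_
    · intro t ht
      rw [Finset.mem_compl]
      exact (HT_compl p hp t).1 ht
    · intro t ht
      rw [Finset.mem_compl] at ht
      rw [HT_compl p hp, neg_neg]
      exact ht
    · intro t _; simp
    · intro t _; simp
    · intro t _
      rw [← mul_smul, ← sg_mul]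
      congr 2
      rw [inv_neg, neg_mul, one_mul]
  rw [e1]
  unfold thI
  rw [Finset.prod_mul_prod_compl]
  exact Fintype.prod_equiv (Equiv.inv _) _ _ (fun t => rfl)

theorem jacobi_neg_one (hp : 5 ≤ p) (L : Ideal (𝓞 E)) (hL : L.IsPrime) (l : ℕ) (hl : l.Prime)
    (hlL : (l : 𝓞 E) ∈ L) (h1 : (l : ZMod p) = -1) :
    ∃ J : 𝓞 E, J ≠ 0 ∧ Ideal.span {J} = thI p E L ∧
      J * cj p E J = ((Ideal.absNorm L : ℕ) : 𝓞 E) := by
  have hp3 : 3 ≤ p := by omega
  have hlp : l ≠ p := N1_ne_p p E (L := L) (by rw [h1]; ring)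
  have hn := absNorm_of_neg_one p E hp3 L hL l hl hlL h1
  have hs := smul_neg_one p E hp3 L hL l hl hlL h1
  have hprod := prod_smul_ideal p E L hL l hl hlL hlp
  rw [← thI_mul_conj p E hp3] at hprod
  have hfix : sg p E (-1) • thI p E L = thI p E L := by
    unfold thI
    rw [Finset.smul_prod']
    refine Finset.prod_congr rfl fun t _ => ?_
    rw [← mul_smul, ← sg_mul, mul_comm, sg_mul, mul_smul, hs]
  rw [hfix, hn] at hprod
  have hl0 : (l : 𝓞 E) ≠ 0 := by exact_mod_cast hl.ne_zero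
  have hsq : thI p E L ^ 2 = Ideal.span {(l : 𝓞 E)} ^ 2 := by
    rw [pow_two, hprod, Ideal.span_singleton_pow]
    congr 2
    push_cast
    rfl
  have heq : thI p E L = Ideal.span {(l : 𝓞 E)} := by
    have h2 : (2 : ℕ) ≠ 0 := by norm_num
    refine le_antisymm ?_ ?_
    · rw [← Ideal.dvd_iff_le]
      exact (UniqueFactorizationMonoid.pow_dvd_pow_iff_dvd h2).1 (by rw [hsq])
    · rw [← Ideal.dvd_iff_le]
      exact (UniqueFactorizationMonoid.pow_dvd_pow_iff_dvd h2).1 (by rw [hsq])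
  refine ⟨(l : 𝓞 E), hl0, heq.symm, ?_⟩
  have hc : cj p E (l : 𝓞 E) = (l : 𝓞 E) := by
    have := sg_smul_int p E (-1) (l : ℤ)
    unfold cj
    simpa using this
  rw [hc, hn]
  push_cast
  ring

end Pool.Agent.H22.WQ
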