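import Pool.Agent.H22.WQ.Base
import Pool.Agent.H22.WQ.Op
import Pool.Agent.H22.WQ.Nm
import Pool.Agent.H22.WQ.JacC
import Pool.Agent.H22.WQ.JacD

/-!
# WQ JacI: `θ(I) = (J)` with `J * conj J = N I` for all good ideals `I`

Induction over the factorization of `I` into prime ideals (`UniqueFactorizationMonoid.induction_on_prime`
or `Ideal` induction; `I ≠ ⊥`).  `I = 1`: `J = 1`.  `I = L * I'` with `L` prime: the primes above `L`
and `I'` are above `I`, so both are good; `L` contains a prime `l` with `l² = 1` in `ZMod p`, so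
`l = 1` or `l = -1` in `ZMod p` (`sq_eq_one_iff_of_...`: `ZMod p` is a field) and
`jacobi_one`/`jacobi_neg_one` give `J_L`; `J = J_L * J_{I'}`; `thI_mul`, `cj_mul`,
`map_mul absNorm`.
-/

open NumberField
open scoped Pointwise

namespace Pool.Agent.H22.WQ

variable (p : ℕ) [Fact p.Prime] (E : Type*) [Field E] [NumberField E]
  [IsCyclotomicExtension {p} ℚ E]

theorem jacobi_ideal (hp : 5 ≤ p) (I : Ideal (𝓞 E)) (hI : GoodI p E I) :
    ∃ J : 𝓞 E, J ≠ 0 ∧ Ideal.span {J} = thI p E I ∧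
      J * cj p E J = ((Ideal.absNorm I : ℕ) : 𝓞 E) := by
  revert hI
  refine UniqueFactorizationMonoid.induction_on_prime
    (P := fun I : Ideal (𝓞 E) => GoodI p E I → ∃ J : 𝓞 E, J ≠ 0 ∧
      Ideal.span {J} = thI p E I ∧ J * cj p E J = ((Ideal.absNorm I : ℕ) : 𝓞 E)) I ?_ ?_ ?_
  · intro h
    exact absurd rfl h.1
  · intro x hx _
    rw [Ideal.isUnit_iff] at hx
    subst hx
    refine ⟨1, one_ne_zero, ?_, ?_⟩
    · rw [← Ideal.one_eq_top, thI_one, Ideal.one_eq_top, Ideal.span_singleton_one]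
    · have : cj p E (1 : 𝓞 E) = 1 := by
        unfold cj
        exact smul_one _
      rw [this, Ideal.absNorm_top]
      simp
  · intro I' L hI' hL ih hI
    have hLp : L.IsPrime := Ideal.isPrime_of_prime hL
    have hgood : GoodI p E I' := by
      refine ⟨hI', fun Q hQ hle => hI.2 Q hQ (le_trans Ideal.mul_le_right hle)⟩
    obtain ⟨J', hJ0, hJ1, hJ2⟩ := ih hgood
    obtain ⟨l, hl, hlL, hl2⟩ := hI.2 L hLp Ideal.mul_le_left
    have : ∃ J : 𝓞 E, J ≠ 0 ∧ Ideal.span {J} = thI p E L ∧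
        J * cj p E J = ((Ideal.absNorm L : ℕ) : 𝓞 E) := by
      have hsq : (l : ZMod p) = 1 ∨ (l : ZMod p) = -1 := by
        have h0 : ((l : ZMod p) - 1) * ((l : ZMod p) + 1) = 0 := by linear_combination hl2
        rcases mul_eq_zero.1 h0 with h | h
        · exact Or.inl (sub_eq_zero.1 h)
        · exact Or.inr (eq_neg_of_add_eq_zero_left h)
      rcases hsq with h | h
      · exact jacobi_one p E hp L hLp l hl hlL h
      · exact jacobi_neg_one p E hp L hLp l hl hlL h
    obtain ⟨J, h0, h1, h2⟩ := this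
    refine ⟨J * J', mul_ne_zero h0 hJ0, ?_, ?_⟩
    · rw [thI_mul, ← h1, ← hJ1, Ideal.span_singleton_mul_span_singleton]
    · rw [cj_mul, map_mul]
      push_cast
      rw [← h2, ← hJ2]
      ring

end Pool.Agent.H22.WQ
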