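import Pool.Agent.H22.WQ.Base
import Pool.Agent.H22.WQ.Op
import Pool.Agent.H22.WQ.Nm
import Pool.Agent.H22.WQ.JacI

/-!
# WQ Unt: `θ(x) = ± ζ^e J^p` for good `x`

`(x) = I^p`, `I` good, `J` from `jacobi_ideal`.  `(θ x) = thI (x) = (thI I)^p = (J^p)`
(`thI_span, thI_pow`), so `θ x = u J^p` with a unit `u` of `𝓞 E`
(`Ideal.span_singleton_eq_span_singleton`).  `θ x * cj (θ x) = N(x) > 0` and
`(J * cj J)^p = (N I)^p = |N(x)| = N(x)` (`absNorm_span_singleton`, `norm_pos`).  Hence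
`u * cj u = 1` (cancel).  For every `φ : E →+* ℂ`: `φ(u) * conj φ(u) = 1` (`cj_embedding`), so
`‖φ u‖ = 1`, and `u` is a root of unity (`NumberField.Embeddings.pow_eq_one_of_norm_eq_one`).
A root of unity of `E` is `± ζ^e` (`p` odd): `IsPrimitiveRoot.exists_neg_pow_of_isOfFinOrder` or
`IsCyclotomicExtension...`, search `exists_neg_pow_of_isOfFinOrder`,
`exists_pow_or_neg_mul_pow_of_isOfFinOrder`.
-/

open NumberField
open scoped Pointwise

namespace Pool.Agent.H22.WQ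

variable (p : ℕ) [Fact p.Prime] (E : Type*) [Field E] [NumberField E]
  [IsCyclotomicExtension {p} ℚ E]

theorem Unt_cj_pow (x : 𝓞 E) (n : ℕ) : cj p E (x ^ n) = cj p E x ^ n := by
  unfold cj
  exact smul_pow' _ _ _

/-- a unit `u` with `u * cj u = 1` is `± ζ^e` -/
theorem Unt_root (hp : 5 ≤ p) (u : 𝓞 E) (hu : u * cj p E u = 1) :
    ∃ (e : ℕ) (s : ℤ), (s = 1 ∨ s = -1) ∧ u = (s : 𝓞 E) * zt p E ^ e := by
  have h1 : ∀ φ : E →+* ℂ, ‖φ (u : E)‖ = 1 := by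
    intro φ
    have h2 : φ (u : E) * (starRingEnd ℂ) (φ (u : E)) = 1 := by
      rw [← cj_embedding p E φ u, ← map_mul]
      have h3 : ((u : 𝓞 E) : E) * ((cj p E u : 𝓞 E) : E) = 1 := by
        have := congrArg (fun y : 𝓞 E => (y : E)) hu
        simpa using this
      rw [h3, map_one]
    rw [Complex.mul_conj, Complex.normSq_eq_norm_sq] at h2
    have h4 : ‖φ (u : E)‖ ^ 2 = 1 := by exact_mod_cast h2
    have h5 := norm_nonneg (φ (u : E))
    nlinarith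
  obtain ⟨n, hn, hn1⟩ := NumberField.Embeddings.pow_eq_one_of_norm_eq_one E ℂ
    (RingOfIntegers.isIntegral_coe u) h1
  have hodd : Odd p := (Fact.out : p.Prime).odd_of_ne_two (by omega)
  have hz : IsPrimitiveRoot ((zt p E : 𝓞 E) : E) p := IsCyclotomicExtension.zeta_spec p ℚ E
  obtain ⟨r, -, hr⟩ := hz.exists_pow_or_neg_mul_pow_of_isOfFinOrder hodd
    (isOfFinOrder_iff_pow_eq_one.2 ⟨n, hn, hn1⟩)
  rcases hr with hr | hr
  · refine ⟨r, 1, Or.inl rfl, ?_⟩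
    apply RingOfIntegers.ext
    refine Eq.trans hr ?_
    simp
  · refine ⟨r, -1, Or.inr rfl, ?_⟩
    apply RingOfIntegers.ext
    refine Eq.trans hr ?_
    simp

theorem th_eq_of_good (hp : 5 ≤ p) (x : 𝓞 E) (hx : Good p E x) :
    ∃ (J : 𝓞 E) (e : ℕ) (s : ℤ), (s = 1 ∨ s = -1) ∧
      th p E x = (s : 𝓞 E) * zt p E ^ e * J ^ p := by
  have hp3 : 3 ≤ p := by omega
  obtain ⟨hx0, I, hI, hspan⟩ := hx
  obtain ⟨J, hJ0, hJ1, hJ2⟩ := jacobi_ideal p E hp I hI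
  have h1 : Ideal.span {J ^ p} = Ideal.span {th p E x} := by
    rw [← thI_span, hspan, thI_pow, ← hJ1, Ideal.span_singleton_pow]
  rw [Ideal.span_singleton_eq_span_singleton] at h1
  obtain ⟨u, hu⟩ := h1
  have h2 := th_mul_cj p E hp3 x
  have h3 : (J * cj p E J) ^ p = ((Algebra.norm ℤ x : ℤ) : 𝓞 E) := by
    rw [hJ2]
    have h4 : (Ideal.absNorm I) ^ p = (Algebra.norm ℤ x).natAbs := by
      rw [← map_pow, ← hspan, Ideal.absNorm_span_singleton]
    have h5 : (((Ideal.absNorm I) ^ p : ℕ) : ℤ) = Algebra.norm ℤ x := by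
      rw [h4]
      exact Int.natAbs_of_nonneg (norm_pos p E hp3 hx0).le
    rw [← h5]
    push_cast
    ring
  have h4 : (u : 𝓞 E) * cj p E (u : 𝓞 E) = 1 := by
    have hne : (J * cj p E J) ^ p ≠ 0 := by
      rw [h3]
      exact_mod_cast (norm_pos p E hp3 hx0).ne'
    apply mul_right_cancel₀ hne
    have h6 : J ^ p * (u : 𝓞 E) * (cj p E J ^ p * cj p E (u : 𝓞 E)) =
        (J * cj p E J) ^ p := by
      rw [h3, ← h2, ← hu, cj_mul, Unt_cj_pow]
    rw [one_mul]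
    conv_rhs => rw [← h6]
    ring
  obtain ⟨e, s, hs, hue⟩ := Unt_root p E hp (u : 𝓞 E) h4
  refine ⟨J, e, s, hs, ?_⟩
  rw [← hu, hue]
  ring

end Pool.Agent.H22.WQ
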