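import Pool.Agent.H22.WQ.Base
import Pool.Agent.H22.WQ.Op
import Pool.Agent.H22.WQ.Sq
import Pool.Agent.H22.WQ.Harm
import Pool.Agent.H22.WQ.Two
import Pool.Agent.H22.WQ.Pi2
import Pool.Agent.H22.WQ.ThPi
import Pool.Agent.H22.WQ.Unt

/-!
# WQ Core: the main relation

`z = zt p E`, `S = (SS p).val`, `π = 1 - z`.  `θ x = θ(π)^M θ(A1)` and
`θ(A1) = s z^e J^p` (`th_eq_of_good`), `θ(π)² = ε p z^S` (`th_one_sub_zt`).

* mod 2: `z^(k S) ≡ θ(x)² = (ε p)^M z^(M S) z^(2 e) (J²)^p ≡ z^(M S + 2 e) (J²)^p (mod 2)` since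
  `ε p` is odd.  `eq_of_pow_mod_two`: `k S = M S + 2 e` in `ZMod p`.
* mod `π²`: `θ(A1) ≡ n' z^(b S)` with `n' = n^((p-1)/2)`, `p ∤ n'` (`th_mod_pi_sq`), and
  `θ(A1) = s z^e J^p ≡ s j z^e` (`exists_int_pow`, `pi_sq_dvd`).  `eq_of_mod_pi_sq`:
  `b S = e` in `ZMod p` (with `m = n'`, `n = s j`).
* So `(k - M - 2 b) S = 0` in `ZMod p` and `S ≠ 0` by `wieferich_of_SS`.
-/

open NumberField
open scoped Pointwise

namespace Pool.Agent.H22.WQ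

variable (p : ℕ) [Fact p.Prime] (E : Type*) [Field E] [NumberField E]
  [IsCyclotomicExtension {p} ℚ E]

theorem core_rel (hp : 5 ≤ p) (hW : ¬ p ^ 2 ∣ 2 ^ (p - 1) - 1) (x A1 : 𝓞 E) (M : ℕ)
    (hx : x = (1 - zt p E) ^ M * A1) (hA : Good p E A1) (n : ℤ) (hn : ¬ (p : ℤ) ∣ n) (b : ℕ)
    (hb : (1 - zt p E) ^ 2 ∣ A1 - (n : 𝓞 E) * zt p E ^ b) (k : ℕ)
    (hk : (2 : 𝓞 E) ∣ th p E x ^ 2 - zt p E ^ (k * (SS p).val)) :
    (k : ZMod p) - M = 2 * b := by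
  have hp3 : 3 ≤ p := by omega
  have hpp : p.Prime := Fact.out
  obtain ⟨J, e, s, hs, hJ⟩ := th_eq_of_good p E hp A1 hA
  obtain ⟨ε, hε, hπ⟩ := th_one_sub_zt p E hp
  have hs2 : s ^ 2 = 1 := by rcases hs with h | h <;> rw [h] <;> norm_num
  have hs2' : (s : 𝓞 E) ^ 2 = 1 := by exact_mod_cast congrArg (Int.cast : ℤ → 𝓞 E) hs2
  -- the square
  have h1 : th p E x ^ 2 =
      (((ε * p) ^ M : ℤ) : 𝓞 E) * (zt p E ^ (M * (SS p).val + 2 * e) * (J ^ 2) ^ p) := by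
    rw [hx, th_mul, th_pow, hJ]
    have e1 : (th p E (1 - zt p E) ^ M * ((s : 𝓞 E) * zt p E ^ e * J ^ p)) ^ 2 =
        (th p E (1 - zt p E) ^ 2) ^ M * ((s : 𝓞 E) ^ 2 * (zt p E ^ e) ^ 2 * (J ^ 2) ^ p) := by
      ring
    rw [e1, hπ, hs2', mul_pow]
    push_cast
    ring
  -- modulo 2
  have hodd : Odd p := hpp.odd_of_ne_two (by omega)
  have h2 : (2 : ℤ) ∣ (ε * p) ^ M - 1 := by
    have h3 : Odd (ε * (p : ℤ)) := by
      refine Odd.mul ?_ (by exact_mod_cast hodd)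
      rcases hε with h | h <;> rw [h] <;> decide
    have h4 := (h3.pow (n := M)).sub_odd odd_one
    exact h4.two_dvd
  have h3 : (2 : 𝓞 E) ∣ (((ε * p) ^ M : ℤ) : 𝓞 E) - 1 := by
    obtain ⟨c, hc⟩ := h2
    refine ⟨(c : 𝓞 E), ?_⟩
    have := congrArg (Int.cast : ℤ → 𝓞 E) hc
    push_cast at this ⊢
    exact this
  have h4 : (2 : 𝓞 E) ∣ zt p E ^ (k * (SS p).val) -
      zt p E ^ (M * (SS p).val + 2 * e) * (J ^ 2) ^ p := by
    have h5 : zt p E ^ (k * (SS p).val) - zt p E ^ (M * (SS p).val + 2 * e) * (J ^ 2) ^ p =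
        -(th p E x ^ 2 - zt p E ^ (k * (SS p).val)) +
        ((((ε * p) ^ M : ℤ) : 𝓞 E) - 1) *
          (zt p E ^ (M * (SS p).val + 2 * e) * (J ^ 2) ^ p) := by
      rw [h1]
      ring
    rw [h5]
    exact dvd_add (hk.neg_right) (h3.mul_right _)
  have h6 := eq_of_pow_mod_two p E hp3 hW _ _ _ h4
  -- modulo π²
  have h7 := th_mod_pi_sq p E hp3 n b hb
  obtain ⟨j, hj⟩ := exists_int_pow p E hp3 J
  have h8 : (1 - zt p E) ^ 2 ∣ J ^ p - (j : 𝓞 E) := (pi_sq_dvd p E hp3).trans hj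
  have h9 : (1 - zt p E) ^ 2 ∣ ((n ^ ((p - 1) / 2) : ℤ) : 𝓞 E) * zt p E ^ (b * (SS p).val) -
      ((s * j : ℤ) : 𝓞 E) * zt p E ^ e := by
    have h10 : ((n ^ ((p - 1) / 2) : ℤ) : 𝓞 E) * zt p E ^ (b * (SS p).val) -
      ((s * j : ℤ) : 𝓞 E) * zt p E ^ e =
      -(th p E A1 - ((n ^ ((p - 1) / 2) : ℤ) : 𝓞 E) * zt p E ^ (b * (SS p).val)) +
      (J ^ p - (j : 𝓞 E)) * ((s : 𝓞 E) * zt p E ^ e) := by
      rw [hJ]
      push_cast
      ring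
    rw [h10]
    exact dvd_add (h7.neg_right) (h8.mul_right _)
  have h10 : ¬ (p : ℤ) ∣ n ^ ((p - 1) / 2) := fun h =>
    hn ((Nat.prime_iff_prime_int.1 hpp).dvd_of_dvd_pow h)
  have h11 := eq_of_mod_pi_sq p E hp3 _ _ h10 _ _ h9
  have hS : SS p ≠ 0 := fun h => hW (wieferich_of_SS p hp3 h)
  push_cast at h6 h11
  rw [ZMod.natCast_zmod_val] at h6 h11
  have h12 : ((k : ZMod p) - M - 2 * b) * SS p = 0 := by
    linear_combination h6 - 2 * h11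
  rcases mul_eq_zero.1 h12 with h | h
  · linear_combination h
  · exact absurd h hS

end Pool.Agent.H22.WQ
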