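import Pool.Agent.H22.WQ.Base
import Pool.Agent.H22.WQ.Pi2

/-!
# WQ Exp: `P(ζ)` at the prime above `p`

`z = zt p E = 1 - π`.  `P(z) = a0 + a1 z + a2 z² = v - d π + a2 π²` with `v = a0+a1+a2`,
`d = a1 + 2 a2`.  `p` is divisible by `π^(p-1)`, in particular by `π^4` (`p ≥ 5`; use
`IsPrimitiveRoot`/`associated_zeta_sub_one_pow_prime` or `map_eq_span_zeta_sub_one_pow`).
`z^b ≡ 1 - b π (mod π²)`.

1. `p ∤ v`: `M = 0`, `A1 = P(z)`, `n = v`, `b` a natural number with `b v = d` in `ZMod p`: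
   `A1 - v z^b ≡ (b v - d) π ≡ 0 (mod π²)`.
2. `p ∣ v`, `p ∤ d`: `v = π^4 v'`, `M = 1`, `A1 = π^3 v' - d + a2 π`, `n = -d`, `b d = a2` in
   `ZMod p`: `A1 + d z^b ≡ (a2 - b d) π ≡ 0 (mod π²)`.
3. `p ∣ v`, `p ∣ d`: `v = π^4 v'`, `d = π^4 d'`, `M = 2`, `A1 = π² v' - π³ d' + a2`, `n = a2`,
   `b = 0`; `p ∤ a2` (otherwise `p ∣ a1`, `p ∣ a0`).
In all cases `π ∤ A1` since `A1 ≡ n (mod π)` and `p ∤ n` (`pi_dvd_int_iff`).
The last claim: `k - M = 2 b` in `ZMod p` gives `Rl p k a0 a1 a2` by multiplying with `v`, `d`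
(only the relevant clause of `Rl` is not vacuous).
-/

open NumberField
open scoped Pointwise

namespace Pool.Agent.H22.WQ

variable (p : ℕ) [Fact p.Prime] (E : Type*) [Field E] [NumberField E]
  [IsCyclotomicExtension {p} ℚ E]

theorem Exp_pi_four (hp : 5 ≤ p) : (1 - zt p E) ^ 4 ∣ (p : 𝓞 E) := by
  have h := IsCyclotomicExtension.Rat.associated_zeta_sub_one_pow_prime p
    (IsCyclotomicExtension.zeta_spec p ℚ E)
  have h1 : (1 - zt p E) ^ 4 = (zt p E - 1) ^ 4 := by ring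
  rw [h1]
  exact (pow_dvd_pow _ (by omega : 4 ≤ p - 1)).trans h.dvd

theorem Exp_four_int (hp : 5 ≤ p) (n : ℤ) (h : (p : ℤ) ∣ n) :
    ∃ w : 𝓞 E, (n : 𝓞 E) = (1 - zt p E) ^ 4 * w := by
  obtain ⟨c, hc⟩ := h
  obtain ⟨w, hw⟩ := Exp_pi_four p E hp
  refine ⟨w * c, ?_⟩
  rw [hc]
  push_cast
  rw [hw]
  ring

theorem Exp_pow (z : 𝓞 E) (b : ℕ) : ∃ r : 𝓞 E, z ^ b = 1 - b * (1 - z) + (1 - z) ^ 2 * r := by
  induction b with
  | zero => exact ⟨0, by simp⟩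
  | succ b ih =>
    obtain ⟨r, hr⟩ := ih
    refine ⟨r * z + b, ?_⟩
    rw [pow_succ, hr]
    push_cast
    ring

theorem Exp_not_dvd (n : ℤ) (hn : ¬ (p : ℤ) ∣ n) (A : 𝓞 E) (c : 𝓞 E)
    (hA : A = n + (1 - zt p E) * c) : ¬ (1 - zt p E) ∣ A := by
  intro h
  apply hn
  rw [← pi_dvd_int_iff p E]
  have h1 : (n : 𝓞 E) = A - (1 - zt p E) * c := by rw [hA]; ring
  rw [h1]
  exact dvd_sub h (dvd_mul_right _ _)

theorem Exp_b (v d : ℤ) (hv : ¬ (p : ℤ) ∣ v) : ∃ b : ℕ, (b : ZMod p) * (v : ZMod p) = d ∧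
    (p : ℤ) ∣ (b : ℤ) * v - d := by
  have hv0 : (v : ZMod p) ≠ 0 := by
    rw [Ne, ZMod.intCast_zmod_eq_zero_iff_dvd]
    exact hv
  refine ⟨((d : ZMod p) * (v : ZMod p)⁻¹).val, ?_⟩
  have h1 : ((((d : ZMod p) * (v : ZMod p)⁻¹).val : ℕ) : ZMod p) * (v : ZMod p) = d := by
    rw [ZMod.natCast_zmod_val, mul_assoc, inv_mul_cancel₀ hv0, mul_one]
  refine ⟨h1, ?_⟩
  rw [← ZMod.intCast_zmod_eq_zero_iff_dvd]
  push_cast
  rw [h1, sub_self]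

theorem expand (hp : 5 ≤ p) (a0 a1 a2 : ℤ)
    (h : ¬ ((p : ℤ) ∣ a0 ∧ (p : ℤ) ∣ a1 ∧ (p : ℤ) ∣ a2)) :
    ∃ (M : ℕ) (A1 : 𝓞 E) (n : ℤ) (b : ℕ),
      (a0 : 𝓞 E) + a1 * zt p E + a2 * zt p E ^ 2 = (1 - zt p E) ^ M * A1 ∧
      ¬ (1 - zt p E) ∣ A1 ∧ ¬ (p : ℤ) ∣ n ∧ (1 - zt p E) ^ 2 ∣ A1 - (n : 𝓞 E) * zt p E ^ b ∧
      ∀ k : ℕ, ((k : ZMod p) - M = 2 * b → Rl p k a0 a1 a2) := by
  have cast_ne : ∀ n : ℤ, ¬ (p : ℤ) ∣ n → (n : ZMod p) ≠ 0 := fun n hn => by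
    rw [Ne, ZMod.intCast_zmod_eq_zero_iff_dvd]
    exact hn
  have cast_z : ∀ n : ℤ, (p : ℤ) ∣ n → (n : ZMod p) = 0 := fun n hn =>
    (ZMod.intCast_zmod_eq_zero_iff_dvd n p).2 hn
  by_cases hv : (p : ℤ) ∣ a0 + a1 + a2
  · obtain ⟨v', hv'⟩ := Exp_four_int p E hp _ hv
    have hvz := cast_z _ hv
    push_cast at hv' hvz
    by_cases hd : (p : ℤ) ∣ a1 + 2 * a2
    · obtain ⟨d', hd'⟩ := Exp_four_int p E hp _ hd
      have hdz := cast_z _ hd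
      push_cast at hd' hdz
      have ha2 : ¬ (p : ℤ) ∣ a2 := by
        intro h2
        apply h
        have h1 : (p : ℤ) ∣ a1 := by
          have := dvd_sub hd (h2.mul_left 2)
          rwa [add_sub_cancel_right] at this
        have h0 : (p : ℤ) ∣ a0 := by
          have := dvd_sub (dvd_sub hv h2) h1
          have e : a0 + a1 + a2 - a2 - a1 = a0 := by ring
          rwa [e] at this
        exact ⟨h0, h1, h2⟩
      refine ⟨2, (a2 : 𝓞 E) + (1 - zt p E) * ((1 - zt p E) * v' - (1 - zt p E) ^ 2 * d'), a2, 0,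
        ?_, Exp_not_dvd p E a2 ha2 _ _ rfl, ha2, ⟨v' - (1 - zt p E) * d', by ring⟩, ?_⟩
      · have e : (a0 : 𝓞 E) + a1 * zt p E + a2 * zt p E ^ 2 =
          (a0 + a1 + a2) - (a1 + 2 * a2) * (1 - zt p E) + a2 * (1 - zt p E) ^ 2 := by ring
        rw [e, hv', hd']
        ring
      · intro k hk
        refine ⟨fun h1 => absurd hvz h1, fun _ h2 => absurd hdz h2, fun _ _ => ?_⟩
        push_cast at hk
        rw [mul_zero, sub_eq_zero] at hk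
        exact hk
    · obtain ⟨b, hb1, hb2⟩ := Exp_b p _ a2 hd
      obtain ⟨r, hr⟩ := Exp_pow E (zt p E) b
      obtain ⟨w, hw⟩ := Exp_four_int p E hp _ hb2
      push_cast at hw hb1
      have hd2 : ¬ (p : ℤ) ∣ -(a1 + 2 * a2) := by rwa [Int.dvd_neg]
      refine ⟨1, ((-(a1 + 2 * a2) : ℤ) : 𝓞 E) + (1 - zt p E) * ((1 - zt p E) ^ 2 * v' + a2),
        -(a1 + 2 * a2), b, ?_, Exp_not_dvd p E _ hd2 _ _ rfl, hd2, ?_, ?_⟩
      · have e : (a0 : 𝓞 E) + a1 * zt p E + a2 * zt p E ^ 2 =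
          (a0 + a1 + a2) - (a1 + 2 * a2) * (1 - zt p E) + a2 * (1 - zt p E) ^ 2 := by ring
        rw [e, hv']
        push_cast
        ring
      · refine ⟨(1 - zt p E) * v' - (1 - zt p E) ^ 3 * w + (a1 + 2 * a2) * r, ?_⟩
        rw [hr]
        push_cast
        have e : (a2 : 𝓞 E) = b * (a1 + 2 * a2) - (1 - zt p E) ^ 4 * w := by
          rw [← hw]
          ring
        have e2 : (-(a1 + 2 * a2) : 𝓞 E) + (1 - zt p E) * ((1 - zt p E) ^ 2 * v' + a2) -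
            -(a1 + 2 * a2) * (1 - b * (1 - zt p E) + (1 - zt p E) ^ 2 * r) =
            (1 - zt p E) ^ 3 * v' + (1 - zt p E) * (a2 - b * (a1 + 2 * a2)) +
              (a1 + 2 * a2) * (1 - zt p E) ^ 2 * r := by ring
        have e3 : (a2 : 𝓞 E) - b * (a1 + 2 * a2) = - ((1 - zt p E) ^ 4 * w) := by
          rw [← hw]
          ring
        rw [e2, e3]
        ring
      · intro k hk
        refine ⟨fun h1 => absurd hvz h1, fun _ _ => ?_, fun _ h2 => ?_⟩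
        · push_cast at hk
          rw [hk, mul_assoc, hb1]
        · exact absurd h2 (by exact_mod_cast cast_ne _ hd)
  · obtain ⟨b, hb1, hb2⟩ := Exp_b p _ (a1 + 2 * a2) hv
    obtain ⟨r, hr⟩ := Exp_pow E (zt p E) b
    obtain ⟨w, hw⟩ := Exp_four_int p E hp _ hb2
    push_cast at hw hb1
    refine ⟨0, ((a0 + a1 + a2 : ℤ) : 𝓞 E) + (1 - zt p E) * (-(a1 + 2 * a2) + a2 * (1 - zt p E)),
      a0 + a1 + a2, b, ?_, Exp_not_dvd p E _ hv _ _ rfl, hv, ?_, ?_⟩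
    · push_cast
      ring
    · refine ⟨a2 - (a0 + a1 + a2) * r + (1 - zt p E) ^ 3 * w, ?_⟩
      rw [hr]
      push_cast
      have e2 : ((a0 + a1 + a2) + (1 - zt p E) * (-(a1 + 2 * a2) + a2 * (1 - zt p E)) -
          (a0 + a1 + a2) * (1 - b * (1 - zt p E) + (1 - zt p E) ^ 2 * r) : 𝓞 E) =
          (1 - zt p E) * (b * (a0 + a1 + a2) - (a1 + 2 * a2)) +
            (1 - zt p E) ^ 2 * (a2 - (a0 + a1 + a2) * r) := by ring
      rw [e2, hw]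
      ring
    · intro k hk
      have hne : ((a0 : ZMod p) + a1 + a2) ≠ 0 := by exact_mod_cast cast_ne _ hv
      refine ⟨fun _ => ?_, fun h1 => absurd h1 hne, fun h1 => absurd h1 hne⟩
      push_cast at hk
      rw [sub_zero] at hk
      rw [hk, ← hb1]
      ring

end Pool.Agent.H22.WQ
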