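import Pool.Agent.H22.WQ.Cls

/-!
# WQ Fin: the main theorem
-/

open NumberField IsDedekindDomain

namespace Pool.Agent.H22.WQ

/-- a model of the cyclotomic field, with the right algebra structure -/
theorem exists_cyc (p : ℕ) [Fact p.Prime] : ∃ (E : Type) (_ : Field E) (_ : NumberField E),
    IsCyclotomicExtension {p} ℚ E := by
  haveI : NeZero ((p : ℕ) : ℚ) := ⟨by exact_mod_cast (Fact.out : p.Prime).ne_zero⟩
  refine ⟨CyclotomicField p ℚ, inferInstance, inferInstance, ?_⟩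
  have h := CyclotomicField.isCyclotomicExtension p ℚ
  have e : (CyclotomicField.algebra p ℚ : Algebra ℚ (CyclotomicField p ℚ)) =
    DivisionRing.toRatAlgebra := Subsingleton.elim _ _
  rw [e] at h
  exact h

theorem main (p : ℕ) [Fact p.Prime] (hp5 : 5 ≤ p) (hW : ¬ p ^ 2 ∣ 2 ^ (p - 1) - 1)
    {K : Type*} [Field K] [NumberField K] (hK : Module.finrank ℚ K = 2) (d : ℤ)
    (hd : Squarefree d) (hd1 : d ≠ 1) (δ : K) (hδ : δ ^ 2 = (d : K)) {a b c : K} (ha : a ≠ 0)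
    (hb : b ≠ 0) (hc : c ≠ 0) (h : a ^ p + b ^ p + c ^ p = 0) :
    (CI p a b c ∨ CI p b c a ∨ CI p c a b) ∨
    (d % 8 = 1 ∧ (CII p a b c ∨ CII p b c a ∨ CII p c a b ∨ CIII p d a b c)) ∨
    (d % 8 = 5 ∧ CIV p d a b c) := by
  obtain ⟨E, iF, iN, hE⟩ := exists_cyc p
  have hp : p.Prime := Fact.out
  obtain ⟨σ, hσ, hσδ, hspan⟩ := exists_cj hK d hd hd1 δ hδ
  obtain ⟨g, A, B, C, X, Y, Z, co⟩ := exists_coef σ hσ p hp.pos ha hb hc h
  have hg : g ≠ 0 := co.gpos.ne'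
  have hδ0 : δ ≠ 0 := by
    rintro rfl
    have : ((d : ℤ) : K) = 0 := by rw [← hδ]; simp
    have hd0 : d = 0 := by exact_mod_cast this
    exact hd.ne_zero hd0
  have h1 : b ^ p + c ^ p + a ^ p = 0 := by rw [← h]; ring
  have h2 : c ^ p + a ^ p + b ^ p = 0 := by rw [← h]; ring
  have m2 := coef_mod σ hσ co 2 Nat.prime_two
    (fun v hv => sum_small_two hK p hp hp5 ha h v (by exact_mod_cast hv))
  have mp := coef_mod σ hσ co p hp (fun v hv => sum_small_p p hp (by omega) ha h v hv)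
  have r1 := pairRel p E hp5 hW A Z B (co.pab 2 Nat.prime_two) (co.pab p hp)
    (goodOff_of_fermat p E hp5 hK σ ha hb hc h g hg A Z B co.hA co.hZ co.hB co.pab)
  have r2 := pairRel p E hp5 hW B X C (co.pbc 2 Nat.prime_two) (co.pbc p hp)
    (goodOff_of_fermat p E hp5 hK σ hb hc ha h1 g hg B X C co.hB co.hX co.hC co.pbc)
  have r3 := pairRel p E hp5 hW C Y A (co.pca 2 Nat.prime_two) (co.pca p hp)
    (goodOff_of_fermat p E hp5 hK σ hc ha hb h2 g hg C Y A co.hC co.hY co.hA co.pca)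
  have D : Dat p K σ d a b c g A B C X Y Z :=
    ⟨hp5, hK, hσ, hd, ha, hb, hc, h, co, m2, mp, r1, r2, r3,
      disc_eq σ hσ d δ hδ hδ0 hσδ hspan co, disc_eq σ hσ d δ hδ hδ0 hσδ hspan co.rot,
      disc_eq σ hσ d δ hδ hδ0 hσδ hspan co.rot.rot⟩
  have hne : ¬ ((A : ZMod 2) = 0 ∧ (Z : ZMod 2) = 0 ∧ (B : ZMod 2) = 0) := by
    rintro ⟨u1, u2, u3⟩
    exact co.pab 2 Nat.prime_two ⟨(zmod_zero (p := 2) A).1 u1, (zmod_zero (p := 2) Z).1 u2,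
      (zmod_zero (p := 2) B).1 u3⟩
  rcases parity A B C X Y Z m2.1 m2.2.1 m2.2.2 hne with
    (⟨a1, -, -, a4, k1, k2, k3⟩ | ⟨a1, -, -, a4, k1, k2, k3⟩ | ⟨a1, -, -, a4, k1, k2, k3⟩) |
    (⟨a1, a2, a3, a4, k1, k2, k3⟩ | ⟨a1, a2, a3, a4, k1, k2, k3⟩ | ⟨a1, a2, a3, a4, k1, k2, k3⟩) |
    ⟨a1, a2, a3, a4, k1, k2, k3⟩
  · exact Or.inl (Or.inl (case1 D a1 a4 k1 k2 k3))
  · exact Or.inl (Or.inr (Or.inl (case1 D.rot a1 a4 k1 k2 k3)))
  · exact Or.inl (Or.inr (Or.inr (case1 D.rot.rot a1 a4 k1 k2 k3)))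
  · obtain ⟨e1, e2⟩ := case2 D a1 a2 a3 a4 k1 k2 k3
    refine Or.inr (Or.inl ⟨e1, ?_⟩)
    rcases e2 with e2 | e2
    · exact Or.inl e2
    · exact Or.inr (Or.inr (Or.inr e2))
  · obtain ⟨e1, e2⟩ := case2 D.rot a1 a2 a3 a4 k1 k2 k3
    refine Or.inr (Or.inl ⟨e1, ?_⟩)
    rcases e2 with e2 | e2
    · exact Or.inr (Or.inl e2)
    · refine Or.inr (Or.inr (Or.inr ⟨fun v hv => ?_, e2.2⟩))
      obtain ⟨f1, f2⟩ := e2.1 v hv
      exact ⟨(f1.trans f2).symm, f1⟩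
  · obtain ⟨e1, e2⟩ := case2 D.rot.rot a1 a2 a3 a4 k1 k2 k3
    refine Or.inr (Or.inl ⟨e1, ?_⟩)
    rcases e2 with e2 | e2
    · exact Or.inr (Or.inr (Or.inl e2))
    · refine Or.inr (Or.inr (Or.inr ⟨fun v hv => ?_, e2.2⟩))
      obtain ⟨f1, f2⟩ := e2.1 v hv
      exact ⟨f2, (f1.trans f2).symm⟩
  · exact Or.inr (Or.inr (case3 D a1 a2 a3 a4 k1 k2 k3))

end Pool.Agent.H22.WQ
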