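import Pool.Agent.H22.WQ.Base
import Pool.Agent.H22.WQ.Pi2

/-!
# WQ Gd: from `GoodOff x` to `Good A1`

`x = π^M A1`, `π = 1 - ζ` a prime element, `π ∤ A1`, and `(π)` is the only prime above `p`
(`IsCyclotomicExtension.Rat.eq_span_zeta_sub_one_of_liesOver'`; or: `p` is associated to `π^(p-1)`,
so a prime containing `p` contains `π` and equals `(π)`, a maximal ideal).  `A1 ≠ 0`.
For every nonzero prime `v` of `𝓞 E`: if `p ∈ v` then `v = (π)` and `A1 ∉ v`, valuation of `A1` is
`1 = 1^p`.  If `p ∉ v` then `π ∉ v` (since `π ∣ p`), the valuation of `π` is `1`, so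
`v(A1) = v(x) = u^p`.  So the exponent of every prime in `(A1)` is divisible by `p`; put
`I = ∏ v^(exponent/p)`, i.e. `(A1) = I^p` (`Ideal.finprod_heightOneSpectrum_factorization`, or
work with `UniqueFactorizationMonoid.normalizedFactors`, or strong induction on the number of prime
factors: if `A1` is not a unit take a prime `L ∣ (A1)`; its exponent is `p k`; divide by
`L^(p k)`).  Every prime `L ≥ I` contains `A1`, so `L ≠ (π)`, `p ∉ L`, `x ∈ L` and `GoodOff` gives
the prime `l`.
-/

open NumberField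
open scoped Pointwise

namespace Pool.Agent.H22.WQ

variable (p : ℕ) [Fact p.Prime] (E : Type*) [Field E] [NumberField E]
  [IsCyclotomicExtension {p} ℚ E]

private theorem Gd_pow {R : Type*} [CommRing R] [IsDedekindDomain R] {J : Ideal R} (hJ : J ≠ 0)
    {p : ℕ} (h : ∀ v : IsDedekindDomain.HeightOneSpectrum R,
      p ∣ (Associates.mk v.asIdeal).count (Associates.mk J).factors) :
    ∃ I : Ideal R, J = I ^ p := by
  set f : IsDedekindDomain.HeightOneSpectrum R → Ideal R := fun v =>
    v.asIdeal ^ ((Associates.mk v.asIdeal).count (Associates.mk J).factors / p) with hf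
  have hfin : Function.HasFiniteMulSupport f := by
    refine Set.Finite.subset (Ideal.hasFiniteMulSupport hJ) ?_
    intro v hv h0
    apply hv
    have h1 : (Associates.mk v.asIdeal).count (Associates.mk J).factors = 0 := by
      by_contra hne
      have h2 : v.asIdeal ^ ((Associates.mk v.asIdeal).count (Associates.mk J).factors) = 1 := h0
      have h3 : IsUnit v.asIdeal := (isUnit_pow_iff hne).1 (h2 ▸ isUnit_one)
      exact v.isPrime.ne_top (Ideal.isUnit_iff.1 h3)
    simp only [hf, h1, Nat.zero_div, pow_zero]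
  refine ⟨∏ᶠ v, f v, ?_⟩
  rw [finprod_pow hfin]
  conv_lhs => rw [← Ideal.finprod_heightOneSpectrum_factorization hJ]
  refine finprod_congr fun v => ?_
  simp only [hf, IsDedekindDomain.HeightOneSpectrum.maxPowDividing]
  rw [← pow_mul, Nat.div_mul_cancel (h v)]

private theorem Gd_over {p : ℕ} [Fact p.Prime] {E : Type*} [Field E] [NumberField E]
    [IsCyclotomicExtension {p} ℚ E] (P : Ideal (𝓞 E)) (hP : P.IsPrime) (h : (p : 𝓞 E) ∈ P) :
    P = Ideal.span {1 - zt p E} := by
  have hlo : P.LiesOver (Ideal.span {(p : ℤ)}) := by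
    constructor
    have hm : (Ideal.span {(p : ℤ)}).IsMaximal := Int.ideal_span_isMaximal_of_prime p
    apply hm.eq_of_le
    · exact (Ideal.comap_isPrime (algebraMap ℤ (𝓞 E)) P).ne_top
    · rw [Ideal.span_singleton_le_iff_mem, Ideal.under_def, Ideal.mem_comap]
      simpa using h
  have h1 := IsCyclotomicExtension.Rat.eq_span_zeta_sub_one_of_liesOver' p E
    (IsCyclotomicExtension.zeta_spec p ℚ E) P
  rw [h1, ← Ideal.span_singleton_neg, neg_sub]
  rfl

theorem good_of_goodOff (hp : 3 ≤ p) (x A1 : 𝓞 E) (M : ℕ) (hx : x = (1 - zt p E) ^ M * A1)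
    (hA : ¬ (1 - zt p E) ∣ A1) (h : GoodOff p E x) : Good p E A1 := by
  obtain ⟨hx0, hv⟩ := h
  have hA0 : A1 ≠ 0 := by
    rintro rfl
    exact hA (dvd_zero _)
  have hsp : Ideal.span {A1} ≠ 0 := by
    rw [Ne, Ideal.zero_eq_bot, Ideal.span_singleton_eq_bot]
    exact hA0
  have hnp : ∀ P : Ideal (𝓞 E), P.IsPrime → A1 ∈ P → (p : 𝓞 E) ∉ P := by
    intro P hP hAP hpP
    rw [Gd_over P hP hpP, Ideal.mem_span_singleton] at hAP
    exact hA hAP
  have hpi : ∀ v : IsDedekindDomain.HeightOneSpectrum (𝓞 E), (p : 𝓞 E) ∉ v.asIdeal →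
      1 - zt p E ∉ v.asIdeal := by
    intro v hpv hz
    apply hpv
    obtain ⟨c, hc⟩ := pi_sq_dvd p E hp
    rw [hc, sq, mul_assoc]
    exact Ideal.mul_mem_right _ _ hz
  obtain ⟨I, hI⟩ := Gd_pow hsp (p := p) (by
    intro v
    by_cases hAv : A1 ∈ v.asIdeal
    · have hpv := hnp v.asIdeal v.isPrime hAv
      obtain ⟨u, hu⟩ := (hv v hpv).1
      have h1 : v.valuation E (x : E) = v.intValuation x :=
        IsDedekindDomain.HeightOneSpectrum.valuation_of_algebraMap v x
      rw [h1, hx, map_mul, map_pow,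
        IsDedekindDomain.HeightOneSpectrum.intValuation_eq_one_iff.2 (hpi v hpv), one_pow, one_mul,
        v.intValuation_if_neg hA0] at hu
      have hu0 : u ≠ 0 := by
        rintro rfl
        rw [zero_pow (Nat.Prime.ne_zero Fact.out)] at hu
        exact WithZero.coe_ne_zero hu
      rw [← WithZero.exp_log hu0, ← WithZero.exp_nsmul, WithZero.exp_inj, nsmul_eq_mul] at hu
      have h2 : (p : ℤ) ∣
          ((Associates.mk v.asIdeal).count (Associates.mk (Ideal.span {A1})).factors : ℤ) := by
        rw [← dvd_neg, hu]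
        exact dvd_mul_right _ _
      exact_mod_cast h2
    · have h1 := IsDedekindDomain.HeightOneSpectrum.intValuation_eq_one_iff.2 hAv
      rw [v.intValuation_if_neg hA0, ← WithZero.exp_zero, WithZero.exp_inj] at h1
      have h2 : (Associates.mk v.asIdeal).count (Associates.mk (Ideal.span {A1})).factors = 0 := by
        omega
      rw [h2]
      exact dvd_zero _)
  refine ⟨hA0, I, ⟨?_, ?_⟩, hI⟩
  · rintro rfl
    rw [← Ideal.zero_eq_bot, zero_pow (Nat.Prime.ne_zero Fact.out)] at hI
    exact hsp hI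
  · intro L hL hIL
    have hAI : A1 ∈ L := by
      have h1 : A1 ∈ I ^ p := by
        rw [← hI]
        exact Ideal.mem_span_singleton_self _
      exact hIL (Ideal.pow_le_self (Nat.Prime.ne_zero Fact.out) h1)
    have hLb : L ≠ ⊥ := by
      rintro rfl
      exact hA0 ((Submodule.mem_bot _).1 hAI)
    have h2 := (hv ⟨L, hL, hLb⟩ (hnp L hL hAI)).2
    apply h2
    show x ∈ L
    rw [hx]
    exact Ideal.mul_mem_left _ _ hAI

end Pool.Agent.H22.WQ
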