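import Pool.Agent.H22.WQ.Base
import Pool.Agent.H22.WQ.Op
import Pool.Agent.H22.WQ.Sq
import Pool.Agent.H22.WQ.ThPi

/-!
# WQ Pal: the seven polynomials modulo 2

`z = zt p E`.  `a0 + a1 z + a2 z²` is congruent modulo 2 to `g(z)` with
`g = z², z, z(1+z), 1, (1+z)², 1+z, 1+z+z²` according to the parities
`(a0,a1,a2) = (0,0,1), (0,1,0), (0,1,1), (1,0,0), (1,0,1), (1,1,0), (1,1,1)`
(`1 + z² ≡ (1+z)² (mod 2)`).  By `th_congr_two` it suffices to know `θ(g(z))² = z^(kk S)`, which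
follows from `th_mul`, `th_zt`, `th_one_add_zt`, `th_one_add_zt_add_sq`
(`θ(z)² = z^(2S)`, `θ(z²)² = z^(4S)`, `θ(z(1+z))² = z^(3S)`, `θ((1+z)²)² = z^(2S)`).
(`2 ∣ u - v → 2 ∣ u² - v²`.)  Case `(0,0,0)` is excluded by `h`.
-/

open NumberField
open scoped Pointwise

namespace Pool.Agent.H22.WQ

variable (p : ℕ) [Fact p.Prime] (E : Type*) [Field E] [NumberField E]
  [IsCyclotomicExtension {p} ℚ E]

theorem Pal_aux (x g : 𝓞 E) (h : (2 : 𝓞 E) ∣ x - g) (k : ℕ)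
    (hg : th p E g ^ 2 = zt p E ^ (k * (SS p).val)) :
    (2 : 𝓞 E) ∣ th p E x ^ 2 - zt p E ^ (k * (SS p).val) := by
  rw [← hg]
  have h1 : th p E x ^ 2 - th p E g ^ 2 = (th p E x - th p E g) * (th p E x + th p E g) := by ring
  rw [h1]
  exact (th_congr_two p E h).mul_right _

theorem pal (hp : 5 ≤ p) (a0 a1 a2 : ℤ) (h : ¬ ((2 : ℤ) ∣ a0 ∧ (2 : ℤ) ∣ a1 ∧ (2 : ℤ) ∣ a2)) :
    (2 : 𝓞 E) ∣ th p E ((a0 : 𝓞 E) + a1 * zt p E + a2 * zt p E ^ 2) ^ 2 -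
      zt p E ^ (kk a0 a1 a2 * (SS p).val) := by
  have h0 : ∀ c : ℤ, ((2 * c : ℤ) : ZMod 2) = 0 := fun c => by
    rw [ZMod.intCast_zmod_eq_zero_iff_dvd]
    exact ⟨c, by push_cast; ring⟩
  have h1 : ∀ c : ℤ, ((2 * c + 1 : ℤ) : ZMod 2) = 1 := fun c => by
    rw [Int.cast_add, h0, Int.cast_one, zero_add]
  have hone : th p E (1 : 𝓞 E) = 1 := by
    have := th_pow p E (1 : 𝓞 E) 0
    simpa using this
  have e1 := th_one_add_zt p E hp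
  have e2 := th_one_add_zt_add_sq p E hp
  have e3 := th_zt p E
  obtain ⟨c0, h00 | h00⟩ := Int.even_or_odd' a0 <;> obtain ⟨c1, h11 | h11⟩ := Int.even_or_odd' a1 <;>
    obtain ⟨c2, h22 | h22⟩ := Int.even_or_odd' a2 <;> subst h00 <;> subst h11 <;> subst h22 <;>
    (try rw [h0]) <;> (try rw [h1]) <;> (try rw [h0]) <;> (try rw [h1]) <;> (try rw [h0]) <;>
    (try rw [h1])
  · exact absurd ⟨⟨c0, rfl⟩, ⟨c1, rfl⟩, ⟨c2, rfl⟩⟩ h
  · refine Pal_aux p E _ (zt p E ^ 2) ⟨c0 + c1 * zt p E + c2 * zt p E ^ 2, ?_⟩ _ ?_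
    · push_cast; ring
    · rw [th_pow, e3]
      have : kk 0 0 1 = 4 := rfl
      rw [this]; ring
  · refine Pal_aux p E _ (zt p E) ⟨c0 + c1 * zt p E + c2 * zt p E ^ 2, ?_⟩ _ ?_
    · push_cast; ring
    · rw [e3]
      have : kk 0 1 0 = 2 := rfl
      rw [this]; ring
  · refine Pal_aux p E _ (zt p E * (1 + zt p E)) ⟨c0 + c1 * zt p E + c2 * zt p E ^ 2, ?_⟩ _ ?_
    · push_cast; ring
    · rw [th_mul, mul_pow, e1, e3]
      have : kk 0 1 1 = 3 := rfl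
      rw [this]; ring
  · refine Pal_aux p E _ 1 ⟨c0 + c1 * zt p E + c2 * zt p E ^ 2, ?_⟩ _ ?_
    · push_cast; ring
    · rw [hone]
      have : kk 1 0 0 = 0 := rfl
      rw [this]; ring
  · refine Pal_aux p E _ ((1 + zt p E) ^ 2)
      ⟨c0 + (c1 - 1) * zt p E + c2 * zt p E ^ 2, ?_⟩ _ ?_
    · push_cast; ring
    · rw [th_pow, e1]
      have : kk 1 0 1 = 2 := rfl
      rw [this]; ring
  · refine Pal_aux p E _ (1 + zt p E) ⟨c0 + c1 * zt p E + c2 * zt p E ^ 2, ?_⟩ _ ?_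
    · push_cast; ring
    · rw [e1]
      have : kk 1 1 0 = 1 := rfl
      rw [this]; ring
  · refine Pal_aux p E _ (1 + zt p E + zt p E ^ 2) ⟨c0 + c1 * zt p E + c2 * zt p E ^ 2, ?_⟩ _ ?_
    · push_cast; ring
    · rw [e2]
      have : kk 1 1 1 = 2 := rfl
      rw [this]

end Pool.Agent.H22.WQ
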