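import Pool.Agent.H22.WQ.Core
import Pool.Agent.H22.WQ.Pal
import Pool.Agent.H22.WQ.Exp
import Pool.Agent.H22.WQ.Gd

/-!
# WQ PairRel: the relation for one pair
-/

open NumberField
open scoped Pointwise

namespace Pool.Agent.H22.WQ

variable (p : ℕ) [Fact p.Prime] (E : Type*) [Field E] [NumberField E]
  [IsCyclotomicExtension {p} ℚ E]

theorem pairRel (hp : 5 ≤ p) (hW : ¬ p ^ 2 ∣ 2 ^ (p - 1) - 1) (a0 a1 a2 : ℤ)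
    (h2 : ¬ ((2 : ℤ) ∣ a0 ∧ (2 : ℤ) ∣ a1 ∧ (2 : ℤ) ∣ a2))
    (hpp : ¬ ((p : ℤ) ∣ a0 ∧ (p : ℤ) ∣ a1 ∧ (p : ℤ) ∣ a2))
    (h : GoodOff p E ((a0 : 𝓞 E) + a1 * zt p E + a2 * zt p E ^ 2)) :
    Rl p (kk a0 a1 a2) a0 a1 a2 := by
  obtain ⟨M, A1, n, b, hx, hA, hn, hb, hk⟩ := expand p E hp a0 a1 a2 hpp
  exact hk _ (core_rel p E hp hW _ A1 M hx (good_of_goodOff p E (by omega) _ A1 M hx hA h) n hn b
    hb _ (pal p E hp a0 a1 a2 h2))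

end Pool.Agent.H22.WQ
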