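import Mathlib

/-!
# WQ V1: valuation of `a + ζ b` when `a^p + b^p + c^p = 0`

`w(p) = 1` (multiplicative notation), `z` a primitive `p`-th root of unity, `p` odd.
`z` and all `z^i` are units: `w(z) = 1` (`w(z)^p = 1`).  `∏_{0<i<p} (1 - z^i) = p`, all factors have
`w ≤ 1`, so `w(1 - z^i) = 1` for `p ∤ i` (lemma `val_one_sub`).

* If `w a ≠ w b` then `w(a + z b) = max (w a) (w b)` (`Valuation.map_add_eq_of_lt_left/right`), `u = 1`.
* If `w a = w b = m`: all `w(a + z^i b) ≤ m`.  For `i ≢ j`: `(a + z^i b) - (a + z^j b) =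
  z^i (1 - z^(j-i)) b` has `w = m`, so at most one `i mod p` has `w(a + z^i b) < m`.
  `∏_{i<p} (a + z^i b) = a^p + b^p = -c^p` (`IsPrimitiveRoot.pow_sub_pow_eq_prod_sub_mul` with `-b`,
  `p` odd).  If `w(a + z b) < m`, all other factors have `w = m`, so
  `w(a + z b) m^(p-1) = w(c)^p`, `w(a + z b) = m (w c / m)^p`; take `u = w c / m`.  Otherwise
  `u = 1`.
-/

open NumberField
open scoped Pointwise

namespace Pool.Agent.H22.WQ

private theorem V1_one_of_pow {u : WithZero (Multiplicative ℤ)} {n : ℕ} (hn : n ≠ 0)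
    (h : u ^ n = 1) : u = 1 := by
  rcases lt_trichotomy u 1 with h1 | h1 | h1
  · have h2 := pow_lt_one₀ zero_le h1 hn
    rw [h] at h2
    exact absurd h2 (lt_irrefl _)
  · exact h1
  · have h2 := one_lt_pow₀ h1 hn
    rw [h] at h2
    exact absurd h2 (lt_irrefl _)

private theorem V1_wz {L : Type*} [Field L] (w : Valuation L (WithZero (Multiplicative ℤ)))
    (p : ℕ) [Fact p.Prime] {z : L} (hz : IsPrimitiveRoot z p) : w z = 1 := by
  have hp : p.Prime := Fact.out
  refine V1_one_of_pow hp.ne_zero ?_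
  rw [← map_pow, hz.pow_eq_one, map_one]

theorem val_one_sub {L : Type*} [Field L] (w : Valuation L (WithZero (Multiplicative ℤ))) (p : ℕ)
    [Fact p.Prime] {z : L} (hz : IsPrimitiveRoot z p) (hwp : w (p : L) = 1) (i : ℕ)
    (hi : ¬ p ∣ i) : w (1 - z ^ i) = 1 := by
  have hp : p.Prime := Fact.out
  have hwz := V1_wz w p hz
  have hle : ∀ j : ℕ, w (1 - z ^ j) ≤ 1 := by
    intro j
    refine w.map_sub_le ?_ ?_
    · rw [map_one]
    · rw [map_pow, hwz, one_pow]
  obtain ⟨n, hn⟩ : ∃ n, p = n + 1 := ⟨p - 1, by have := hp.pos; omega⟩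
  have hz' : IsPrimitiveRoot z (n + 1) := hn ▸ hz
  have hprod := hz'.prod_one_sub_pow_eq_order
  have hmod : i % p < p := Nat.mod_lt _ hp.pos
  have hmod0 : i % p ≠ 0 := fun h => hi (Nat.dvd_of_mod_eq_zero h)
  have hzi : z ^ i = z ^ (i % p) := by
    have h1 : z ^ i = z ^ (i % p + p * (i / p)) := by rw [Nat.mod_add_div]
    rw [h1, pow_add, pow_mul, hz.pow_eq_one, one_pow, mul_one]
  have hk : i % p - 1 ∈ Finset.range n := by
    rw [Finset.mem_range]
    omega
  have hk1 : i % p - 1 + 1 = i % p := by omega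
  rw [← Finset.mul_prod_erase _ _ hk, hk1, ← hzi] at hprod
  have h1 : w (1 - z ^ i) * w (∏ k ∈ (Finset.range n).erase (i % p - 1), (1 - z ^ (k + 1))) = 1 := by
    rw [← map_mul, hprod]
    have h2 : ((n : L) + 1) = (p : L) := by rw [hn]; push_cast; ring
    rw [h2, hwp]
  have h2 : w (∏ k ∈ (Finset.range n).erase (i % p - 1), (1 - z ^ (k + 1))) ≤ 1 := by
    rw [map_prod]
    exact Finset.prod_le_one' fun k _ => hle (k + 1)
  refine le_antisymm (hle i) ?_
  calc (1 : WithZero (Multiplicative ℤ)) = w (1 - z ^ i) *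
        w (∏ k ∈ (Finset.range n).erase (i % p - 1), (1 - z ^ (k + 1))) := h1.symm
    _ ≤ w (1 - z ^ i) * 1 := mul_le_mul_right h2 _
    _ = w (1 - z ^ i) := mul_one _

theorem val_factor {L : Type*} [Field L] (w : Valuation L (WithZero (Multiplicative ℤ))) (p : ℕ)
    [Fact p.Prime] (hp : 3 ≤ p) {z : L} (hz : IsPrimitiveRoot z p) (hwp : w (p : L) = 1)
    {a b c : L} (ha : a ≠ 0) (hb : b ≠ 0) (hc : c ≠ 0) (h : a ^ p + b ^ p + c ^ p = 0) :
    (∃ u : WithZero (Multiplicative ℤ), w (a + z * b) = max (w a) (w b) * u ^ p) ∧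
      (w (a + z * b) < max (w a) (w b) → w a = w b) := by
  classical
  have hpp : p.Prime := Fact.out
  have hwz := V1_wz w p hz
  have hwzb : w (z * b) = w b := by rw [map_mul, hwz, one_mul]
  rcases eq_or_ne (w a) (w b) with hab | hab
  · refine ⟨?_, fun _ => hab⟩
    rw [hab, max_self]
    have hm0 : w b ≠ 0 := (Valuation.ne_zero_iff w).2 hb
    have hle : ∀ ζ ∈ Polynomial.nthRootsFinset p (1 : L), w (a + ζ * b) ≤ w b := by
      intro ζ hζ
      have h1 : ζ ^ p = 1 := (Polynomial.mem_nthRootsFinset hpp.pos 1).1 hζ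
      have h2 : w ζ = 1 := by
        refine V1_one_of_pow hpp.ne_zero ?_
        rw [← map_pow, h1, map_one]
      refine w.map_add_le hab.le ?_
      rw [map_mul, h2, one_mul]
    have hzmem : z ∈ Polynomial.nthRootsFinset p (1 : L) :=
      (Polynomial.mem_nthRootsFinset hpp.pos 1).2 hz.pow_eq_one
    rcases (hle z hzmem).lt_or_eq with hlt | heq
    · have hoth : ∀ ζ ∈ (Polynomial.nthRootsFinset p (1 : L)).erase z, w (a + ζ * b) = w b := by
        intro ζ hζ
        have hζ1 := Finset.mem_of_mem_erase hζ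
        have hζne := Finset.ne_of_mem_erase hζ
        have h1 : ζ ^ p = 1 := (Polynomial.mem_nthRootsFinset hpp.pos 1).1 hζ1
        refine le_antisymm (hle ζ hζ1) ?_
        by_contra hcon
        have hcon' : w (a + ζ * b) < w b := not_le.1 hcon
        obtain ⟨i, hi, hiζ⟩ := hz.eq_pow_of_pow_eq_one h1
        have h3 : z * (1 - z ^ (i + (p - 1))) = z - ζ := by
          have h4 : z * z ^ (i + (p - 1)) = z ^ i * z ^ p := by
            rw [← pow_succ', ← pow_add]
            congr 1
            have := hpp.pos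
            omega
          rw [mul_sub, mul_one, h4, hz.pow_eq_one, mul_one, hiζ]
        have h5 : ¬ p ∣ i + (p - 1) := by
          intro h6
          obtain ⟨k, hk⟩ := h6
          have h7 : z ^ (i + (p - 1)) = 1 := by rw [hk, pow_mul, hz.pow_eq_one, one_pow]
          rw [h7, sub_self, mul_zero] at h3
          exact hζne (sub_eq_zero.1 h3.symm).symm
        have h6 : w (z - ζ) = 1 := by
          rw [← h3, map_mul, hwz, val_one_sub w p hz hwp _ h5, one_mul]
        have h7 : w ((a + z * b) - (a + ζ * b)) < w b := w.map_sub_lt hlt hcon'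
        have h8 : (a + z * b) - (a + ζ * b) = (z - ζ) * b := by ring
        rw [h8, map_mul, h6, one_mul] at h7
        exact lt_irrefl _ h7
      have hodd : Odd p := hpp.odd_of_ne_two (by omega)
      have hprod := hz.pow_add_pow_eq_prod_add_mul (x := a) (y := b) hodd
      have hcp : w (a ^ p + b ^ p) = w c ^ p := by
        have h9 : a ^ p + b ^ p = -(c ^ p) := by linear_combination h
        rw [h9, Valuation.map_neg, map_pow]
      rw [hprod, map_prod, ← Finset.mul_prod_erase _ _ hzmem, Finset.prod_congr rfl hoth,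
        Finset.prod_const, Finset.card_erase_of_mem hzmem, hz.card_nthRootsFinset] at hcp
      refine ⟨w c / w b, ?_⟩
      have hpow : w b ^ p = w b ^ (p - 1) * w b := by
        rw [← pow_succ]
        congr 1
        have := hpp.pos
        omega
      have hm1 : w b ^ (p - 1) ≠ 0 := pow_ne_zero _ hm0
      rw [div_pow, hpow, ← hcp]
      field_simp
    · exact ⟨1, by rw [heq, one_pow, mul_one]⟩
  · have hmax : w (a + z * b) = max (w a) (w b) := by
      rw [w.map_add_of_distinct_val (by rw [hwzb]; exact hab), hwzb]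
    exact ⟨⟨1, by rw [hmax, one_pow, mul_one]⟩, fun h1 => absurd h1 (by rw [hmax]; exact lt_irrefl _)⟩

end Pool.Agent.H22.WQ
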